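import Pool.Agent.H65.UB.Gdf

/-!
# CON: the complement of a set with gap discs is connected (locally, too)

`con0`: an open bounded nonempty set `O` with frontier in `Φ` does not exist. PROOF. First let `O` be connected. Take `y` in
`closure O` (compact) with maximal real part. `y ∉ O` (`O` is open), so `y ∈ frontier O ⊆ Φ`. Choose `o ∈ O`, `r = ‖o - y‖ > 0`
(or smaller), a gap disc `ψ` at `(y, r)`, so `o ∉ ψ '' ball 0 1`, and `ρ = (θ + 1) / 2`. By `gd_pt` there is a point `p` of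
the curve `ψ '' sphere 0 ρ` with real part `> Re y` (`y ∈ ψ '' ball 0 ρ` by `gd_mid`), so `p ∉ closure O`. The curve is preconnected
(`gd_circ`), disjoint from `Φ ⊇ frontier O`, so it is disjoint from `O` (`IsPreconnected.inter_frontier_nonempty` or
`isPreconnected_iff_subset_of_disjoint`). So `O` is covered by the disjoint open sets `ψ '' ball 0 ρ` (meets `O`, as it is a
neighbourhood of `y ∈ closure O`) and the complement of `ψ '' closedBall 0 ρ` (contains `o`): contradiction.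
In general: a component `O1 = connectedComponentIn O p` is open (`IsOpen.connectedComponentIn`), connected, bounded, and its
frontier is in `Φ`: for `y ∈ frontier O1`, `y ∈ closure O`; if `y ∈ O` then the component of `y` in `O` is open and meets `O1`,
so equals `O1`, so `y ∈ O1 = interior O1`: contradiction. So `y ∈ frontier O ⊆ Φ`.

`con`: `V` open preconnected gives `V \ Φ` preconnected. PROOF. Otherwise `V \ Φ ⊆ A ∪ B`, `A`, `B` open, and (replace them by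
`A ∩ (V \ Φ)`, `B ∩ (V \ Φ)`, open as `Φ` is closed) nonempty, disjoint, in `V \ Φ`, `A ∪ B = V \ Φ`. As `Φ` has empty interior
(`dns`), `V ⊆ closure A ∪ closure B`; `V` is preconnected, so there is `x ∈ V ∩ closure A ∩ closure B`
(`isPreconnected_closed_iff`). `x ∉ A`, `x ∉ B` (open, disjoint), so `x ∈ Φ`. Take `r` with `ball x r ⊆ V`, `ψ` at `(x, r)`,
`ρ = (θ + 1) / 2`: the curve is in `V \ Φ`, preconnected, so in `A` or in `B`, say in `A`. Then `O = B ∩ ψ '' ball 0 ρ` is open,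
bounded, nonempty (`x ∈ closure B`), and `frontier O ⊆ Φ`: a point `y` of the frontier is in `closure B` and in
`closure (ψ '' ball 0 ρ) ⊆ ψ '' closedBall 0 ρ ⊆ V`; it is not on the curve (the curve is in the open set `A`, disjoint from
`B`, so from `closure B`), so it is in `ψ '' ball 0 ρ` (open); if `y ∉ Φ` then `y ∈ A ∪ B`, not in `A` (open, disjoint from `B`),
so `y ∈ B`, so `y ∈ O`, which is open: contradiction. Now `con0`.
`dns`: a point `x` of the interior of `Φ` has a ball in `Φ`; the collar of a gap disc in this ball is not empty.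
`ext_con`: `V = (ψ '' closedBall 0 ρ)ᶜ`. If `V ⊆ A ∪ B` etc. (separated, both meet `V`; take `A, B ⊆ V` open disjoint nonempty with
union `V`) then the preconnected collar `ψ '' {ρ < ‖u‖ < 1} ⊆ V` is in one of them, say `A`. `B` has empty frontier: a frontier
point `y` of `B` is not in `A`, not in `B`, so `y = ψ u`, `‖u‖ ≤ ρ`, the open set `ψ '' ball 0 1` is a neighbourhood of `y`, meets
`B`, but `ψ '' ball 0 1 ∩ B ⊆ ψ '' {ρ < ‖u‖ < 1} ∩ B = ∅`. So `B` is open and closed and not empty: `B = univ`, contradiction.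
(`{u | ρ < ‖u‖ ∧ ‖u‖ < 1}` is the image under `Complex.exp` of the convex set `{ζ | Real.log ρ < ζ.re ∧ ζ.re < 0}`: `an_con`.)
-/

set_option autoImplicit false

open Filter Topology Metric Set

namespace Pool.Agent.H65.UB

open Pool.Agent.H56.UD

theorem an_con {a b : ℝ} (ha : 0 < a) : IsPreconnected {u : ℂ | a < ‖u‖ ∧ ‖u‖ < b} := by
  rcases le_or_gt b 0 with hb | hb
  · have : {u : ℂ | a < ‖u‖ ∧ ‖u‖ < b} = ∅ := by
      ext u
      simp only [mem_ofPred_eq, mem_empty_iff_false, iff_false, not_and, not_lt]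
      intro _
      exact hb.trans (norm_nonneg _)
    rw [this]
    exact isPreconnected_empty
  · have hE : {u : ℂ | a < ‖u‖ ∧ ‖u‖ < b} =
        Complex.exp '' {ζ : ℂ | Real.log a < ζ.re ∧ ζ.re < Real.log b} := by
      ext u
      constructor
      · rintro ⟨h1, h2⟩
        have hu : u ≠ 0 := norm_pos_iff.1 (ha.trans h1)
        refine ⟨Complex.log u, ⟨?_, ?_⟩, Complex.exp_log hu⟩
        · rw [Complex.log_re]
          exact Real.log_lt_log ha h1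
        · rw [Complex.log_re]
          exact Real.log_lt_log (ha.trans h1) h2
      · rintro ⟨ζ, ⟨h1, h2⟩, rfl⟩
        constructor
        · rw [Complex.norm_exp]
          exact (Real.log_lt_iff_lt_exp ha).1 h1
        · rw [Complex.norm_exp]
          exact (Real.lt_log_iff_exp_lt hb).1 h2
    rw [hE]
    have hc : Convex ℝ {ζ : ℂ | Real.log a < ζ.re ∧ ζ.re < Real.log b} :=
      (convex_halfSpace_re_gt _).inter (convex_halfSpace_re_lt _)
    exact hc.isPreconnected.image _ Complex.continuous_exp.continuousOn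

theorem dns {θ C : ℝ} {Φ : Set ℂ} (hθ : 0 < θ) (hθ1 : θ < 1) (hΦ : GP θ C Φ) : interior Φ = ∅ := by
  rw [eq_empty_iff_forall_notMem]
  intro x hx
  obtain ⟨r, hr, hrs⟩ := Metric.isOpen_iff.1 isOpen_interior x hx
  obtain ⟨ψ, hψ⟩ := hΦ x (interior_subset hx) r hr
  have hn : ‖(((θ + 1) / 2 : ℝ) : ℂ)‖ = (θ + 1) / 2 := by
    rw [Complex.norm_real, Real.norm_eq_abs, abs_of_pos (by linarith)]
  have h1 : ψ (((θ + 1) / 2 : ℝ) : ℂ) ∉ Φ := hψ.col _ (by rw [hn]; linarith) (by rw [hn]; linarith)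
  refine h1 (interior_subset (hrs (hψ.out (mem_image_of_mem ψ ?_))))
  rw [mem_ball_zero_iff, hn]
  linarith

private theorem pre_fr {t s : Set ℂ} (ht : IsPreconnected t) (h1 : (t ∩ s).Nonempty) (h2 : (t ∩ sᶜ).Nonempty) :
    (t ∩ frontier s).Nonempty := by
  by_contra hcon
  rw [not_nonempty_iff_eq_empty] at hcon
  have hsub : t ⊆ interior s ∪ (closure s)ᶜ := by
    intro z hz
    by_contra hz2
    rw [mem_union, not_or] at hz2
    have h3 : z ∈ t ∩ frontier s := ⟨hz, not_not.1 hz2.2, hz2.1⟩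
    rw [hcon] at h3
    exact h3
  have hdis : Disjoint (interior s) (closure s)ᶜ :=
    disjoint_left.2 (fun z hz hz2 => hz2 (subset_closure (interior_subset hz)))
  rcases ht.subset_or_subset isOpen_interior isClosed_closure.isOpen_compl hdis hsub with h | h
  · obtain ⟨z, hz1, hz2⟩ := h2
    exact hz2 (interior_subset (h hz1))
  · obtain ⟨z, hz1, hz2⟩ := h1
    exact h hz1 (subset_closure hz2)

private theorem con00 {θ C : ℝ} {Φ : Set ℂ} (hθ : 0 < θ) (hθ1 : θ < 1) (hC : 1 ≤ C) (hΦ : GP θ C Φ)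
    {O : Set ℂ} (hO : IsOpen O) (hb : Bornology.IsBounded O) (hn : O.Nonempty) (hp : IsPreconnected O)
    (hf : frontier O ⊆ Φ) : False := by
  have hcomp : IsCompact (closure O) := hb.isCompact_closure
  obtain ⟨y, hy, hym⟩ := hcomp.exists_isMaxOn (hn.mono subset_closure)
    (f := fun z : ℂ => z.re) (by fun_prop)
  have hyO : y ∉ O := by
    intro h
    obtain ⟨e, he, hes⟩ := Metric.isOpen_iff.1 hO y h
    have h1 : y + ((e / 2 : ℝ) : ℂ) ∈ O := by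
      apply hes
      rw [mem_ball, dist_eq_norm, add_sub_cancel_left, Complex.norm_real, Real.norm_eq_abs,
        abs_of_pos (by linarith)]
      linarith
    have h2 : (y + ((e / 2 : ℝ) : ℂ)).re ≤ y.re := hym (subset_closure h1)
    simp only [Complex.add_re, Complex.ofReal_re] at h2
    linarith
  have hyf : y ∈ frontier O := by
    rw [hO.frontier_eq]
    exact ⟨hy, hyO⟩
  obtain ⟨o, ho⟩ := hn
  have hoy : o ≠ y := fun h => hyO (h ▸ ho)
  obtain ⟨ψ, hψ⟩ := hΦ y (hf hyf) (dist o y) (dist_pos.2 hoy)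
  have hρ1 : θ < (θ + 1) / 2 := by linarith
  have hρ2 : (θ + 1) / 2 < 1 := by linarith
  have hρ0 : 0 < (θ + 1) / 2 := by linarith
  obtain ⟨u, hu, hum⟩ := gd_pt hψ hρ0 hρ2
  obtain ⟨v, hv, hvy⟩ := gd_mid hψ hC (dist_pos.2 hoy)
  have hyD : y ∈ ψ '' ball 0 ((θ + 1) / 2) := ⟨v, by rw [mem_ball_zero_iff]; linarith, hvy⟩
  obtain ⟨hG, hGΦ⟩ := gd_circ hψ hρ1 hρ2
  have hGO : ∀ z ∈ ψ '' sphere 0 ((θ + 1) / 2), z ∉ O := by
    intro z hz hzO
    have h1 : ψ u ∉ O := by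
      intro h
      have h2 : (ψ u).re ≤ y.re := hym (subset_closure h)
      have h3 := hum y hyD
      linarith
    obtain ⟨w, hw1, hw2⟩ := pre_fr hG ⟨z, hz, hzO⟩
      ⟨ψ u, ⟨u, by rw [mem_sphere_zero_iff_norm]; exact hu, rfl⟩, h1⟩
    exact hGΦ w hw1 (hf hw2)
  have hDo : IsOpen (ψ '' ball 0 ((θ + 1) / 2)) := gd_open hψ isOpen_ball (ball_subset_ball hρ2.le)
  obtain ⟨z, hz1, hz2⟩ := mem_closure_iff.1 hy _ hDo hyD
  have hoD : o ∉ ψ '' ball 0 ((θ + 1) / 2) := by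
    rintro ⟨w, hw, hwo⟩
    have h1 := hψ.out (mem_image_of_mem ψ (ball_subset_ball hρ2.le hw))
    rw [hwo, mem_ball] at h1
    exact lt_irrefl _ h1
  obtain ⟨w, hw1, hw2⟩ := pre_fr hp ⟨z, hz2, hz1⟩ ⟨o, ho, hoD⟩
  exact hGO w (gd_fr hψ hρ0 hρ2 hw2) hw1

theorem con0 {θ C : ℝ} {Φ : Set ℂ} (hθ : 0 < θ) (hθ1 : θ < 1) (hC : 1 ≤ C) (hΦ : GP θ C Φ) {O : Set ℂ} (hO : IsOpen O)
    (hb : Bornology.IsBounded O) (hn : O.Nonempty) (hf : frontier O ⊆ Φ) : False := by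
  obtain ⟨p, hp⟩ := hn
  have hO1 : IsOpen (connectedComponentIn O p) := hO.connectedComponentIn
  refine con00 hθ hθ1 hC hΦ hO1 (hb.subset (connectedComponentIn_subset O p))
    ⟨p, mem_connectedComponentIn hp⟩ isPreconnected_connectedComponentIn ?_
  intro y hy
  rw [hO1.frontier_eq] at hy
  apply hf
  rw [hO.frontier_eq]
  refine ⟨closure_mono (connectedComponentIn_subset O p) hy.1, fun hyO => hy.2 ?_⟩
  have hCy : IsOpen (connectedComponentIn O y) := hO.connectedComponentIn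
  obtain ⟨z, hz1, hz2⟩ := mem_closure_iff.1 hy.1 _ hCy (mem_connectedComponentIn hyO)
  rw [connectedComponentIn_eq hz2, ← connectedComponentIn_eq hz1]
  exact mem_connectedComponentIn hyO

private theorem con_aux {θ C r : ℝ} {Φ : Set ℂ} (hθ : 0 < θ) (hθ1 : θ < 1) (hC : 1 ≤ C) (hΦ : GP θ C Φ)
    {V A B : Set ℂ} (hA : IsOpen A) (hB : IsOpen B) (hAB : ∀ z ∈ A, z ∉ B) (hV : V \ Φ ⊆ A ∪ B)
    {x : ℂ} {ψ : ℂ → ℂ} (hr : 0 < r) (hψ : GD θ C Φ x r ψ) (hrV : ball x r ⊆ V) (hxB : x ∈ closure B)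
    (hG : ψ '' sphere 0 ((θ + 1) / 2) ⊆ A) : False := by
  have hρ2 : (θ + 1) / 2 < 1 := by linarith
  have hρ0 : 0 < (θ + 1) / 2 := by linarith
  have hDo : IsOpen (ψ '' ball 0 ((θ + 1) / 2)) := gd_open hψ isOpen_ball (ball_subset_ball hρ2.le)
  obtain ⟨v, hv, hvx⟩ := gd_mid hψ hC hr
  have hxD : x ∈ ψ '' ball 0 ((θ + 1) / 2) := ⟨v, by rw [mem_ball_zero_iff]; linarith, hvx⟩
  have hsub : ψ '' ball 0 ((θ + 1) / 2) ⊆ ball x r :=
    (image_mono (ball_subset_ball hρ2.le)).trans hψ.out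
  have hcl : ∀ z ∈ closure B, z ∉ A := by
    intro z hz hzA
    obtain ⟨w, hw1, hw2⟩ := mem_closure_iff.1 hz _ hA hzA
    exact hAB w hw1 hw2
  refine con0 hθ hθ1 hC hΦ (hB.inter hDo) ((isBounded_ball (x := x) (r := r)).subset
    (inter_subset_right.trans hsub)) ?_ ?_
  · obtain ⟨z, hz1, hz2⟩ := mem_closure_iff.1 hxB _ hDo hxD
    exact ⟨z, hz2, hz1⟩
  · intro y hy
    rw [(hB.inter hDo).frontier_eq] at hy
    obtain ⟨hy1, hy2⟩ := hy
    have hyB : y ∈ closure B := closure_mono inter_subset_left hy1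
    have hyD : y ∈ ψ '' closedBall 0 ((θ + 1) / 2) := by
      have h1 : closure (ψ '' ball 0 ((θ + 1) / 2)) ⊆ ψ '' closedBall 0 ((θ + 1) / 2) :=
        closure_minimal (image_mono ball_subset_closedBall) (gd_cl hψ hρ2).isClosed
      exact h1 (closure_mono inter_subset_right hy1)
    obtain ⟨u, hu, huy⟩ := hyD
    have hu2 : ‖u‖ ≤ (θ + 1) / 2 := by simpa using hu
    have hu3 : ‖u‖ < (θ + 1) / 2 := by
      refine lt_of_le_of_ne hu2 (fun h => hcl y hyB (hG ⟨u, ?_, huy⟩))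
      rw [mem_sphere_zero_iff_norm]
      exact h
    have hyD2 : y ∈ ψ '' ball 0 ((θ + 1) / 2) := ⟨u, by rw [mem_ball_zero_iff]; exact hu3, huy⟩
    by_contra hyΦ
    rcases hV ⟨hrV (hsub hyD2), hyΦ⟩ with h | h
    · exact hcl y hyB h
    · exact hy2 ⟨h, hyD2⟩

theorem con {θ C : ℝ} {Φ : Set ℂ} (hθ : 0 < θ) (hθ1 : θ < 1) (hC : 1 ≤ C) (hΦ : GP θ C Φ) (hc : IsClosed Φ) {V : Set ℂ}
    (hV : IsOpen V) (hp : IsPreconnected V) : IsPreconnected (V \ Φ) := by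
  intro U1 U2 hU1 hU2 hsub hn1 hn2
  by_contra hcon
  rw [not_nonempty_iff_eq_empty] at hcon
  have hVo : IsOpen (V \ Φ) := hV.sdiff hc
  have hA : IsOpen (V \ Φ ∩ U1) := hVo.inter hU1
  have hB : IsOpen (V \ Φ ∩ U2) := hVo.inter hU2
  have hAB : ∀ z ∈ V \ Φ ∩ U1, z ∉ V \ Φ ∩ U2 := by
    intro z hz1 hz2
    have : z ∈ V \ Φ ∩ (U1 ∩ U2) := ⟨hz1.1, hz1.2, hz2.2⟩
    rw [hcon] at this
    exact this
  have hBA : ∀ z ∈ V \ Φ ∩ U2, z ∉ V \ Φ ∩ U1 := fun z h1 h2 => hAB z h2 h1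
  have hcov : V \ Φ ⊆ (V \ Φ ∩ U1) ∪ (V \ Φ ∩ U2) := by
    intro z hz
    rcases hsub hz with h | h
    · exact Or.inl ⟨hz, h⟩
    · exact Or.inr ⟨hz, h⟩
  have hcov2 : V \ Φ ⊆ (V \ Φ ∩ U2) ∪ (V \ Φ ∩ U1) := by
    rw [union_comm]
    exact hcov
  have hVc : V ⊆ closure (V \ Φ ∩ U1) ∪ closure (V \ Φ ∩ U2) := by
    rw [← closure_union]
    have hd : Dense Φᶜ := interior_eq_empty_iff_dense_compl.1 (dns hθ hθ1 hΦ)
    exact (hd.open_subset_closure_inter hV).trans (closure_mono hcov)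
  obtain ⟨x, hxV, hx1, hx2⟩ := isPreconnected_closed_iff.1 hp _ _ isClosed_closure isClosed_closure hVc
    (by
      obtain ⟨z, hz⟩ := hn1
      exact ⟨z, hz.1.1, subset_closure hz⟩)
    (by
      obtain ⟨z, hz⟩ := hn2
      exact ⟨z, hz.1.1, subset_closure hz⟩)
  have hxΦ : x ∈ Φ := by
    by_contra h
    rcases hcov ⟨hxV, h⟩ with h1 | h1
    · obtain ⟨z, hz1, hz2⟩ := mem_closure_iff.1 hx2 _ hA h1
      exact hAB z hz1 hz2
    · obtain ⟨z, hz1, hz2⟩ := mem_closure_iff.1 hx1 _ hB h1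
      exact hAB z hz2 hz1
  obtain ⟨r, hr, hrV⟩ := Metric.isOpen_iff.1 hV x hxV
  obtain ⟨ψ, hψ⟩ := hΦ x hxΦ r hr
  have hρ1 : θ < (θ + 1) / 2 := by linarith
  have hρ2 : (θ + 1) / 2 < 1 := by linarith
  obtain ⟨hG, hGΦ⟩ := gd_circ hψ hρ1 hρ2
  have hGs : ψ '' sphere 0 ((θ + 1) / 2) ⊆ V \ Φ := by
    intro z hz
    refine ⟨hrV ?_, hGΦ z hz⟩
    obtain ⟨u, hu, rfl⟩ := hz
    refine hψ.out (mem_image_of_mem ψ ?_)
    rw [mem_sphere_zero_iff_norm] at hu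
    rw [mem_ball_zero_iff, hu]
    exact hρ2
  rcases hG.subset_or_subset hA hB (disjoint_left.2 hAB) (hGs.trans hcov) with h | h
  · exact con_aux hθ hθ1 hC hΦ hA hB hAB hcov hr hψ hrV hx2 h
  · exact con_aux hθ hθ1 hC hΦ hB hA hBA hcov2 hr hψ hrV hx1 h

private theorem ext_aux {θ C r : ℝ} {Φ : Set ℂ} {x : ℂ} {ψ : ℂ → ℂ} (h : GD θ C Φ x r ψ) {ρ : ℝ}
    {A B : Set ℂ} (h2 : ρ < 1) (hA : IsOpen A) (hB : IsOpen B)
    (hBV : B ⊆ (ψ '' closedBall 0 ρ)ᶜ) (hAB : ∀ z ∈ A, z ∉ B) (hcov : (ψ '' closedBall 0 ρ)ᶜ ⊆ A ∪ B)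
    (hAn : A.Nonempty) (hBn : B.Nonempty) (hK : ψ '' {u : ℂ | ρ < ‖u‖ ∧ ‖u‖ < 1} ⊆ A) : False := by
  have hcl : IsClosed B := by
    refine isClosed_of_closure_subset (fun y hy => ?_)
    by_contra hyB
    have hyA : y ∉ A := by
      intro hyA
      obtain ⟨w, hw1, hw2⟩ := mem_closure_iff.1 hy _ hA hyA
      exact hAB w hw1 hw2
    have hyV : y ∈ ψ '' closedBall 0 ρ := by
      by_contra hyV
      rcases hcov hyV with h3 | h3
      · exact hyA h3
      · exact hyB h3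
    obtain ⟨u, hu, huy⟩ := hyV
    have hD : IsOpen (ψ '' ball 0 1) := gd_open h isOpen_ball (Subset.refl _)
    have hyD : y ∈ ψ '' ball 0 1 := ⟨u, closedBall_subset_ball h2 hu, huy⟩
    obtain ⟨z, hz1, hz2⟩ := mem_closure_iff.1 hy _ hD hyD
    obtain ⟨v, hv, hvz⟩ := hz1
    refine hAB z (hK ⟨v, ⟨?_, by simpa using hv⟩, hvz⟩) hz2
    by_contra hvρ
    exact hBV hz2 ⟨v, by simpa using not_lt.1 hvρ, hvz⟩
  have huniv : B = univ := IsClopen.eq_univ ⟨hcl, hB⟩ hBn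
  obtain ⟨a, ha⟩ := hAn
  exact hAB a ha (huniv ▸ mem_univ a)

theorem ext_con {θ C r : ℝ} {Φ : Set ℂ} {x : ℂ} {ψ : ℂ → ℂ} (hθ : 0 < θ) (h : GD θ C Φ x r ψ) {ρ : ℝ} (h1 : θ < ρ)
    (h2 : ρ < 1) : IsPreconnected (ψ '' closedBall 0 ρ)ᶜ := by
  intro U1 U2 hU1 hU2 hsub hn1 hn2
  by_contra hcon
  rw [not_nonempty_iff_eq_empty] at hcon
  have hVo : IsOpen (ψ '' closedBall 0 ρ)ᶜ := (gd_cl h h2).isClosed.isOpen_compl
  have hA : IsOpen ((ψ '' closedBall 0 ρ)ᶜ ∩ U1) := hVo.inter hU1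
  have hB : IsOpen ((ψ '' closedBall 0 ρ)ᶜ ∩ U2) := hVo.inter hU2
  have hAB : ∀ z ∈ (ψ '' closedBall 0 ρ)ᶜ ∩ U1, z ∉ (ψ '' closedBall 0 ρ)ᶜ ∩ U2 := by
    intro z hz1 hz2
    have : z ∈ (ψ '' closedBall 0 ρ)ᶜ ∩ (U1 ∩ U2) := ⟨hz1.1, hz1.2, hz2.2⟩
    rw [hcon] at this
    exact this
  have hcov : (ψ '' closedBall 0 ρ)ᶜ ⊆ ((ψ '' closedBall 0 ρ)ᶜ ∩ U1) ∪ ((ψ '' closedBall 0 ρ)ᶜ ∩ U2) := by
    intro z hz
    rcases hsub hz with h3 | h3
    · exact Or.inl ⟨hz, h3⟩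
    · exact Or.inr ⟨hz, h3⟩
  have hKp : IsPreconnected (ψ '' {u : ℂ | ρ < ‖u‖ ∧ ‖u‖ < 1}) := by
    refine (an_con (hθ.trans h1)).image _ (h.diff.continuousOn.mono ?_)
    intro u hu
    rw [mem_ball_zero_iff]
    exact hu.2
  have hKV : ψ '' {u : ℂ | ρ < ‖u‖ ∧ ‖u‖ < 1} ⊆ (ψ '' closedBall 0 ρ)ᶜ := by
    rintro z ⟨u, hu, rfl⟩ ⟨v, hv, hvu⟩
    have hv1 : v ∈ ball (0 : ℂ) 1 := closedBall_subset_ball h2 hv
    have hu1 : u ∈ ball (0 : ℂ) 1 := by
      rw [mem_ball_zero_iff]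
      exact hu.2
    have hvu2 : v = u := h.inj hv1 hu1 hvu
    rw [hvu2] at hv
    have h3 : ‖u‖ ≤ ρ := by simpa using hv
    linarith [hu.1]
  rcases hKp.subset_or_subset hA hB (disjoint_left.2 hAB) (hKV.trans hcov) with h3 | h3
  · exact ext_aux h h2 hA hB inter_subset_left hAB hcov hn1 hn2 h3
  · exact ext_aux h h2 hB hA inter_subset_left (fun z a b => hAB z b a)
      (by rw [union_comm]; exact hcov) hn2 hn1 h3

end Pool.Agent.H65.UB
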