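import Pool.Agent.H65.UB.Lvl

/-!
# THE THEOREM ON LIMIT FRAMES: the map is the exponential

`κ` of `lv`. `s ↦ F s * exp (- s / κ)` has derivative `0` on the open connected set `S`, so it is a constant `A`; `A ≠ 0` since `F s ≠ 0` (`0 ∈ Φ`, `Fv`);
`A = exp (- c / κ)` for some `c`. So `F s = exp ((s - c) / κ)` on `S`, and `S ⊆ {s | exp ((s - c) / κ) ∉ Φ}` by `Fv`.
For the other inclusion one needs `Dk F S 1 (2 π i κ)`: take a gap disc `ψ` at `(0, 1)` (`LF.gp`), a lift `q` of its collar (`lft` on `Qc θ` as in `dx`);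
`exp ((q ζ - c) / κ) = F (q ζ) = ψ (exp ζ)`. `nn_lift` with `Q ζ = (q ζ - c) / κ`, `h = ψ`, `e = 0`, `ρ = √θ`, `V = Qc θ`, and `nn_one` with `a` = the preimage of `0`
(`gd_mid`, `‖a‖ < θ < ρ`): `2 π i = nn ψ ρ 0 = (q (log ρ + 2 π i) - q (log ρ)) / κ`. By `hol` (`t = 1`, `lv`) the difference `q (ζ + 2 π i) - q ζ = c'` with
`Dk F S 1 c'`, so `c' = 2 π i κ`.
Now let `exp ((s' - c) / κ) ∉ Φ`; `onto`: `s ∈ S` with `F s = exp ((s' - c) / κ)`, so `exp ((s - c) / κ) = exp ((s' - c) / κ)`, `s' = s + n (2 π i κ)`,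
in `S` by `dk_zmul`.
-/

set_option autoImplicit false

open Filter Topology Metric Set

namespace Pool.Agent.H65.UB

open Pool.Agent.H56.UD

private theorem qc_open (θ : ℝ) : IsOpen (Qc θ) := by
  have h1 : Qc θ = (Complex.re ⁻¹' Ioo (Real.log θ) 0) ∩ ((fun z : ℂ => |z.im|) ⁻¹' Iio (6 * Real.pi)) := by
    ext z
    simp only [Qc, Qr, mem_ofPred_eq, mem_inter_iff, mem_preimage, mem_Ioo, mem_Iio]
    tauto
  rw [h1]
  exact (isOpen_Ioo.preimage Complex.continuous_re).inter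
    (isOpen_Iio.preimage (continuous_abs.comp Complex.continuous_im))

private theorem qc_convex (θ : ℝ) : Convex ℝ (Qc θ) := by
  have h1 : Qc θ = (Complex.reLm ⁻¹' Ioo (Real.log θ) 0) ∩ (Complex.imLm ⁻¹' Ioo (-(6 * Real.pi)) (6 * Real.pi)) := by
    ext z
    simp only [Qc, Qr, mem_ofPred_eq, mem_inter_iff, mem_preimage, mem_Ioo, Complex.reLm_coe, Complex.imLm_coe, abs_lt]
    tauto
  rw [h1]
  exact ((convex_Ioo _ _).linear_preimage _).inter ((convex_Ioo _ _).linear_preimage _)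

private theorem qc_exp {θ : ℝ} (hθ : 0 < θ) {ζ : ℂ} (hζ : ζ ∈ Qc θ) : θ < ‖Complex.exp ζ‖ ∧ ‖Complex.exp ζ‖ < 1 := by
  rw [Complex.norm_exp]
  refine ⟨?_, ?_⟩
  · have h1 := hζ.1
    rwa [← Real.log_lt_iff_lt_exp hθ]
  · rw [Real.exp_lt_one_iff]
    exact hζ.2.1

theorem clf {F : ℂ → ℂ} {S Φ : Set ℂ} {θ C : ℝ} (h : LF F S Φ θ C) :
    ∃ κ c : ℂ, κ ≠ 0 ∧ S = {s | Complex.exp ((s - c) / κ) ∉ Φ} ∧ ∀ s ∈ S, F s = Complex.exp ((s - c) / κ) := by
  obtain ⟨κ, hκ, hder, ht⟩ := lv h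
  obtain ⟨s0, hs0⟩ := h.Sc.nonempty
  have hF0 : ∀ s ∈ S, F s ≠ 0 := fun s hs h4 => h.Fv s hs (h4 ▸ h.P0)
  obtain ⟨c, hc⟩ : ∃ c : ℂ, c = s0 - κ * Complex.log (F s0) := ⟨_, rfl⟩
  have hc0 : Complex.exp ((s0 - c) / κ) = F s0 := by
    have : (s0 - c) / κ = Complex.log (F s0) := by rw [hc]; field_simp; ring
    rw [this, Complex.exp_log (hF0 s0 hs0)]
  have hfd : ∀ s ∈ S, HasDerivAt (fun s => F s * Complex.exp (-((s - c) / κ))) 0 s := by
    intro s hs
    have h1 : HasDerivAt F (F s / κ) s := by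
      rw [← hder s hs]
      exact (h.Fd.differentiableAt (h.So.mem_nhds hs)).hasDerivAt
    have h2 : HasDerivAt (fun s => Complex.exp (-((s - c) / κ))) (Complex.exp (-((s - c) / κ)) * (-(1 / κ))) s :=
      ((((hasDerivAt_id s).sub_const c).div_const κ).neg).cexp
    have h3 := h1.mul h2
    refine h3.congr_deriv ?_
    ring
  have hconst : ∀ s ∈ S, F s = Complex.exp ((s - c) / κ) := by
    intro s hs
    have h1 : F s * Complex.exp (-((s - c) / κ)) = F s0 * Complex.exp (-((s0 - c) / κ)) :=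
      h.So.is_const_of_deriv_eq_zero h.Sc.isPreconnected
        (fun v hv => (hfd v hv).differentiableAt.differentiableWithinAt) (fun v hv => (hfd v hv).deriv) hs hs0
    have h2 : F s0 * Complex.exp (-((s0 - c) / κ)) = 1 := by
      rw [← hc0, ← Complex.exp_add, add_neg_cancel, Complex.exp_zero]
    rw [h2, Complex.exp_neg] at h1
    have h3 := Complex.exp_ne_zero ((s - c) / κ)
    rw [mul_inv_eq_one₀ h3] at h1
    exact h1
  refine ⟨κ, c, hκ, ?_, hconst⟩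
  -- the translation by `2 π i κ`
  have htr : Dk F S 1 (2 * Real.pi * Complex.I * κ) := by
    obtain ⟨ψ, hψ⟩ := h.gp 0 h.P0 1 one_pos
    obtain ⟨hz1, hz2, hz3⟩ := zt_mem h.θ0 h.θ1
    have hHd : DifferentiableOn ℂ (fun ζ => ψ (Complex.exp ζ)) (Qc θ) := by
      intro ζ hζ
      have h1 := qc_exp h.θ0 hζ
      have h2 : DifferentiableAt ℂ ψ (Complex.exp ζ) :=
        hψ.diff.differentiableAt (isOpen_ball.mem_nhds (by rw [mem_ball_zero_iff]; exact h1.2))
      exact (h2.comp ζ Complex.differentiableAt_exp).differentiableWithinAt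
    have hHn : ∀ ζ ∈ Qc θ, ψ (Complex.exp ζ) ∉ Φ := fun ζ hζ => hψ.col _ (qc_exp h.θ0 hζ).1 (qc_exp h.θ0 hζ).2
    obtain ⟨s1, hs1, hs1e⟩ := h.onto _ (hHn _ hz1)
    obtain ⟨q, hqd, hq0, hqv⟩ := lft h (qc_open θ) (qc_convex θ) hHd hHn hz1 hs1 hs1e
    have hq : Lf F S θ ψ q := ⟨hqd, hqv⟩
    obtain ⟨t, c', hdk, hqt⟩ := hol h hq
    have ht1 := ht t c' hdk
    obtain ⟨a, ha, ha0⟩ := gd_mid hψ h.C1 one_pos
    have hss : θ < √θ ∧ √θ < 1 ∧ 0 < √θ := by
      have h2 : 0 < √θ := Real.sqrt_pos.2 h.θ0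
      have h3 : √θ < 1 := by rw [Real.sqrt_lt' one_pos]; linarith [h.θ1]
      refine ⟨?_, h3, h2⟩
      have h4 : √θ * √θ = θ := Real.mul_self_sqrt h.θ0.le
      nlinarith
    have hn1 := nn_one hψ.diff hψ.inj (ρ := √θ) (a := a) (by linarith [hss.1]) hss.2.1
    have hlog : Real.log (√θ) = Real.log θ / 2 := Real.log_sqrt h.θ0.le
    have hlogneg : Real.log θ < 0 := Real.log_neg h.θ0 h.θ1
    have hn2 := nn_lift (h := ψ) (Q := fun ζ => (q ζ - c) / κ) (ρ := √θ) hss.2.2 (fun u hu => by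
        rw [mem_sphere_zero_iff_norm] at hu
        exact hψ.diff.analyticAt (isOpen_ball.mem_nhds (by rw [mem_ball_zero_iff, hu]; exact hss.2.1)))
      (e := ψ a) (V := Qc θ) (qc_open θ) (fun t ht => by
        refine ⟨?_, ?_, ?_⟩
        · simp [hlog]; linarith
        · simp [hlog]; linarith
        · simp [abs_of_nonneg ht.1]
          linarith [ht.2, Real.pi_pos])
      ((hqd.sub_const c).div_const κ) (fun ζ hζ => by
        rw [← hconst _ (hqv ζ hζ).1, (hqv ζ hζ).2, ha0, sub_zero])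
    rw [hn1] at hn2
    have hz0 : ((Real.log (√θ) : ℝ) : ℂ) = zt θ := by rw [hlog]; rfl
    rw [hz0] at hn2
    have h5 := hqt _ hz1 hz2
    rw [h5, ht1] at hn2
    have h6 : c' = 2 * Real.pi * Complex.I * κ := by
      field_simp at hn2
      rw [Complex.ofReal_one] at hn2
      linear_combination -hn2
    rw [← h6, ← ht1]
    exact hdk
  refine Subset.antisymm (fun s hs => ?_) (fun s' hs' => ?_)
  · show Complex.exp ((s - c) / κ) ∉ Φ
    rw [← hconst s hs]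
    exact h.Fv s hs
  · obtain ⟨s, hs, hse⟩ := h.onto _ hs'
    rw [hconst s hs] at hse
    obtain ⟨n, hn⟩ := Complex.exp_eq_exp_iff_exists_int.1 hse.symm
    have h1 : s' = (1 : ℝ) * s + n * (2 * Real.pi * Complex.I * κ) := by
      field_simp at hn
      rw [Complex.ofReal_one]
      linear_combination hn
    rw [h1]
    exact ((dk_zmul h htr n).2 s hs).1

end Pool.Agent.H65.UB
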