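import Pool.Agent.H65.UB.Defs
import Pool.Agent.H80.AJ.Cover
import Pool.Agent.H80.AJ.InvDiff
import Pool.Agent.H80.AJ.Distort

/-!
# Gap discs: elementary facts

PROOFS. `gd_open`: `ψ` is holomorphic and injective on the unit disc, so it is an open map there (open mapping theorem on the
preconnected open set `ball 0 1`: `AnalyticOnNhd.is_constant_or_isOpen`, `ψ` is not constant).
`gd_cl`: `ψ '' closedBall 0 ρ` is compact. `gd_mid`: `inn` at the centre `x` (as `0 < r / C`).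
`gd_far`: `u` is not in `ball 0 θ`, so `ψ u ∉ ψ '' ball 0 θ` by injectivity, hence not in `ball x (r / C)`.
`gd_in`: as `gd_far` (points of `ball x (r / C)`). `gd_circ` : image of the circle `sphere 0 ρ`, which is preconnected.
`gd_pt`: the open set `ψ '' ball 0 ρ` is bounded; the maximum of the real part over the compact set `ψ '' closedBall 0 ρ` is
attained at `ψ u`, `‖u‖ ≤ ρ`; it is not attained in the open set `ψ '' ball 0 ρ`, so `‖u‖ = ρ` and `Re (ψ u)` is larger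
than the real part of each point of the open set `ψ '' ball 0 ρ`.
`chain`: cut the segment into `N` pieces of length `≤ δ / 2`, `Pool.Agent.H80.AJ.distort` on each ball.
`gd_dist`: let `ρ0 = √θ`, `δ = min (ρ0 - θ) (1 - ρ0)`. For `‖u‖ = ρ0`: `ball u δ ⊆ An θ`. `dist_upper` (at `z = u0`, `ψ u0 = x`,
`‖u0‖ < θ`, with `ball x (r / C) ⊆ ψ '' ball 0 1`) gives `r / C ≤ 2 ‖deriv ψ u0‖`; `chain` on the segment from `u0` to `u`
(all its points have norm `≤ ρ0`, the balls of radius `1 - ρ0` are in the unit disc, `N` with `2 ≤ N (1 - ρ0) / 2`) gives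
`‖deriv ψ u0‖ ≤ KK ^ N * ‖deriv ψ u‖`; `univ_cover` on `ball u δ`: `ball (ψ u) (δ ‖deriv ψ u‖ / 16) ⊆ ψ '' ball u δ`.
So `c = δ / (32 C KK ^ N)`.
-/

set_option autoImplicit false

open Filter Topology Metric Set

namespace Pool.Agent.H65.UB

open Pool.Agent.H56.UD

theorem gd_open {θ C r : ℝ} {Φ : Set ℂ} {x : ℂ} {ψ : ℂ → ℂ} (h : GD θ C Φ x r ψ) {U : Set ℂ} (hU : IsOpen U)
    (hU1 : U ⊆ ball 0 1) : IsOpen (ψ '' U) := by
  have hgan : AnalyticOnNhd ℂ ψ (ball 0 1) := h.diff.analyticOnNhd isOpen_ball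
  rcases hgan.is_constant_or_isOpen (convex_ball (0 : ℂ) 1).isPreconnected with ⟨w, hw⟩ | h1
  · exfalso
    have h1 : (0 : ℂ) ∈ ball (0 : ℂ) 1 := mem_ball_self one_pos
    have h2 : (((1 / 2 : ℝ)) : ℂ) ∈ ball (0 : ℂ) 1 := by
      rw [mem_ball_zero_iff, Complex.norm_real, Real.norm_of_nonneg (by norm_num)]
      norm_num
    have h3 := h.inj h1 h2 ((hw _ h1).trans (hw _ h2).symm)
    have h5 : (0 : ℝ) = 1 / 2 := by exact_mod_cast h3
    norm_num at h5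
  · exact h1 U hU1 hU

theorem gd_cl {θ C r : ℝ} {Φ : Set ℂ} {x : ℂ} {ψ : ℂ → ℂ} (h : GD θ C Φ x r ψ) {ρ : ℝ} (hρ : ρ < 1) :
    IsCompact (ψ '' closedBall 0 ρ) := by
  exact (isCompact_closedBall (0 : ℂ) ρ).image_of_continuousOn
    (h.diff.continuousOn.mono (closedBall_subset_ball hρ))

theorem gd_mid {θ C r : ℝ} {Φ : Set ℂ} {x : ℂ} {ψ : ℂ → ℂ} (h : GD θ C Φ x r ψ) (hC : 1 ≤ C) (hr : 0 < r) :
    ∃ u : ℂ, ‖u‖ < θ ∧ ψ u = x := by
  obtain ⟨u, hu, hux⟩ := h.inn (mem_ball_self (div_pos hr (by linarith)))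
  exact ⟨u, mem_ball_zero_iff.1 hu, hux⟩

theorem gd_far {θ C r : ℝ} {Φ : Set ℂ} {x : ℂ} {ψ : ℂ → ℂ} (h : GD θ C Φ x r ψ) (hθ : θ < 1) {u : ℂ} (h1 : θ ≤ ‖u‖)
    (h2 : ‖u‖ < 1) : r / C ≤ ‖ψ u - x‖ ∧ ‖ψ u - x‖ < r := by
  constructor
  · by_contra hlt
    push Not at hlt
    obtain ⟨u', hu', he⟩ := h.inn (mem_ball_iff_norm.2 hlt)
    have h3 := mem_ball_zero_iff.1 hu'
    have h4 := h.inj (mem_ball_zero_iff.2 (h3.trans hθ)) (mem_ball_zero_iff.2 h2) he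
    rw [h4] at h3
    linarith
  · exact mem_ball_iff_norm.1 (h.out ⟨u, mem_ball_zero_iff.2 h2, rfl⟩)

theorem gd_circ {θ C r : ℝ} {Φ : Set ℂ} {x : ℂ} {ψ : ℂ → ℂ} (h : GD θ C Φ x r ψ) {ρ : ℝ} (h1 : θ < ρ) (h2 : ρ < 1) :
    IsPreconnected (ψ '' sphere 0 ρ) ∧ (∀ w ∈ ψ '' sphere 0 ρ, w ∉ Φ) := by
  have hs : sphere (0 : ℂ) ρ ⊆ ball 0 1 := fun u hu => by
    rw [mem_ball_zero_iff, mem_sphere_zero_iff_norm.1 hu]
    exact h2
  constructor
  · refine (isPreconnected_sphere ?_ (0 : ℂ) ρ).image ψ (h.diff.continuousOn.mono hs)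
    rw [Complex.rank_real_complex]
    norm_num
  · rintro w ⟨u, hu, rfl⟩
    rw [mem_sphere_zero_iff_norm] at hu
    exact h.col u (by rw [hu]; exact h1) (by rw [hu]; exact h2)

theorem gd_fr {θ C r : ℝ} {Φ : Set ℂ} {x : ℂ} {ψ : ℂ → ℂ} (h : GD θ C Φ x r ψ) {ρ : ℝ} (h1 : 0 < ρ) (h2 : ρ < 1) :
    frontier (ψ '' ball 0 ρ) ⊆ ψ '' sphere 0 ρ := by
  have ho : IsOpen (ψ '' ball 0 ρ) := gd_open h isOpen_ball (ball_subset_ball h2.le)
  rw [ho.frontier_eq]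
  rintro w ⟨hw1, hw2⟩
  have hcl : closure (ψ '' ball 0 ρ) ⊆ ψ '' closedBall 0 ρ :=
    closure_minimal (image_mono ball_subset_closedBall) (gd_cl h h2).isClosed
  obtain ⟨u, hu, rfl⟩ := hcl hw1
  refine ⟨u, ?_, rfl⟩
  rw [mem_closedBall_zero_iff] at hu
  rw [mem_sphere_zero_iff_norm]
  refine le_antisymm hu (not_lt.1 fun hlt => hw2 ⟨u, mem_ball_zero_iff.2 hlt, rfl⟩)

theorem gd_pt {θ C r : ℝ} {Φ : Set ℂ} {x : ℂ} {ψ : ℂ → ℂ} (h : GD θ C Φ x r ψ) {ρ : ℝ} (h1 : 0 < ρ) (h2 : ρ < 1) :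
    ∃ u : ℂ, ‖u‖ = ρ ∧ ∀ w ∈ ψ '' ball 0 ρ, w.re < (ψ u).re := by
  have ho : IsOpen (ψ '' ball 0 ρ) := gd_open h isOpen_ball (ball_subset_ball h2.le)
  obtain ⟨u, hu, hmax⟩ := (isCompact_closedBall (0 : ℂ) ρ).exists_isMaxOn
    ⟨0, mem_closedBall_self h1.le⟩ (f := fun v => (ψ v).re)
    (Complex.continuous_re.comp_continuousOn
      (h.diff.continuousOn.mono (closedBall_subset_ball h2)))
  have key : ∀ w ∈ ψ '' ball 0 ρ, w.re < (ψ u).re := by
    intro w hw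
    obtain ⟨ε, hε, hb⟩ := Metric.isOpen_iff.1 ho w hw
    have h3 : w + ((ε / 2 : ℝ) : ℂ) ∈ ball w ε := by
      rw [mem_ball_iff_norm, add_sub_cancel_left, Complex.norm_real,
        Real.norm_of_nonneg (by positivity)]
      linarith
    obtain ⟨v, hv, hv2⟩ := hb h3
    have h4 : (ψ v).re ≤ (ψ u).re := hmax (ball_subset_closedBall hv)
    rw [hv2, Complex.add_re, Complex.ofReal_re] at h4
    linarith
  refine ⟨u, ?_, key⟩
  rw [mem_closedBall_zero_iff] at hu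
  refine le_antisymm hu (not_lt.1 fun hlt => ?_)
  exact lt_irrefl _ (key _ ⟨u, mem_ball_zero_iff.2 hlt, rfl⟩)

/-- distortion along a segment -/
theorem chain {g : ℂ → ℂ} {δ : ℝ} (hδ : 0 < δ) {w w' : ℂ} (N : ℕ) (hN : ‖w - w'‖ ≤ N * (δ / 2))
    (h : ∀ v ∈ segment ℝ w w', DifferentiableOn ℂ g (ball v δ) ∧ InjOn g (ball v δ)) :
    ‖deriv g w‖ ≤ Pool.Agent.H80.AJ.KK ^ N * ‖deriv g w'‖ := by
  rcases Nat.eq_zero_or_pos N with hN0 | hN0
  · rw [hN0, Nat.cast_zero, zero_mul] at hN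
    have h1 : w = w' := sub_eq_zero.1 (norm_le_zero_iff.1 hN)
    rw [hN0, pow_zero, one_mul, h1]
  have hNr : (0 : ℝ) < N := by exact_mod_cast hN0
  obtain ⟨p, hp⟩ : ∃ p : ℕ → ℂ, p = fun i : ℕ => w' + (((i : ℝ) / N : ℝ) : ℂ) * (w - w') :=
    ⟨_, rfl⟩
  have hmem : ∀ i : ℕ, i ≤ N → p i ∈ segment ℝ w w' := by
    intro i hi
    have h1 : (i : ℝ) / N ≤ 1 := by
      rw [div_le_one hNr]
      exact_mod_cast hi
    refine ⟨(i : ℝ) / N, 1 - (i : ℝ) / N, by positivity, by linarith, by ring, ?_⟩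
    rw [hp]
    simp only [Complex.real_smul]
    push_cast
    ring
  have hstep : ∀ i : ℕ, i < N → ‖deriv g (p (i + 1))‖ ≤
      Pool.Agent.H80.AJ.KK * ‖deriv g (p i)‖ := by
    intro i hi
    obtain ⟨hd, hj⟩ := h (p i) (hmem i hi.le)
    refine Pool.Agent.H80.AJ.distort hδ hd hj ?_ (mem_closedBall_self (by positivity))
    have h3 : p (i + 1) - p i = ((1 / N : ℝ) : ℂ) * (w - w') := by
      rw [hp]
      push_cast
      ring
    rw [mem_closedBall_iff_norm, h3, norm_mul, Complex.norm_real,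
      Real.norm_of_nonneg (by positivity), one_div, inv_mul_le_iff₀ hNr]
    exact hN
  have hind : ∀ i : ℕ, i ≤ N → ‖deriv g (p i)‖ ≤
      Pool.Agent.H80.AJ.KK ^ i * ‖deriv g (p 0)‖ := by
    intro i
    induction i with
    | zero => intro _; simp
    | succ i ih =>
      intro h1
      have h2 := hstep i (by omega)
      have h3 := mul_le_mul_of_nonneg_left (ih (by omega)) Pool.Agent.H80.AJ.KK_pos.le
      rw [pow_succ']
      calc ‖deriv g (p (i + 1))‖ ≤ Pool.Agent.H80.AJ.KK * ‖deriv g (p i)‖ := h2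
        _ ≤ _ := h3
        _ = _ := by ring
  have h4 := hind N le_rfl
  have h5 : p N = w := by
    rw [hp]
    simp only
    rw [div_self hNr.ne']
    push_cast
    ring
  have h6 : p 0 = w' := by
    rw [hp]
    simp
  rwa [h5, h6] at h4

/-- definite discs in the collar -/
theorem gd_dist {θ C : ℝ} (hθ : 0 < θ) (hθ1 : θ < 1) (hC : 1 ≤ C) :
    ∃ c : ℝ, 0 < c ∧ ∀ (Φ : Set ℂ) (x : ℂ) (r : ℝ) (ψ : ℂ → ℂ), 0 < r → GD θ C Φ x r ψ → ∀ u : ℂ, ‖u‖ = √θ →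
      ball (ψ u) (c * r) ⊆ ψ '' An θ := by
  have hρ0 : θ < √θ := by
    have h1 : 0 < √θ := Real.sqrt_pos.2 hθ
    have h2 : √θ < 1 := by
      rw [Real.sqrt_lt' one_pos]
      linarith
    have h3 := Real.mul_self_sqrt hθ.le
    nlinarith
  have hρ1 : √θ < 1 := by
    rw [Real.sqrt_lt' one_pos]
    linarith
  obtain ⟨δ, hδd⟩ : ∃ δ : ℝ, δ = min (√θ - θ) (1 - √θ) := ⟨_, rfl⟩
  have hδ0 : 0 < δ := by
    rw [hδd]
    exact lt_min (by linarith) (by linarith)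
  have hδ1 : δ ≤ √θ - θ := hδd ▸ min_le_left _ _
  have hδ2 : δ ≤ 1 - √θ := hδd ▸ min_le_right _ _
  obtain ⟨N, hN⟩ := exists_nat_ge (4 / (1 - √θ))
  have hKN : 0 < Pool.Agent.H80.AJ.KK ^ N := pow_pos Pool.Agent.H80.AJ.KK_pos N
  refine ⟨δ / (32 * C * Pool.Agent.H80.AJ.KK ^ N), by positivity, ?_⟩
  intro Φ x r ψ hr h u hu
  have hballA : ball u δ ⊆ An θ := by
    intro v hv
    rw [mem_ball_iff_norm] at hv
    have h1 := norm_sub_norm_le u v
    have h2 := norm_sub_norm_le v u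
    rw [norm_sub_rev] at h1
    constructor
    · linarith
    · linarith
  have hball1 : ball u δ ⊆ ball (0 : ℂ) 1 := fun v hv => mem_ball_zero_iff.2 (hballA hv).2
  obtain ⟨u0, hu0, hux⟩ := gd_mid h hC hr
  have hu01 : u0 ∈ ball (0 : ℂ) 1 := mem_ball_zero_iff.2 (hu0.trans hθ1)
  have h1 : r / C ≤ 2 * 1 * ‖deriv ψ u0‖ := by
    refine Pool.Agent.H80.AJ.dist_upper one_pos h.diff h.inj hu01 (div_pos hr (by linarith)) ?_
    rw [hux]
    exact h.inn.trans (image_mono (ball_subset_ball hθ1.le))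
  have h2 : ‖deriv ψ u0‖ ≤ Pool.Agent.H80.AJ.KK ^ N * ‖deriv ψ u‖ := by
    refine chain (δ := 1 - √θ) (by linarith) N ?_ ?_
    · have h3 : ‖u0 - u‖ ≤ 2 := by
        refine (norm_sub_le _ _).trans ?_
        linarith
      have h4 : 4 ≤ N * (1 - √θ) := by
        rwa [div_le_iff₀ (by linarith)] at hN
      linarith
    · intro v hv
      have h3 : v ∈ closedBall (0 : ℂ) (√θ) :=
        (convex_closedBall (0 : ℂ) (√θ)).segment_subset
          (mem_closedBall_zero_iff.2 (by linarith)) (mem_closedBall_zero_iff.2 hu.le) hv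
      have h4 : ball v (1 - √θ) ⊆ ball (0 : ℂ) 1 := by
        intro y hy
        rw [mem_ball_iff_norm] at hy
        rw [mem_closedBall_zero_iff] at h3
        rw [mem_ball_zero_iff]
        have h5 := norm_sub_norm_le y v
        linarith
      exact ⟨h.diff.mono h4, h.inj.mono h4⟩
  have h3 := Pool.Agent.H80.AJ.univ_cover hδ0 (h.diff.mono hball1) (h.inj.mono hball1)
  refine (ball_subset_ball ?_).trans (h3.trans (image_mono hballA))
  have hC0 : 0 < C := by linarith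
  rw [div_le_iff₀ hC0] at h1
  have h4 : r ≤ 2 * (Pool.Agent.H80.AJ.KK ^ N * ‖deriv ψ u‖) * C := by
    calc r ≤ 2 * 1 * ‖deriv ψ u0‖ * C := h1
      _ ≤ 2 * (Pool.Agent.H80.AJ.KK ^ N * ‖deriv ψ u‖) * C := by
        rw [mul_one]
        gcongr
  rw [div_mul_eq_mul_div, div_le_div_iff₀ (by positivity) (by norm_num)]
  calc δ * r * 16 ≤ δ * (2 * (Pool.Agent.H80.AJ.KK ^ N * ‖deriv ψ u‖) * C) * 16 := by gcongr
    _ = δ * ‖deriv ψ u‖ * (32 * C * Pool.Agent.H80.AJ.KK ^ N) := by ring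

end Pool.Agent.H65.UB
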