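import Pool.Agent.H65.UB.Gen
import Pool.Agent.H43.UB.GAP
import Pool.Agent.H56.UD.BDefs

/-!
# THEOREM UD: the pure part of the interface `H56/UD/BI.lean`

`Gs` is `Gp` of `BI.lean`. `con_gen`, `ph_gap`, `ph_exp`, `gdl` as there.
-/

set_option autoImplicit false

open Filter Topology Metric Set MeasureTheory

namespace Pool.Agent.H65.UB

open Pool.Agent.H56.UD

variable {𝒰 : Ultrafilter ℕ} {F : ℕ → ℂ → ℂ} {D P : ℕ → Set ℂ} {θ C : ℝ}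

/-- arbitrarily small gap discs at all points of `A` -/
def Gs (A : Set ℂ) : Prop := ∀ x ∈ A, ∀ ε : ℝ, 0 < ε → ∃ (ψ : ℂ → ℂ) (θ : ℝ), 0 < θ ∧ θ < 1 ∧
  DifferentiableOn ℂ ψ (ball 0 1) ∧ InjOn ψ (ball 0 1) ∧ x ∈ ψ '' ball 0 θ ∧ ψ '' ball 0 1 ⊆ ball x ε ∧
  ∀ u : ℂ, θ < ‖u‖ → ‖u‖ < 1 → ψ u ∉ A

theorem img_open {f : ℂ → ℂ} {V : Set ℂ} (hV : IsOpen V) (hd : DifferentiableOn ℂ f V) (hi : InjOn f V) : IsOpen (f '' V) := by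
  rw [isOpen_iff_mem_nhds]
  rintro _ ⟨v, hv, rfl⟩
  have han : AnalyticAt ℂ f v := hd.analyticAt (hV.mem_nhds hv)
  rcases han.eventually_constant_or_nhds_le_map_nhds with h1 | h1
  · exfalso
    have h2 : ∀ᶠ z in 𝓝 v, z = v := by
      filter_upwards [h1, hV.mem_nhds hv] with z hz hzV
      exact hi hzV hv hz
    obtain ⟨ε, hε, h3⟩ := Metric.eventually_nhds_iff.1 h2
    have h4 : v + ((ε / 2 : ℝ) : ℂ) = v := h3 (by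
      rw [dist_eq_norm, add_sub_cancel_left, Complex.norm_real, Real.norm_eq_abs, abs_of_pos (by linarith)]
      linarith)
    have h5 : ((ε / 2 : ℝ) : ℂ) = 0 := by simpa using h4
    rw [Complex.ofReal_eq_zero] at h5
    linarith
  · exact h1 (image_mem_map (hV.mem_nhds hv))

theorem gq_of {A : Set ℂ} (h : Gs A) : GQ A := by
  intro x hx r hr
  obtain ⟨ψ, θ, hθ, hθ1, hd, hi, ⟨u, hu, hux⟩, hout, hcol⟩ := h x hx r hr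
  have ho : IsOpen (ψ '' ball 0 θ) :=
    img_open isOpen_ball (hd.mono (ball_subset_ball hθ1.le)) (hi.mono (ball_subset_ball hθ1.le))
  obtain ⟨δ, hδ, hsub⟩ := Metric.isOpen_iff.1 ho x ⟨u, hu, hux⟩
  refine ⟨θ, max 1 (r / δ), ψ, hθ, hθ1, le_max_left _ _, ⟨hd, hi, ?_, hout, hcol⟩⟩
  refine (ball_subset_ball ?_).trans hsub
  have h1 : 0 < max 1 (r / δ) := lt_of_lt_of_le one_pos (le_max_left _ _)
  rw [div_le_iff₀ h1]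
  calc r = δ * (r / δ) := by field_simp
    _ ≤ δ * max 1 (r / δ) := by gcongr; exact le_max_right _ _

theorem con_gen {A : Set ℂ} (hA : IsClosed A) (hg : Gs A) {W : Set ℂ} (hW : IsOpen W) (hc : IsPreconnected W) :
    IsPreconnected (W \ A) := cong (gq_of hg) hA hW hc

theorem ph_gap (h : LS 𝒰 F D P θ C) : Gs (Ph 𝒰 P) := by
  intro x hx ε hε
  obtain ⟨-, -, ψ, -, -, -, hψ, -⟩ := Pool.Agent.H43.UB.ph_gap h hx hε
  obtain ⟨u, hu, hux⟩ := gd_mid hψ h.C1 hε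
  exact ⟨ψ, θ, h.θ0, h.θ1, hψ.diff, hψ.inj, ⟨u, by rwa [mem_ball_zero_iff], hux⟩, hψ.out, hψ.col⟩

theorem ph_exp (h : LS 𝒰 F D P θ C) : IsClosed {ζ : ℂ | Complex.exp ζ ∈ Ph 𝒰 P} ∧ Gs {ζ : ℂ | Complex.exp ζ ∈ Ph 𝒰 P} := by
  refine ⟨Pool.Agent.H43.UB.ph_closed.preimage Complex.continuous_exp, ?_⟩
  intro ζ0 hζ0 ε hε
  obtain ⟨x, hx⟩ : ∃ x : ℂ, x = Complex.exp ζ0 := ⟨_, rfl⟩
  have hx0 : x ≠ 0 := by rw [hx]; exact Complex.exp_ne_zero _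
  have hxΦ : x ∈ Ph 𝒰 P := by rw [hx]; exact hζ0
  have hnx : 0 < ‖x‖ := norm_pos_iff.2 hx0
  -- the local logarithm
  obtain ⟨ℓ, hℓ⟩ : ∃ ℓ : ℂ → ℂ, ℓ = fun w => ζ0 + Complex.log (w / x) := ⟨_, rfl⟩
  have hslit : ∀ w ∈ ball x ‖x‖, w / x ∈ Complex.slitPlane := by
    intro w hw
    refine Complex.mem_slitPlane_of_norm_lt_one (z := w / x - 1) ?_ |>.elim (fun h => Or.inl ?_) (fun h => Or.inr ?_)
    · rw [div_sub_one hx0, norm_div, div_lt_one hnx]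
      rwa [mem_ball, dist_eq_norm] at hw
    · simpa using h
    · simpa using h
  have hℓx : ℓ x = ζ0 := by rw [hℓ]; simp [div_self hx0]
  have hℓe : ∀ w ∈ ball x ‖x‖, Complex.exp (ℓ w) = w := by
    intro w hw
    have h1 : w / x ≠ 0 := Complex.slitPlane_ne_zero (hslit w hw)
    rw [hℓ]
    show Complex.exp (ζ0 + Complex.log (w / x)) = w
    rw [Complex.exp_add, Complex.exp_log h1, ← hx, mul_div_cancel₀ _ hx0]
  have hℓd : DifferentiableOn ℂ ℓ (ball x ‖x‖) := by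
    intro w hw
    rw [hℓ]
    exact ((((differentiableAt_id).div_const x).clog (hslit w hw)).const_add ζ0).differentiableWithinAt
  have hℓi : InjOn ℓ (ball x ‖x‖) := by
    intro a ha b hb hab
    rw [← hℓe a ha, ← hℓe b hb, hab]
  have hcont : ContinuousAt ℓ x := (hℓd.differentiableAt (isOpen_ball.mem_nhds (mem_ball_self hnx))).continuousAt
  obtain ⟨δ, hδ, hδs⟩ := Metric.continuousAt_iff.1 hcont ε hε
  obtain ⟨ψ, θ', hθ, hθ1, hd, hi, ⟨u, hu, hux⟩, hout, hcol⟩ := ph_gap h x hxΦ (min δ ‖x‖) (lt_min hδ hnx)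
  have hmem : ∀ v ∈ ball (0 : ℂ) 1, ψ v ∈ ball x ‖x‖ ∧ ψ v ∈ ball x δ := by
    intro v hv
    have h1 := hout ⟨v, hv, rfl⟩
    exact ⟨ball_subset_ball (min_le_right _ _) h1, ball_subset_ball (min_le_left _ _) h1⟩
  refine ⟨ℓ ∘ ψ, θ', hθ, hθ1, hℓd.comp hd (fun v hv => (hmem v hv).1),
    hℓi.comp hi (fun v hv => (hmem v hv).1), ⟨u, hu, by rw [Function.comp_apply, hux, hℓx]⟩, ?_, ?_⟩
  · rintro _ ⟨v, hv, rfl⟩
    have h1 := hδs (hmem v hv).2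
    rwa [hℓx] at h1
  · intro v hv1 hv2 hv3
    have h1 : Complex.exp (ℓ (ψ v)) ∈ Ph 𝒰 P := hv3
    rw [hℓe _ (hmem v (by rwa [mem_ball_zero_iff])).1] at h1
    exact hcol v hv1 hv2 h1

/-- limits of gap discs -/
theorem gdl (h : LS 𝒰 F D P θ C) {x : ℕ → ℂ} {x0 : ℂ} {r : ℝ} {ψ : ℕ → ℂ → ℂ} (hr : 0 < r)
    (hx : Tendsto x (𝒰 : Filter ℕ) (𝓝 x0)) (hψ : ∀ᶠ n in (𝒰 : Filter ℕ), GD θ C (P n) (x n) r (ψ n)) :
    ∃ ψ' : ℂ → ℂ, DifferentiableOn ℂ ψ' (ball 0 1) ∧ InjOn ψ' (ball 0 1) ∧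
      TendstoLocallyUniformlyOn ψ ψ' (𝒰 : Filter ℕ) (ball 0 1) ∧
      (∀ ρ : ℝ, θ < ρ → ball x0 (r / C) ⊆ ψ' '' ball 0 ρ) ∧ ψ' '' ball 0 1 ⊆ ball x0 r ∧
      ∀ u : ℂ, θ < ‖u‖ → ‖u‖ < 1 → ψ' u ∉ Ph 𝒰 P := by
  obtain ⟨ψ0, hψ0, ht⟩ := Pool.Agent.H43.UB.gap_lim h.θ0 h.θ1 h.C1 h.Pc (fun n => ⟨0, h.P0 n⟩) hr hx hψ
  exact ⟨ψ0, hψ0.diff, hψ0.inj, ht, fun ρ hρ => hψ0.inn.trans (image_mono (ball_subset_ball hρ.le)), hψ0.out, hψ0.col⟩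

end Pool.Agent.H65.UB
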