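import Pool.Agent.H56.UD.Defs

/-!
# Limit frames (THEOREM UD, chapter B, pure half): definitions

`GP`: gap discs at all points and all scales. `Dk`: deck transformations (real affine maps). `LF`: limit frames.
The target (Fin.lean): in a limit frame the map `F` is the exponential: `F s = exp ((s - c) / κ)` on
`S = {s | exp ((s - c) / κ) ∉ Φ}`.
-/

set_option autoImplicit false

open Filter Topology Metric Set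

namespace Pool.Agent.H65.UB

open Pool.Agent.H56.UD

/-- gap discs at all points of `Φ` and all scales -/
def GP (θ C : ℝ) (Φ : Set ℂ) : Prop := ∀ x ∈ Φ, ∀ r : ℝ, 0 < r → ∃ ψ : ℂ → ℂ, GD θ C Φ x r ψ

/-- `u ↦ t u + c` is a deck transformation -/
def Dk (F : ℂ → ℂ) (S : Set ℂ) (t : ℝ) (c : ℂ) : Prop :=
  t ≠ 0 ∧ ∀ u ∈ S, (t : ℂ) * u + c ∈ S ∧ F ((t : ℂ) * u + c) = F u

/-- the annulus of the collar -/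
def An (θ : ℝ) : Set ℂ := {u | θ < ‖u‖ ∧ ‖u‖ < 1}

/-- limit frames -/
structure LF (F : ℂ → ℂ) (S Φ : Set ℂ) (θ C : ℝ) : Prop where
  θ0 : 0 < θ
  θ1 : θ < 1
  C1 : 1 ≤ C
  Pc : IsClosed Φ
  P0 : (0 : ℂ) ∈ Φ
  So : IsOpen S
  Sc : IsConnected S
  Fd : DifferentiableOn ℂ F S
  Fv : ∀ s ∈ S, F s ∉ Φ
  onto : ∀ w : ℂ, w ∉ Φ → ∃ s ∈ S, F s = w
  br : ∀ s ∈ S, ∀ ρ : ℝ, 0 < ρ → (∀ u ∈ ball (F s) ρ, u ∉ Φ) →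
    ∃ g : ℂ → ℂ, DifferentiableOn ℂ g (ball (F s) ρ) ∧ g (F s) = s ∧ ∀ u ∈ ball (F s) ρ, g u ∈ S ∧ F (g u) = u
  deck : ∀ s ∈ S, ∀ s' ∈ S, F s = F s' → ∃ (t : ℝ) (c : ℂ), Dk F S t c ∧ s' = (t : ℂ) * s + c
  gap : ∀ x ∈ Φ, ∀ r : ℝ, 0 < r → ∃ ψ : ℂ → ℂ, GD θ C Φ x r ψ ∧ ∀ q : ℂ → ℂ, Lf F S θ ψ q → Cls θ 1 q →
    ∃ φ : ℂ → ℂ, DifferentiableOn ℂ φ (ball 0 1) ∧ InjOn φ (ball 0 1) ∧ (∀ ζ ∈ Qc θ, φ (Complex.exp ζ) = q ζ) ∧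
      ∀ u ∈ ball (0 : ℂ) 1, ψ u ∉ Φ → φ u ∈ S ∧ F (φ u) = ψ u
  ord : ∀ r : ℝ, 0 < r → ∃ ψ q : ℂ → ℂ, GD θ C Φ 0 r ψ ∧ Lf F S θ ψ q ∧ ¬ Cls θ 2 q

theorem LF.gp {F : ℂ → ℂ} {S Φ : Set ℂ} {θ C : ℝ} (h : LF F S Φ θ C) : GP θ C Φ := fun x hx r hr => by
  obtain ⟨ψ, hψ, -⟩ := h.gap x hx r hr
  exact ⟨ψ, hψ⟩

end Pool.Agent.H65.UB
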