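import Pool.Agent.H65.UB.Tri

/-!
# Limit frames: the derivative `D` of the inverse branches extends to `ℂ \ {0}`

`c0`, `E` as in `ends`. `dd`: `D w = c0 / (2 π i) * (deriv E w / E w)` on the open set `Φᶜ` (`E w ≠ 0` there: `w = F s`). Differentiate
`E (F s) = exp (2 π i s / c0)`: `D (F s) * deriv F s = 1`. `sep` for `(1, c0)`: `ρ ≤ 16 ‖deriv F s‖ ‖c0‖`, so `ρ ‖D w‖ ≤ 16 ‖c0‖`, `w = F s`.
`dx`: `x ∈ Φ`, `x ≠ 0`: `ψ` of `LF.gap` at `(x, ‖x‖ / 2)`; a lift `q` of its collar: `lft` on the open convex set `Qc θ`, `H ζ = ψ (exp ζ)`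
(not in `Φ`, by `GD.col`), base point `zt θ`, `onto`; `tri`: `Cls θ 1 q`; so `φ` of `LF.gap`. `V = ψ '' ball 0 1` (open, `gd_open`; `x ∈ V` by `gd_mid`),
`k = φ ∘ ψ⁻¹` is holomorphic on `V` (inverse of an injective holomorphic function: `Pool.Agent.H32.BT.diff_of_inverse`, or the inverse function theorem
with `deriv ψ ≠ 0`), `k w ∈ S`, `F (k w) = w` for `w ∈ V \ Φ` (open): `deriv F (k w) * deriv k w = 1`, so `D w = D (F (k w)) = deriv k w`. `kd = deriv k`.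
`dh`: `Φ` has empty interior (`dns`), so `Φᶜ` is dense; `Dh = extendFrom Φᶜ D`: at `w ≠ 0` there are an open `V ∋ w` (a ball in `Φᶜ`, or `dx`) and `kd` holomorphic
on `V`, equal to `D` on `V \ Φ`; for all `v ∈ V`, `extendFrom Φᶜ D v = kd v` (`extendFrom_eq`: `v ∈ closure Φᶜ`, `D → kd v` within `Φᶜ`).
-/

set_option autoImplicit false

open Filter Topology Metric Set

namespace Pool.Agent.H65.UB

open Pool.Agent.H56.UD

theorem dd {F : ℂ → ℂ} {S Φ : Set ℂ} {θ C : ℝ} (h : LF F S Φ θ C) :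
    ∃ (B : ℝ) (D : ℂ → ℂ), DifferentiableOn ℂ D Φᶜ ∧ (∀ s ∈ S, D (F s) * deriv F s = 1) ∧
      (∀ t c, Dk F S t c → t = 1) ∧
      ∀ (w : ℂ) (ρ : ℝ), 0 < ρ → (∀ u ∈ ball w ρ, u ∉ Φ) → ρ * ‖D w‖ ≤ B := by
  obtain ⟨c0, E, hc0, hdk, htr, hEd, -, hEF, -⟩ := ends h
  have hΦo : IsOpen Φᶜ := h.Pc.isOpen_compl
  have hpi : (2 * Real.pi * Complex.I : ℂ) ≠ 0 := Complex.two_pi_I_ne_zero
  have hE0 : ∀ w ∈ Φᶜ, E w ≠ 0 := by
    intro w hw
    obtain ⟨s, hs, rfl⟩ := h.onto w hw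
    rw [hEF s hs]
    exact Complex.exp_ne_zero _
  obtain ⟨D, hD⟩ : ∃ D : ℂ → ℂ, ∀ w, D w = c0 / (2 * Real.pi * Complex.I) * (deriv E w / E w) :=
    ⟨_, fun _ => rfl⟩
  have hDF : ∀ s ∈ S, D (F s) * deriv F s = 1 := by
    intro s hs
    have hFs : F s ∈ Φᶜ := h.Fv s hs
    have h1 : HasDerivAt F (deriv F s) s :=
      (h.Fd.differentiableAt (h.So.mem_nhds hs)).hasDerivAt
    have h2 : HasDerivAt E (deriv E (F s)) (F s) :=
      (hEd.differentiableAt (hΦo.mem_nhds hFs)).hasDerivAt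
    have h3 : HasDerivAt (E ∘ F) (deriv E (F s) * deriv F s) s := h2.comp s h1
    have h4 : HasDerivAt (fun s : ℂ => Complex.exp (2 * Real.pi * Complex.I * s / c0))
        (Complex.exp (2 * Real.pi * Complex.I * s / c0) * (2 * Real.pi * Complex.I / c0)) s := by
      have h5 : HasDerivAt (fun s : ℂ => 2 * Real.pi * Complex.I * s / c0)
          (2 * Real.pi * Complex.I / c0) s := by
        have h6 := ((hasDerivAt_id s).const_mul (2 * Real.pi * Complex.I : ℂ)).div_const c0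
        rw [mul_one] at h6
        exact h6
      exact h5.cexp
    have h5 : HasDerivAt (E ∘ F)
        (Complex.exp (2 * Real.pi * Complex.I * s / c0) * (2 * Real.pi * Complex.I / c0)) s := by
      refine h4.congr_of_eventuallyEq ?_
      filter_upwards [h.So.mem_nhds hs] with u hu
      exact hEF u hu
    have h6 := h3.unique h5
    rw [← hEF s hs] at h6
    have h7 := hE0 _ hFs
    rw [hD]
    have h8 : c0 / (2 * Real.pi * Complex.I) * (deriv E (F s) / E (F s)) * deriv F s =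
        c0 / (2 * Real.pi * Complex.I) * ((deriv E (F s) * deriv F s) / E (F s)) := by ring
    rw [h8, h6]
    field_simp
  refine ⟨16 * ‖c0‖, D, ?_, hDF, fun t c hd => (htr t c hd).1, ?_⟩
  · have h1 : DifferentiableOn ℂ (fun w => c0 / (2 * Real.pi * Complex.I) * (deriv E w / E w)) Φᶜ :=
      (((hEd.deriv hΦo).div hEd hE0).const_mul _)
    exact h1.congr fun w _ => hD w
  · intro w ρ hρ hb
    obtain ⟨s, hs, rfl⟩ := h.onto w (hb w (mem_ball_self hρ))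
    have h1 := sep h hdk (fun h2 => hc0 h2.2) hs hρ hb
    have h2 : ((1 : ℝ) : ℂ) * s + c0 - s = c0 := by
      push_cast
      ring
    rw [h2] at h1
    have h3 : ‖D (F s)‖ * ‖deriv F s‖ = 1 := by rw [← norm_mul, hDF s hs, norm_one]
    calc ρ * ‖D (F s)‖ ≤ 16 * ‖deriv F s‖ * ‖c0‖ * ‖D (F s)‖ :=
          mul_le_mul_of_nonneg_right h1 (norm_nonneg _)
      _ = 16 * ‖c0‖ * (‖D (F s)‖ * ‖deriv F s‖) := by ring
      _ = 16 * ‖c0‖ := by rw [h3, mul_one]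

private theorem dx_inv {θ C r : ℝ} {Φ : Set ℂ} {x : ℂ} {ψ : ℂ → ℂ} (h : GD θ C Φ x r ψ) :
    ∃ k : ℂ → ℂ, DifferentiableOn ℂ k (ψ '' ball 0 1) ∧ ∀ u ∈ ball (0 : ℂ) 1, k (ψ u) = u := by
  have hV : IsOpen (ψ '' ball 0 1) := gd_open h isOpen_ball subset_rfl
  have hk : ∀ u ∈ ball (0 : ℂ) 1, Function.invFunOn ψ (ball 0 1) (ψ u) = u := fun u hu =>
    h.inj.leftInvOn_invFunOn hu
  refine ⟨Function.invFunOn ψ (ball 0 1), ?_, hk⟩
  have hc : ContinuousOn (Function.invFunOn ψ (ball 0 1)) (ψ '' ball 0 1) := by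
    rw [continuousOn_open_iff hV]
    intro t ht
    have h1 : ψ '' ball 0 1 ∩ Function.invFunOn ψ (ball 0 1) ⁻¹' t = ψ '' (ball 0 1 ∩ t) := by
      ext w
      constructor
      · rintro ⟨⟨u, hu, rfl⟩, h2⟩
        refine ⟨u, ⟨hu, ?_⟩, rfl⟩
        rw [mem_preimage, hk u hu] at h2
        exact h2
      · rintro ⟨u, ⟨hu, h2⟩, rfl⟩
        refine ⟨⟨u, hu, rfl⟩, ?_⟩
        rw [mem_preimage, hk u hu]
        exact h2
    rw [h1]
    exact gd_open h (isOpen_ball.inter ht) inter_subset_left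
  rintro _ ⟨u, hu, rfl⟩
  refine (Pool.Agent.H32.BT.diff_of_inverse (hV.mem_nhds ⟨u, hu, rfl⟩) hc isOpen_ball
    (by rw [hk u hu]; exact hu) h.diff ?_).differentiableWithinAt
  rintro _ ⟨v, hv, rfl⟩ _
  rw [hk v hv]

theorem dx {F : ℂ → ℂ} {S Φ : Set ℂ} {θ C : ℝ} (h : LF F S Φ θ C) {D : ℂ → ℂ} (hD : ∀ s ∈ S, D (F s) * deriv F s = 1)
    {x : ℂ} (hx : x ∈ Φ) (hx0 : x ≠ 0) :
    ∃ (V : Set ℂ) (kd : ℂ → ℂ), IsOpen V ∧ x ∈ V ∧ DifferentiableOn ℂ kd V ∧ ∀ w ∈ V, w ∉ Φ → D w = kd w := by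
  have hr : 0 < ‖x‖ / 2 := half_pos (norm_pos_iff.2 hx0)
  have hlog : Real.log θ < 0 := Real.log_neg h.θ0 h.θ1
  have hpi := Real.pi_pos
  obtain ⟨ψ, hψ, hgap⟩ := h.gap x hx (‖x‖ / 2) hr
  -- the lift of the collar
  have hQe : Qc θ = {ζ : ℂ | Real.log θ < ζ.re} ∩ ({ζ : ℂ | ζ.re < 0} ∩
      ({ζ : ℂ | -(6 * Real.pi) < ζ.im} ∩ {ζ : ℂ | ζ.im < 6 * Real.pi})) := by
    ext ζ
    simp only [Qc, Qr, mem_inter_iff, mem_ofPred_eq, abs_lt]
  have hQc : Convex ℝ (Qc θ) := by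
    rw [hQe]
    exact (convex_halfSpace_re_gt _).inter ((convex_halfSpace_re_lt _).inter
      ((convex_halfSpace_im_gt _).inter (convex_halfSpace_im_lt _)))
  have hQo : IsOpen (Qc θ) := by
    rw [hQe]
    exact (isOpen_lt continuous_const Complex.continuous_re).inter
      ((isOpen_lt Complex.continuous_re continuous_const).inter
        ((isOpen_lt continuous_const Complex.continuous_im).inter
          (isOpen_lt Complex.continuous_im continuous_const)))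
  have hζ0 : ((Real.log θ / 2 : ℝ) : ℂ) ∈ Qc θ := by
    refine ⟨?_, ?_, ?_⟩
    · rw [Complex.ofReal_re]
      linarith
    · rw [Complex.ofReal_re]
      linarith
    · rw [Complex.ofReal_im, abs_zero]
      linarith
  have hexp : ∀ ζ ∈ Qc θ, θ < ‖Complex.exp ζ‖ ∧ ‖Complex.exp ζ‖ < 1 := by
    intro ζ hζ
    rw [Complex.norm_exp]
    refine ⟨?_, ?_⟩
    · rw [← Real.log_lt_iff_lt_exp h.θ0]
      exact hζ.1
    · rw [Real.exp_lt_one_iff]
      exact hζ.2.1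
  have hH : DifferentiableOn ℂ (fun ζ => ψ (Complex.exp ζ)) (Qc θ) := by
    refine hψ.diff.comp Complex.differentiable_exp.differentiableOn ?_
    intro ζ hζ
    rw [mem_ball_zero_iff]
    exact (hexp ζ hζ).2
  have hn : ∀ ζ ∈ Qc θ, ψ (Complex.exp ζ) ∉ Φ := fun ζ hζ => hψ.col _ (hexp ζ hζ).1 (hexp ζ hζ).2
  obtain ⟨s, hs, hsF⟩ := h.onto _ (hn _ hζ0)
  obtain ⟨q, hq1, -, hq2⟩ := lft h hQo hQc hH hn hζ0 hs hsF
  have hLf : Lf F S θ ψ q := ⟨hq1, hq2⟩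
  obtain ⟨φ, hφ, -, -, hφ2⟩ := hgap q hLf (tri h hx0 hr le_rfl hψ hLf)
  obtain ⟨k0, hk0, hk0u⟩ := dx_inv hψ
  have hV : IsOpen (ψ '' ball 0 1) := gd_open hψ isOpen_ball subset_rfl
  have hk : DifferentiableOn ℂ (φ ∘ k0) (ψ '' ball 0 1) := by
    refine hφ.comp hk0 ?_
    rintro _ ⟨u, hu, rfl⟩
    rw [hk0u u hu]
    exact hu
  obtain ⟨u, hu, hux⟩ := gd_mid hψ h.C1 hr
  refine ⟨ψ '' ball 0 1, deriv (φ ∘ k0), hV, ⟨u, by rw [mem_ball_zero_iff]; linarith [h.θ1], hux⟩,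
    hk.deriv hV, ?_⟩
  intro w hw hwΦ
  have hkS : ∀ v ∈ ψ '' ball 0 1, v ∉ Φ → (φ ∘ k0) v ∈ S ∧ F ((φ ∘ k0) v) = v := by
    rintro _ ⟨u, hu, rfl⟩ hv
    have h1 := hφ2 u hu hv
    show φ (k0 (ψ u)) ∈ S ∧ F (φ (k0 (ψ u))) = ψ u
    rw [hk0u u hu]
    exact h1
  obtain ⟨h1, h2⟩ := hkS w hw hwΦ
  have h3 : HasDerivAt (φ ∘ k0) (deriv (φ ∘ k0) w) w :=
    (hk.differentiableAt (hV.mem_nhds hw)).hasDerivAt
  have h4 : HasDerivAt F (deriv F ((φ ∘ k0) w)) ((φ ∘ k0) w) :=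
    (h.Fd.differentiableAt (h.So.mem_nhds h1)).hasDerivAt
  have h5 : HasDerivAt (F ∘ (φ ∘ k0)) (deriv F ((φ ∘ k0) w) * deriv (φ ∘ k0) w) w :=
    HasDerivAt.comp w h4 h3
  have h6 : HasDerivAt (F ∘ (φ ∘ k0)) 1 w := by
    refine (hasDerivAt_id w).congr_of_eventuallyEq ?_
    filter_upwards [hV.mem_nhds hw, h.Pc.isOpen_compl.mem_nhds hwΦ] with v hv hv'
    exact (hkS v hv hv').2
  have h7 := h5.unique h6
  have h8 := hD _ h1
  rw [h2] at h8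
  calc D w = D w * (deriv F ((φ ∘ k0) w) * deriv (φ ∘ k0) w) := by rw [h7, mul_one]
    _ = (D w * deriv F ((φ ∘ k0) w)) * deriv (φ ∘ k0) w := by ring
    _ = deriv (φ ∘ k0) w := by rw [h8, one_mul]

theorem dh {F : ℂ → ℂ} {S Φ : Set ℂ} {θ C : ℝ} (h : LF F S Φ θ C) {D : ℂ → ℂ} (hd : DifferentiableOn ℂ D Φᶜ)
    (hD : ∀ s ∈ S, D (F s) * deriv F s = 1) :
    ∃ Dh : ℂ → ℂ, DifferentiableOn ℂ Dh {0}ᶜ ∧ ∀ w : ℂ, w ∉ Φ → Dh w = D w := by
  have hdns : ∀ v : ℂ, v ∈ closure Φᶜ := by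
    intro v
    rw [closure_compl, dns h.θ0 h.θ1 h.gp, compl_empty]
    exact mem_univ v
  have key : ∀ (V : Set ℂ) (kd : ℂ → ℂ), IsOpen V → DifferentiableOn ℂ kd V →
      (∀ w ∈ V, w ∉ Φ → D w = kd w) → ∀ v ∈ V, extendFrom Φᶜ D v = kd v := by
    intro V kd hV hkd hDk v hv
    refine extendFrom_eq (hdns v) ?_
    have h1 : Tendsto kd (𝓝[Φᶜ] v) (𝓝 (kd v)) :=
      (hkd.differentiableAt (hV.mem_nhds hv)).continuousAt.tendsto.mono_left nhdsWithin_le_nhds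
    refine h1.congr' ?_
    filter_upwards [self_mem_nhdsWithin, mem_nhdsWithin_of_mem_nhds (hV.mem_nhds hv)] with w h2 h3
    exact (hDk w h3 h2).symm
  refine ⟨extendFrom Φᶜ D, ?_, ?_⟩
  · intro w hw
    have hw0 : w ≠ 0 := hw
    by_cases hwΦ : w ∈ Φ
    · obtain ⟨V, kd, hV, hwV, hkd, hDk⟩ := dx h hD hwΦ hw0
      refine (DifferentiableAt.congr_of_eventuallyEq (hkd.differentiableAt (hV.mem_nhds hwV)) ?_).differentiableWithinAt
      filter_upwards [hV.mem_nhds hwV] with v hv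
      exact key V kd hV hkd hDk v hv
    · have hV : IsOpen Φᶜ := h.Pc.isOpen_compl
      refine (DifferentiableAt.congr_of_eventuallyEq (hd.differentiableAt (hV.mem_nhds hwΦ)) ?_).differentiableWithinAt
      filter_upwards [hV.mem_nhds hwΦ] with v hv
      exact key Φᶜ D hV hd (fun _ _ _ => rfl) v hv
  · intro w hw
    exact key Φᶜ D h.Pc.isOpen_compl hd (fun _ _ _ => rfl) w hw

end Pool.Agent.H65.UB
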