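import Pool.Agent.H65.UB.Trn

/-!
# Limit frames: the univalent function `E` in the complement of `Φ`

`ee`: choose `σ w ∈ S` with `F (σ w) = w` for `w ∉ Φ` (`onto`), `E w = e (σ w)`. `E (F s) = e s` by `h1`. Near `w0 ∉ Φ`: the branch `g` of `br` at
`s0 = σ w0` on a small disc: `E w = E (F (g w)) = e (g w)`, holomorphic. Injective: `h2`.
`gen`: `c` with `Dk F S t c`, `t = 1` or `t = -1` (`noscale`). `eN`: no reflections: `e s = exp (2 π i s / c0)`. `h1`: `deck` gives `s' = t s + c`, `t = 1`,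
`c = n c0`. `h2`: `2 π i s' / c0 = 2 π i s / c0 + 2 π i n` (`Complex.exp_eq_exp_iff_exists_int`), `s' = s + n c0`, `F s' = F s` by `dk_zmul`.
`eR`: a reflection `(-1, p)`: `e s = cos (2 π (s - p / 2) / c0)`. `h1`: `s' = s + n c0`, or `s' = - s + c`; then the product of the two reflections
`(-1, c)`, `(-1, p)` is the translation by `c - p` (`dk_mul`), so `c = p + n c0` and `s' - p / 2 = -(s - p / 2) + n c0`.
`h2`: `Complex.cos_eq_cos_iff`: `s' - p / 2 = ± (s - p / 2) + n c0`, so `s' = s + n c0` or `s' = - s + p + n c0`, both are deck transforms of `s`.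
Growth: `‖cos z‖ ≥ |z.im|` (`‖cos (x + i y)‖ ^ 2 = cos x ^ 2 + sinh y ^ 2`) and `(s - p/2)/c0` has imaginary part `(s / c0).im - (p / (2 c0)).im`:
so `‖E (F s)‖ ≥ 2 π |(s / c0).im| - B` for a constant `B`.
-/

set_option autoImplicit false

open Filter Topology Metric Set

namespace Pool.Agent.H65.UB

open Pool.Agent.H56.UD

theorem ee {F : ℂ → ℂ} {S Φ : Set ℂ} {θ C : ℝ} (h : LF F S Φ θ C) {e : ℂ → ℂ} (he : Differentiable ℂ e)
    (h1 : ∀ s ∈ S, ∀ s' ∈ S, F s = F s' → e s = e s') (h2 : ∀ s ∈ S, ∀ s' ∈ S, e s = e s' → F s = F s') :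
    ∃ E : ℂ → ℂ, DifferentiableOn ℂ E Φᶜ ∧ InjOn E Φᶜ ∧ ∀ s ∈ S, E (F s) = e s := by
  classical
  obtain ⟨σ, hσ⟩ : ∃ σ : ℂ → ℂ, ∀ w, w ∉ Φ → σ w ∈ S ∧ F (σ w) = w := by
    refine ⟨fun w => if hw : w ∉ Φ then (h.onto w hw).choose else 0, fun w hw => ?_⟩
    beta_reduce
    rw [dif_pos hw]
    exact (h.onto w hw).choose_spec
  have hE : ∀ s ∈ S, e (σ (F s)) = e s := by
    intro s hs
    obtain ⟨a1, a2⟩ := hσ (F s) (h.Fv s hs)
    exact h1 _ a1 s hs a2
  refine ⟨fun w => e (σ w), ?_, ?_, hE⟩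
  · intro w hw
    obtain ⟨a1, a2⟩ := hσ w hw
    obtain ⟨ρ, hρ, hb⟩ := Metric.isOpen_iff.1 h.Pc.isOpen_compl w hw
    obtain ⟨g, hg1, hg2, hg3⟩ := h.br (σ w) a1 ρ hρ (by
      rw [a2]
      exact fun u hu => hb hu)
    rw [a2] at hg1 hg2 hg3
    have hw0 : w ∈ ball w ρ := mem_ball_self hρ
    have hgd : DifferentiableAt ℂ g w := hg1.differentiableAt (isOpen_ball.mem_nhds hw0)
    have hd : DifferentiableAt ℂ (fun u => e (g u)) w := (he (g w)).comp w hgd
    refine (hd.congr_of_eventuallyEq ?_).differentiableWithinAt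
    filter_upwards [isOpen_ball.mem_nhds hw0] with u hu
    have h3 := hE (g u) (hg3 u hu).1
    rw [(hg3 u hu).2] at h3
    exact h3
  · intro w hw w' hw' hww
    obtain ⟨a1, a2⟩ := hσ w hw
    obtain ⟨b1, b2⟩ := hσ w' hw'
    have h3 := h2 _ a1 _ b1 hww
    rw [a2, b2] at h3
    exact h3

private theorem ee_cases {F : ℂ → ℂ} {S Φ : Set ℂ} {θ C : ℝ} (h : LF F S Φ θ C) {s s' : ℂ} (hs : s ∈ S)
    (hs' : s' ∈ S) (hF : F s = F s') : (∃ c, Dk F S 1 c ∧ s' = s + c) ∨ ∃ c, Dk F S (-1) c ∧ s' = -s + c := by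
  obtain ⟨t, c, hd, he⟩ := h.deck s hs s' hs' hF
  have h1 := noscale h hd
  rcases eq_or_eq_neg_of_abs_eq h1 with rfl | rfl
  · left
    refine ⟨c, hd, ?_⟩
    rw [he, Complex.ofReal_one, one_mul]
  · right
    refine ⟨c, hd, ?_⟩
    rw [he]
    push_cast
    ring

theorem eN {F : ℂ → ℂ} {S Φ : Set ℂ} {θ C : ℝ} (h : LF F S Φ θ C) {c0 : ℂ} (h0 : c0 ≠ 0) (hd : Dk F S 1 c0)
    (hall : ∀ c, Dk F S 1 c → ∃ n : ℤ, c = n * c0) (hno : ∀ c, ¬ Dk F S (-1) c) :
    ∃ E : ℂ → ℂ, DifferentiableOn ℂ E Φᶜ ∧ InjOn E Φᶜ ∧ ∀ s ∈ S, E (F s) = Complex.exp (2 * Real.pi * Complex.I * s / c0) := by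
  have hpi : (Real.pi : ℂ) ≠ 0 := by exact_mod_cast Real.pi_ne_zero
  refine ee h (by fun_prop) ?_ ?_
  · intro s hs s' hs' hF
    rcases ee_cases h hs hs' hF with ⟨c, hc, he⟩ | ⟨c, hc, he⟩
    · obtain ⟨n, hn⟩ := hall c hc
      rw [eq_comm, Complex.exp_eq_exp_iff_exists_int]
      refine ⟨n, ?_⟩
      rw [he, hn]
      field_simp
    · exact absurd hc (hno c)
  · intro s hs s' hs' he
    rw [Complex.exp_eq_exp_iff_exists_int] at he
    obtain ⟨n, hn⟩ := he
    have h3 : s = s' + n * c0 := by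
      have h4 : 2 * Real.pi * Complex.I * s = 2 * Real.pi * Complex.I * (s' + n * c0) := by
        field_simp at hn
        linear_combination (2 * (Real.pi : ℂ) * Complex.I) * hn
      have h5 : (2 * Real.pi * Complex.I : ℂ) ≠ 0 := Complex.two_pi_I_ne_zero
      exact mul_left_cancel₀ h5 h4
    have h4 := ((dk_zmul h hd n).2 s' hs').2
    rw [Complex.ofReal_one, one_mul, ← h3] at h4
    exact h4

private theorem ee_cos (z : ℂ) : |z.im| ≤ ‖Complex.cos z‖ := by
  have h1 : ‖Complex.exp (z * Complex.I)‖ = Real.exp (-z.im) := by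
    rw [Complex.norm_exp]
    simp
  have h2 : ‖Complex.exp (-z * Complex.I)‖ = Real.exp z.im := by
    rw [Complex.norm_exp]
    simp
  have h3 : |Real.exp z.im - Real.exp (-z.im)| ≤ ‖Complex.exp (z * Complex.I) + Complex.exp (-z * Complex.I)‖ := by
    have h4 := abs_norm_sub_norm_le (Complex.exp (-z * Complex.I)) (-Complex.exp (z * Complex.I))
    rw [norm_neg, h1, h2, sub_neg_eq_add, add_comm (Complex.exp (-z * Complex.I))] at h4
    exact h4
  have h5 : ‖Complex.cos z‖ = ‖Complex.exp (z * Complex.I) + Complex.exp (-z * Complex.I)‖ / 2 := by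
    rw [Complex.cos, norm_div]
    simp
  have h6 : |z.im| ≤ |Real.sinh z.im| := by
    rw [Real.abs_sinh]
    exact Real.self_le_sinh_iff.2 (abs_nonneg _)
  have h7 : |Real.sinh z.im| = |Real.exp z.im - Real.exp (-z.im)| / 2 := by
    rw [Real.sinh_eq, abs_div, abs_of_pos (by norm_num : (0 : ℝ) < 2)]
  rw [h5]
  linarith

theorem eR {F : ℂ → ℂ} {S Φ : Set ℂ} {θ C : ℝ} (h : LF F S Φ θ C) {c0 p : ℂ} (h0 : c0 ≠ 0) (hd : Dk F S 1 c0)
    (hall : ∀ c, Dk F S 1 c → ∃ n : ℤ, c = n * c0) (hp : Dk F S (-1) p) :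
    ∃ (E : ℂ → ℂ) (B : ℝ), DifferentiableOn ℂ E Φᶜ ∧ InjOn E Φᶜ ∧ ∀ s ∈ S, 2 * Real.pi * |(s / c0).im| - B ≤ ‖E (F s)‖ := by
  have hpi : (Real.pi : ℂ) ≠ 0 := by exact_mod_cast Real.pi_ne_zero
  obtain ⟨E, hE1, hE2, hE3⟩ := ee h (e := fun s => Complex.cos (2 * Real.pi * (s - p / 2) / c0)) (by fun_prop)
    (by
      intro s hs s' hs' hF
      beta_reduce
      rw [Complex.cos_eq_cos_iff]
      rcases ee_cases h hs hs' hF with ⟨c, hc, he⟩ | ⟨c, hc, he⟩
      · obtain ⟨n, hn⟩ := hall c hc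
        refine ⟨n, Or.inl ?_⟩
        rw [he, hn]
        field_simp
        ring
      · have h3 := dk_mul hc hp
        have h4 : ((-1 : ℝ) * (-1 : ℝ)) = 1 := by norm_num
        rw [h4] at h3
        obtain ⟨n, hn⟩ := hall _ h3
        refine ⟨n, Or.inr ?_⟩
        have h5 : c = n * c0 + p := by
          rw [← hn]
          push_cast
          ring
        rw [he, h5]
        field_simp
        ring)
    (by
      intro s hs s' hs' he
      beta_reduce at he
      rw [Complex.cos_eq_cos_iff] at he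
      obtain ⟨k, hk⟩ := he
      have h5 : (2 * Real.pi : ℂ) ≠ 0 := mul_ne_zero two_ne_zero hpi
      rcases hk with hk | hk
      · have h3 : s' = s + k * c0 := by
          have h4 : 2 * Real.pi * (s' - p / 2) = 2 * Real.pi * (s + k * c0 - p / 2) := by
            rw [div_eq_iff h0] at hk
            rw [hk]
            field_simp
            ring
          have h6 := mul_left_cancel₀ h5 h4
          linear_combination h6
        have h4 := ((dk_zmul h hd k).2 s hs).2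
        rw [Complex.ofReal_one, one_mul, ← h3] at h4
        exact h4.symm
      · have h3 : s' = -s + (p + k * c0) := by
          have h4 : 2 * Real.pi * (s' - p / 2) = 2 * Real.pi * (-s + (p + k * c0) - p / 2) := by
            rw [div_eq_iff h0] at hk
            rw [hk]
            field_simp
            ring
          have h6 := mul_left_cancel₀ h5 h4
          linear_combination h6
        have h4 := ((dk_mul (dk_zmul h hd k) hp).2 s hs).2
        have h6 : (((1 : ℝ) * (-1 : ℝ) : ℝ) : ℂ) * s + (((1 : ℝ) : ℂ) * p + k * c0) = s' := by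
          rw [h3]
          push_cast
          ring
        rw [h6] at h4
        exact h4.symm)
  refine ⟨E, 2 * Real.pi * |(p / 2 / c0).im|, hE1, hE2, fun s hs => ?_⟩
  rw [hE3 s hs]
  refine le_trans ?_ (ee_cos _)
  have h3 : (2 * Real.pi * (s - p / 2) / c0 : ℂ) = ((2 * Real.pi : ℝ) : ℂ) * (s / c0 - p / 2 / c0) := by
    push_cast
    ring
  rw [h3, Complex.im_ofReal_mul, abs_mul, abs_of_pos (by positivity : (0 : ℝ) < 2 * Real.pi), Complex.sub_im, ← mul_sub]
  refine mul_le_mul_of_nonneg_left ?_ (by positivity)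
  exact abs_sub_abs_le_abs_sub _ _

end Pool.Agent.H65.UB
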