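import Pool.Agent.H65.UB.Cnn

/-!
# CON for sets with arbitrarily small gap discs (constants may depend on the disc)

The same proofs as in `Cnn.lean`.
-/

set_option autoImplicit false

open Filter Topology Metric Set

namespace Pool.Agent.H65.UB

open Pool.Agent.H56.UD

/-- arbitrarily small gap discs at all points -/
def GQ (Φ : Set ℂ) : Prop := ∀ x ∈ Φ, ∀ r : ℝ, 0 < r → ∃ (θ C : ℝ) (ψ : ℂ → ℂ), 0 < θ ∧ θ < 1 ∧ 1 ≤ C ∧ GD θ C Φ x r ψ

theorem dnsg {Φ : Set ℂ} (hΦ : GQ Φ) : interior Φ = ∅ := by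
  rw [eq_empty_iff_forall_notMem]
  intro x hx
  obtain ⟨r, hr, hrs⟩ := Metric.isOpen_iff.1 isOpen_interior x hx
  obtain ⟨θ, C, ψ, hθ, hθ1, hC, hψ⟩ := hΦ x (interior_subset hx) r hr
  have hn : ‖(((θ + 1) / 2 : ℝ) : ℂ)‖ = (θ + 1) / 2 := by
    rw [Complex.norm_real, Real.norm_eq_abs, abs_of_pos (by linarith)]
  have h1 : ψ (((θ + 1) / 2 : ℝ) : ℂ) ∉ Φ := hψ.col _ (by rw [hn]; linarith) (by rw [hn]; linarith)
  refine h1 (interior_subset (hrs (hψ.out (mem_image_of_mem ψ ?_))))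
  rw [mem_ball_zero_iff, hn]
  linarith

private theorem pre_fr {t s : Set ℂ} (ht : IsPreconnected t) (h1 : (t ∩ s).Nonempty) (h2 : (t ∩ sᶜ).Nonempty) :
    (t ∩ frontier s).Nonempty := by
  by_contra hcon
  rw [not_nonempty_iff_eq_empty] at hcon
  have hsub : t ⊆ interior s ∪ (closure s)ᶜ := by
    intro z hz
    by_contra hz2
    rw [mem_union, not_or] at hz2
    have h3 : z ∈ t ∩ frontier s := ⟨hz, not_not.1 hz2.2, hz2.1⟩
    rw [hcon] at h3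
    exact h3
  have hdis : Disjoint (interior s) (closure s)ᶜ :=
    disjoint_left.2 (fun z hz hz2 => hz2 (subset_closure (interior_subset hz)))
  rcases ht.subset_or_subset isOpen_interior isClosed_closure.isOpen_compl hdis hsub with h | h
  · obtain ⟨z, hz1, hz2⟩ := h2
    exact hz2 (interior_subset (h hz1))
  · obtain ⟨z, hz1, hz2⟩ := h1
    exact h hz1 (subset_closure hz2)

private theorem con00 {Φ : Set ℂ} (hΦ : GQ Φ)
    {O : Set ℂ} (hO : IsOpen O) (hb : Bornology.IsBounded O) (hn : O.Nonempty) (hp : IsPreconnected O)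
    (hf : frontier O ⊆ Φ) : False := by
  have hcomp : IsCompact (closure O) := hb.isCompact_closure
  obtain ⟨y, hy, hym⟩ := hcomp.exists_isMaxOn (hn.mono subset_closure)
    (f := fun z : ℂ => z.re) (by fun_prop)
  have hyO : y ∉ O := by
    intro h
    obtain ⟨e, he, hes⟩ := Metric.isOpen_iff.1 hO y h
    have h1 : y + ((e / 2 : ℝ) : ℂ) ∈ O := by
      apply hes
      rw [mem_ball, dist_eq_norm, add_sub_cancel_left, Complex.norm_real, Real.norm_eq_abs,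
        abs_of_pos (by linarith)]
      linarith
    have h2 : (y + ((e / 2 : ℝ) : ℂ)).re ≤ y.re := hym (subset_closure h1)
    simp only [Complex.add_re, Complex.ofReal_re] at h2
    linarith
  have hyf : y ∈ frontier O := by
    rw [hO.frontier_eq]
    exact ⟨hy, hyO⟩
  obtain ⟨o, ho⟩ := hn
  have hoy : o ≠ y := fun h => hyO (h ▸ ho)
  obtain ⟨θ, C, ψ, hθ, hθ1, hC, hψ⟩ := hΦ y (hf hyf) (dist o y) (dist_pos.2 hoy)
  have hρ1 : θ < (θ + 1) / 2 := by linarith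
  have hρ2 : (θ + 1) / 2 < 1 := by linarith
  have hρ0 : 0 < (θ + 1) / 2 := by linarith
  obtain ⟨u, hu, hum⟩ := gd_pt hψ hρ0 hρ2
  obtain ⟨v, hv, hvy⟩ := gd_mid hψ hC (dist_pos.2 hoy)
  have hyD : y ∈ ψ '' ball 0 ((θ + 1) / 2) := ⟨v, by rw [mem_ball_zero_iff]; linarith, hvy⟩
  obtain ⟨hG, hGΦ⟩ := gd_circ hψ hρ1 hρ2
  have hGO : ∀ z ∈ ψ '' sphere 0 ((θ + 1) / 2), z ∉ O := by
    intro z hz hzO
    have h1 : ψ u ∉ O := by
      intro h
      have h2 : (ψ u).re ≤ y.re := hym (subset_closure h)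
      have h3 := hum y hyD
      linarith
    obtain ⟨w, hw1, hw2⟩ := pre_fr hG ⟨z, hz, hzO⟩
      ⟨ψ u, ⟨u, by rw [mem_sphere_zero_iff_norm]; exact hu, rfl⟩, h1⟩
    exact hGΦ w hw1 (hf hw2)
  have hDo : IsOpen (ψ '' ball 0 ((θ + 1) / 2)) := gd_open hψ isOpen_ball (ball_subset_ball hρ2.le)
  obtain ⟨z, hz1, hz2⟩ := mem_closure_iff.1 hy _ hDo hyD
  have hoD : o ∉ ψ '' ball 0 ((θ + 1) / 2) := by
    rintro ⟨w, hw, hwo⟩
    have h1 := hψ.out (mem_image_of_mem ψ (ball_subset_ball hρ2.le hw))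
    rw [hwo, mem_ball] at h1
    exact lt_irrefl _ h1
  obtain ⟨w, hw1, hw2⟩ := pre_fr hp ⟨z, hz2, hz1⟩ ⟨o, ho, hoD⟩
  exact hGO w (gd_fr hψ hρ0 hρ2 hw2) hw1

theorem cong0 {Φ : Set ℂ} (hΦ : GQ Φ) {O : Set ℂ} (hO : IsOpen O)
    (hb : Bornology.IsBounded O) (hn : O.Nonempty) (hf : frontier O ⊆ Φ) : False := by
  obtain ⟨p, hp⟩ := hn
  have hO1 : IsOpen (connectedComponentIn O p) := hO.connectedComponentIn
  refine con00 hΦ hO1 (hb.subset (connectedComponentIn_subset O p))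
    ⟨p, mem_connectedComponentIn hp⟩ isPreconnected_connectedComponentIn ?_
  intro y hy
  rw [hO1.frontier_eq] at hy
  apply hf
  rw [hO.frontier_eq]
  refine ⟨closure_mono (connectedComponentIn_subset O p) hy.1, fun hyO => hy.2 ?_⟩
  have hCy : IsOpen (connectedComponentIn O y) := hO.connectedComponentIn
  obtain ⟨z, hz1, hz2⟩ := mem_closure_iff.1 hy.1 _ hCy (mem_connectedComponentIn hyO)
  rw [connectedComponentIn_eq hz2, ← connectedComponentIn_eq hz1]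
  exact mem_connectedComponentIn hyO

private theorem con_aux {θ C r : ℝ} {Φ : Set ℂ} (hθ : 0 < θ) (hθ1 : θ < 1) (hC : 1 ≤ C) (hΦ : GQ Φ)
    {V A B : Set ℂ} (hA : IsOpen A) (hB : IsOpen B) (hAB : ∀ z ∈ A, z ∉ B) (hV : V \ Φ ⊆ A ∪ B)
    {x : ℂ} {ψ : ℂ → ℂ} (hr : 0 < r) (hψ : GD θ C Φ x r ψ) (hrV : ball x r ⊆ V) (hxB : x ∈ closure B)
    (hG : ψ '' sphere 0 ((θ + 1) / 2) ⊆ A) : False := by
  have hρ2 : (θ + 1) / 2 < 1 := by linarith
  have hρ0 : 0 < (θ + 1) / 2 := by linarith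
  have hDo : IsOpen (ψ '' ball 0 ((θ + 1) / 2)) := gd_open hψ isOpen_ball (ball_subset_ball hρ2.le)
  obtain ⟨v, hv, hvx⟩ := gd_mid hψ hC hr
  have hxD : x ∈ ψ '' ball 0 ((θ + 1) / 2) := ⟨v, by rw [mem_ball_zero_iff]; linarith, hvx⟩
  have hsub : ψ '' ball 0 ((θ + 1) / 2) ⊆ ball x r :=
    (image_mono (ball_subset_ball hρ2.le)).trans hψ.out
  have hcl : ∀ z ∈ closure B, z ∉ A := by
    intro z hz hzA
    obtain ⟨w, hw1, hw2⟩ := mem_closure_iff.1 hz _ hA hzA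
    exact hAB w hw1 hw2
  refine cong0 hΦ (hB.inter hDo) ((isBounded_ball (x := x) (r := r)).subset
    (inter_subset_right.trans hsub)) ?_ ?_
  · obtain ⟨z, hz1, hz2⟩ := mem_closure_iff.1 hxB _ hDo hxD
    exact ⟨z, hz2, hz1⟩
  · intro y hy
    rw [(hB.inter hDo).frontier_eq] at hy
    obtain ⟨hy1, hy2⟩ := hy
    have hyB : y ∈ closure B := closure_mono inter_subset_left hy1
    have hyD : y ∈ ψ '' closedBall 0 ((θ + 1) / 2) := by
      have h1 : closure (ψ '' ball 0 ((θ + 1) / 2)) ⊆ ψ '' closedBall 0 ((θ + 1) / 2) :=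
        closure_minimal (image_mono ball_subset_closedBall) (gd_cl hψ hρ2).isClosed
      exact h1 (closure_mono inter_subset_right hy1)
    obtain ⟨u, hu, huy⟩ := hyD
    have hu2 : ‖u‖ ≤ (θ + 1) / 2 := by simpa using hu
    have hu3 : ‖u‖ < (θ + 1) / 2 := by
      refine lt_of_le_of_ne hu2 (fun h => hcl y hyB (hG ⟨u, ?_, huy⟩))
      rw [mem_sphere_zero_iff_norm]
      exact h
    have hyD2 : y ∈ ψ '' ball 0 ((θ + 1) / 2) := ⟨u, by rw [mem_ball_zero_iff]; exact hu3, huy⟩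
    by_contra hyΦ
    rcases hV ⟨hrV (hsub hyD2), hyΦ⟩ with h | h
    · exact hcl y hyB h
    · exact hy2 ⟨h, hyD2⟩

theorem cong {Φ : Set ℂ} (hΦ : GQ Φ) (hc : IsClosed Φ) {V : Set ℂ}
    (hV : IsOpen V) (hp : IsPreconnected V) : IsPreconnected (V \ Φ) := by
  intro U1 U2 hU1 hU2 hsub hn1 hn2
  by_contra hcon
  rw [not_nonempty_iff_eq_empty] at hcon
  have hVo : IsOpen (V \ Φ) := hV.sdiff hc
  have hA : IsOpen (V \ Φ ∩ U1) := hVo.inter hU1
  have hB : IsOpen (V \ Φ ∩ U2) := hVo.inter hU2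
  have hAB : ∀ z ∈ V \ Φ ∩ U1, z ∉ V \ Φ ∩ U2 := by
    intro z hz1 hz2
    have : z ∈ V \ Φ ∩ (U1 ∩ U2) := ⟨hz1.1, hz1.2, hz2.2⟩
    rw [hcon] at this
    exact this
  have hBA : ∀ z ∈ V \ Φ ∩ U2, z ∉ V \ Φ ∩ U1 := fun z h1 h2 => hAB z h2 h1
  have hcov : V \ Φ ⊆ (V \ Φ ∩ U1) ∪ (V \ Φ ∩ U2) := by
    intro z hz
    rcases hsub hz with h | h
    · exact Or.inl ⟨hz, h⟩
    · exact Or.inr ⟨hz, h⟩
  have hcov2 : V \ Φ ⊆ (V \ Φ ∩ U2) ∪ (V \ Φ ∩ U1) := by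
    rw [union_comm]
    exact hcov
  have hVc : V ⊆ closure (V \ Φ ∩ U1) ∪ closure (V \ Φ ∩ U2) := by
    rw [← closure_union]
    have hd : Dense Φᶜ := interior_eq_empty_iff_dense_compl.1 (dnsg hΦ)
    exact (hd.open_subset_closure_inter hV).trans (closure_mono hcov)
  obtain ⟨x, hxV, hx1, hx2⟩ := isPreconnected_closed_iff.1 hp _ _ isClosed_closure isClosed_closure hVc
    (by
      obtain ⟨z, hz⟩ := hn1
      exact ⟨z, hz.1.1, subset_closure hz⟩)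
    (by
      obtain ⟨z, hz⟩ := hn2
      exact ⟨z, hz.1.1, subset_closure hz⟩)
  have hxΦ : x ∈ Φ := by
    by_contra h
    rcases hcov ⟨hxV, h⟩ with h1 | h1
    · obtain ⟨z, hz1, hz2⟩ := mem_closure_iff.1 hx2 _ hA h1
      exact hAB z hz1 hz2
    · obtain ⟨z, hz1, hz2⟩ := mem_closure_iff.1 hx1 _ hB h1
      exact hAB z hz2 hz1
  obtain ⟨r, hr, hrV⟩ := Metric.isOpen_iff.1 hV x hxV
  obtain ⟨θ, C, ψ, hθ, hθ1, hC, hψ⟩ := hΦ x hxΦ r hr
  have hρ1 : θ < (θ + 1) / 2 := by linarith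
  have hρ2 : (θ + 1) / 2 < 1 := by linarith
  obtain ⟨hG, hGΦ⟩ := gd_circ hψ hρ1 hρ2
  have hGs : ψ '' sphere 0 ((θ + 1) / 2) ⊆ V \ Φ := by
    intro z hz
    refine ⟨hrV ?_, hGΦ z hz⟩
    obtain ⟨u, hu, rfl⟩ := hz
    refine hψ.out (mem_image_of_mem ψ ?_)
    rw [mem_sphere_zero_iff_norm] at hu
    rw [mem_ball_zero_iff, hu]
    exact hρ2
  rcases hG.subset_or_subset hA hB (disjoint_left.2 hAB) (hGs.trans hcov) with h | h
  · exact con_aux hθ hθ1 hC hΦ hA hB hAB hcov hr hψ hrV hx2 h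
  · exact con_aux hθ hθ1 hC hΦ hB hA hBA hcov2 hr hψ hrV hx1 h

end Pool.Agent.H65.UB
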