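import Pool.Agent.H65.UB.Lft
import Pool.Agent.H80.AJ.Cover

/-!
# Limit frames: the group of deck transformations

`dk_mul`, `dk_one`: direct. `free`: if `t u + c = u` for one `u ∈ S` then the two maps `v ↦ t v + c` and `v ↦ v` are equal on `S`
(`lun` with `V = S`, which is preconnected), so `t = 1`, `c = 0` (take two different points of the open set `S`).
`dk_inv`: `u ∈ S`: take any `u`; `F (t u + c) = F u`, so by `deck` there is `(t', c')` with `u = t' (t u + c) + c'`, `Dk t' c'`;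
`(t' t, t' c + c')` is a deck transformation (`dk_mul`) with a fixed point, so `t' t = 1`, `t' c + c' = 0` by `free`.
`sep`: `g` = the branch on `ball (F s) ρ` at `s`, injective (`F ∘ g = id`); `univ_cover`: `ball s (ρ ‖deriv g (F s)‖ / 16) ⊆
g '' ball (F s) ρ`, and `deriv g (F s) * deriv F s = 1`. If `t s + c` is in this ball then `t s + c = g u`, so `F s = F (g u) = u`,
`g u = s`, so `t s + c = s`, `free`.
`disc`: the form of `sep` at a fixed point: a positive lower bound `δ` for `‖t s + c - s‖`.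
`dich`: suppose `Dk F S t1 c1`, `|t1| ≠ 1`; replacing it by the inverse, `0 < |t1| < 1`; let `s0 = c1 / (1 - t1)` be its fixed point,
so `t1 u + c1 = s0 + t1 (u - s0)`. For `Dk F S t c` put `d = t s0 + c - s0`. The commutator
`u ↦ A^n (T (A^(-n) (T^(-1) u)))`, `A` = the map of `(t1, c1)`, `T` = the map of `(t, c)`, is the translation by `(t1^n - 1) d`:
with `v = u - s0`: `T^(-1)`: `v ↦ (v - d) / t`; `A^(-n)`: `/ t1^n`; `T`: `(v - d) / t1^n + d`; `A^n`: `v - d + t1^n d`. So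
`Dk F S 1 ((t1^n - 1) d)` for all `n` (powers by induction), and differences: `Dk F S 1 ((t1^(n+1) - t1^n) d)`; by `disc`
`(t1^(n+1) - t1^n) d = 0` for large `n` (it tends to `0`), so `d = 0`.
`hol`: for a lift `q` of the collar of `ψ`: `u ↦ q (u + 2 π i)` and `q` are both lifts; at `ζ0 = log θ / 2`, `deck` gives
`q (ζ0 + 2 π i) = t q ζ0 + c`; `lun` on the convex set `{ζ ∈ Qc θ | ζ + 2 π i ∈ Qc θ}` for `q (· + 2 π i)` and `t q + c`.
-/

set_option autoImplicit false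

open Filter Topology Metric Set

namespace Pool.Agent.H65.UB

open Pool.Agent.H56.UD

theorem dk_one (F : ℂ → ℂ) (S : Set ℂ) : Dk F S 1 0 := by
  refine ⟨one_ne_zero, fun u hu => ?_⟩
  rw [Complex.ofReal_one, one_mul, add_zero]
  exact ⟨hu, rfl⟩

/-- first `(t', c')`, then `(t, c)` -/
theorem dk_mul {F : ℂ → ℂ} {S : Set ℂ} {t t' : ℝ} {c c' : ℂ} (h : Dk F S t c) (h' : Dk F S t' c') :
    Dk F S (t * t') ((t : ℂ) * c' + c) := by
  refine ⟨mul_ne_zero h.1 h'.1, fun u hu => ?_⟩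
  obtain ⟨a1, a2⟩ := h'.2 u hu
  obtain ⟨b1, b2⟩ := h.2 _ a1
  have e : ((t * t' : ℝ) : ℂ) * u + ((t : ℂ) * c' + c) = (t : ℂ) * ((t' : ℂ) * u + c') + c := by
    push_cast
    ring
  rw [e]
  exact ⟨b1, b2.trans a2⟩

theorem free {F : ℂ → ℂ} {S Φ : Set ℂ} {θ C : ℝ} (h : LF F S Φ θ C) {t : ℝ} {c : ℂ} (hd : Dk F S t c) {u : ℂ} (hu : u ∈ S)
    (he : (t : ℂ) * u + c = u) : t = 1 ∧ c = 0 := by
  have h1 : ∀ v ∈ S, (t : ℂ) * v + c = v :=
    lun h h.Sc.isPreconnected (G := fun v => (t : ℂ) * v + c) (G' := fun v => v)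
      ((continuous_const.mul continuous_id).add continuous_const).continuousOn continuousOn_id
      (fun v hv => ⟨(hd.2 v hv).1, hv, (hd.2 v hv).2⟩) hu he
  obtain ⟨ε, hε, hb⟩ := Metric.isOpen_iff.1 h.So u hu
  have h2 : u + ((ε / 2 : ℝ) : ℂ) ∈ S := by
    apply hb
    rw [mem_ball, dist_eq_norm, add_sub_cancel_left, Complex.norm_real, Real.norm_eq_abs, abs_of_pos (by linarith)]
    linarith
  have h3 := h1 _ h2
  have h4 : ((t : ℂ) - 1) * ((ε / 2 : ℝ) : ℂ) = 0 := by linear_combination h3 - he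
  have h5 : ((ε / 2 : ℝ) : ℂ) ≠ 0 := by
    rw [Ne, Complex.ofReal_eq_zero]
    linarith
  have h6 : (t : ℂ) = 1 := sub_eq_zero.1 ((mul_eq_zero.1 h4).resolve_right h5)
  refine ⟨by exact_mod_cast h6, ?_⟩
  rw [h6, one_mul] at he
  linear_combination he

theorem dk_inv {F : ℂ → ℂ} {S Φ : Set ℂ} {θ C : ℝ} (h : LF F S Φ θ C) {t : ℝ} {c : ℂ} (hd : Dk F S t c) :
    Dk F S t⁻¹ (-(c / t)) := by
  obtain ⟨u, hu⟩ := h.Sc.nonempty
  obtain ⟨a1, a2⟩ := hd.2 u hu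
  obtain ⟨t', c', b1, b2⟩ := h.deck _ a1 u hu a2
  obtain ⟨e1, e2⟩ := free h (dk_mul b1 hd) hu (by
    push_cast
    linear_combination -b2)
  have ht : (t : ℂ) ≠ 0 := by exact_mod_cast hd.1
  have h1 : t' = t⁻¹ := eq_inv_of_mul_eq_one_left e1
  have h2 : c' = -(c / t) := by
    rw [h1] at e2
    push_cast at e2
    rw [eq_neg_iff_add_eq_zero, div_eq_mul_inv]
    linear_combination e2
  rw [← h1, ← h2]
  exact b1

/-- powers of a translation -/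
theorem dk_zmul {F : ℂ → ℂ} {S Φ : Set ℂ} {θ C : ℝ} (h : LF F S Φ θ C) {c : ℂ} (hd : Dk F S 1 c) (n : ℤ) :
    Dk F S 1 (n * c) := by
  have hnat : ∀ n : ℕ, Dk F S 1 (n * c) := by
    intro n
    induction n with
    | zero =>
      rw [Nat.cast_zero, zero_mul]
      exact dk_one F S
    | succ n ih =>
      have h1 := dk_mul ih hd
      have e : ((1 : ℝ) : ℂ) * c + (n : ℂ) * c = ((n + 1 : ℕ) : ℂ) * c := by
        push_cast
        ring
      rw [mul_one, e] at h1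
      exact h1
  rcases n with n | n
  · exact hnat n
  · have h1 := dk_inv h (hnat (n + 1))
    have e : -(((n + 1 : ℕ) : ℂ) * c / ((1 : ℝ) : ℂ)) = ((Int.negSucc n : ℤ) : ℂ) * c := by
      rw [Complex.ofReal_one, div_one, Int.cast_negSucc]
      ring
    rw [inv_one, e] at h1
    exact h1

/-- powers of a map with a fixed point -/
theorem dk_zpow {F : ℂ → ℂ} {S Φ : Set ℂ} {θ C : ℝ} (h : LF F S Φ θ C) {t : ℝ} {s0 : ℂ} (hd : Dk F S t (s0 - t * s0)) (n : ℤ) :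
    Dk F S (t ^ n) (s0 - ((t ^ n : ℝ) : ℂ) * s0) := by
  have hnat : ∀ n : ℕ, Dk F S (t ^ n) (s0 - ((t ^ n : ℝ) : ℂ) * s0) := by
    intro n
    induction n with
    | zero =>
      have e : s0 - ((t ^ 0 : ℝ) : ℂ) * s0 = 0 := by
        rw [pow_zero, Complex.ofReal_one, one_mul, sub_self]
      rw [e, pow_zero]
      exact dk_one F S
    | succ n ih =>
      have h1 := dk_mul ih hd
      have e : ((t ^ n : ℝ) : ℂ) * (s0 - t * s0) + (s0 - ((t ^ n : ℝ) : ℂ) * s0) =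
          s0 - ((t ^ (n + 1) : ℝ) : ℂ) * s0 := by
        push_cast
        ring
      rw [← pow_succ, e] at h1
      exact h1
  rcases n with n | n
  · simpa using hnat n
  · have h1 := dk_inv h (hnat (n + 1))
    have ht : (t : ℂ) ≠ 0 := by exact_mod_cast hd.1
    have e : -((s0 - ((t ^ (n + 1) : ℝ) : ℂ) * s0) / ((t ^ (n + 1) : ℝ) : ℂ)) =
        s0 - (((t ^ (n + 1))⁻¹ : ℝ) : ℂ) * s0 := by
      push_cast
      field_simp
      ring
    rw [e] at h1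
    rw [zpow_negSucc]
    exact h1

theorem sep {F : ℂ → ℂ} {S Φ : Set ℂ} {θ C : ℝ} (h : LF F S Φ θ C) {t : ℝ} {c : ℂ} (hd : Dk F S t c) (hne : ¬ (t = 1 ∧ c = 0))
    {s : ℂ} (hs : s ∈ S) {ρ : ℝ} (hρ : 0 < ρ) (hb : ∀ u ∈ ball (F s) ρ, u ∉ Φ) :
    ρ ≤ 16 * ‖deriv F s‖ * ‖(t : ℂ) * s + c - s‖ := by
  obtain ⟨g, hg1, hg2, hg3⟩ := h.br s hs ρ hρ hb
  have hinj : InjOn g (ball (F s) ρ) := by
    intro a ha b hb' hab
    rw [← (hg3 a ha).2, ← (hg3 b hb').2, hab]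
  have hcov := Pool.Agent.H80.AJ.univ_cover hρ hg1 hinj
  have hFs : F s ∈ ball (F s) ρ := mem_ball_self hρ
  have hder : deriv F s * deriv g (F s) = 1 := by
    have h1 : HasDerivAt g (deriv g (F s)) (F s) := (hg1.differentiableAt (isOpen_ball.mem_nhds hFs)).hasDerivAt
    have h2 : HasDerivAt F (deriv F s) (g (F s)) := by
      rw [hg2]
      exact (h.Fd.differentiableAt (h.So.mem_nhds hs)).hasDerivAt
    have h3 : HasDerivAt (F ∘ g) (deriv F s * deriv g (F s)) (F s) := HasDerivAt.comp _ h2 h1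
    have h4 : HasDerivAt (F ∘ g) 1 (F s) := by
      refine (hasDerivAt_id (F s)).congr_of_eventuallyEq ?_
      filter_upwards [isOpen_ball.mem_nhds hFs] with u hu
      exact (hg3 u hu).2
    exact h3.unique h4
  have hnorm : ‖deriv F s‖ * ‖deriv g (F s)‖ = 1 := by rw [← norm_mul, hder, norm_one]
  have hF0 : 0 < ‖deriv F s‖ := by
    rw [norm_pos_iff]
    intro h0
    rw [h0, zero_mul] at hder
    exact zero_ne_one hder
  by_contra hcon
  push Not at hcon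
  have hin : (t : ℂ) * s + c ∈ ball (g (F s)) (ρ * ‖deriv g (F s)‖ / 16) := by
    rw [hg2, mem_ball, dist_eq_norm, lt_div_iff₀ (by norm_num)]
    have h1 : ‖deriv F s‖ * (‖(t : ℂ) * s + c - s‖ * 16) < ‖deriv F s‖ * (ρ * ‖deriv g (F s)‖) := by
      calc ‖deriv F s‖ * (‖(t : ℂ) * s + c - s‖ * 16) = 16 * ‖deriv F s‖ * ‖(t : ℂ) * s + c - s‖ := by ring
        _ < ρ := hcon
        _ = ρ * (‖deriv F s‖ * ‖deriv g (F s)‖) := by rw [hnorm, mul_one]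
        _ = ‖deriv F s‖ * (ρ * ‖deriv g (F s)‖) := by ring
    exact lt_of_mul_lt_mul_left h1 hF0.le
  obtain ⟨u, hu, hgu⟩ := hcov hin
  have h1 : u = F s := by
    rw [← (hg3 u hu).2, hgu]
    exact (hd.2 s hs).2
  have h2 : (t : ℂ) * s + c = s := by rw [← hgu, h1, hg2]
  exact hne (free h hd hs h2)

theorem disc {F : ℂ → ℂ} {S Φ : Set ℂ} {θ C : ℝ} (h : LF F S Φ θ C) {s : ℂ} (hs : s ∈ S) :
    ∃ δ : ℝ, 0 < δ ∧ ∀ (t : ℝ) (c : ℂ), Dk F S t c → ¬ (t = 1 ∧ c = 0) → δ ≤ ‖(t : ℂ) * s + c - s‖ := by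
  obtain ⟨ρ, hρ, hb⟩ := Metric.isOpen_iff.1 h.Pc.isOpen_compl (F s) (h.Fv s hs)
  have hF0 : 0 < ‖deriv F s‖ := norm_pos_iff.2 (ld h hs).1
  refine ⟨ρ / (16 * ‖deriv F s‖), by positivity, fun t c hd hne => ?_⟩
  rw [div_le_iff₀ (by positivity), mul_comm]
  exact sep h hd hne hs hρ fun u hu => hb hu

private theorem dich_aux {F : ℂ → ℂ} {S Φ : Set ℂ} {θ C : ℝ} (h : LF F S Φ θ C) {t1 : ℝ} {c1 : ℂ} (hd : Dk F S t1 c1)
    (h1 : |t1| < 1) : ∃ s0 : ℂ, ∀ (t : ℝ) (c : ℂ), Dk F S t c → c = s0 - (t : ℂ) * s0 := by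
  have ht1 : t1 ≠ 1 := by
    rintro rfl
    rw [abs_one] at h1
    exact lt_irrefl _ h1
  have ht1' : (1 : ℂ) - t1 ≠ 0 := by
    rw [sub_ne_zero]
    exact_mod_cast ht1.symm
  have ht10 : t1 ≠ 0 := hd.1
  obtain ⟨s0, hs0⟩ : ∃ s0 : ℂ, s0 = c1 / (1 - t1) := ⟨_, rfl⟩
  have hc1 : c1 = s0 - t1 * s0 := by
    rw [hs0]
    field_simp
  refine ⟨s0, fun t c hT => ?_⟩
  obtain ⟨d, hdd⟩ : ∃ d : ℂ, d = t * s0 + c - s0 := ⟨_, rfl⟩
  have ht : (t : ℂ) ≠ 0 := by exact_mod_cast hT.1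
  rw [hc1] at hd
  have key : ∀ n : ℕ, Dk F S 1 (((t1 ^ n : ℝ) - 1 : ℂ) * d) := by
    intro n
    have a0 : t1 ^ n ≠ 0 := pow_ne_zero n ht10
    have a0' : (t1 : ℂ) ≠ 0 := by exact_mod_cast ht10
    have A : Dk F S (t1 ^ n) (s0 - ((t1 ^ n : ℝ) : ℂ) * s0) := by simpa using dk_zpow h hd (n : ℤ)
    have A' := dk_inv h A
    have T' := dk_inv h hT
    have h2 := dk_mul A (dk_mul hT (dk_mul A' T'))
    have e1 : t1 ^ n * (t * ((t1 ^ n)⁻¹ * t⁻¹)) = 1 := by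
      have := hT.1
      field_simp
    have e2 : ((t1 ^ n : ℝ) : ℂ) * ((t : ℂ) * ((((t1 ^ n)⁻¹ : ℝ) : ℂ) * -(c / t) +
        -((s0 - ((t1 ^ n : ℝ) : ℂ) * s0) / ((t1 ^ n : ℝ) : ℂ))) + c) + (s0 - ((t1 ^ n : ℝ) : ℂ) * s0) =
        ((t1 ^ n : ℝ) - 1 : ℂ) * d := by
      rw [hdd]
      push_cast
      field_simp
      ring
    rw [e1, e2] at h2
    exact h2
  have key2 : ∀ n : ℕ, Dk F S 1 (((t1 ^ (n + 1) : ℝ) - (t1 ^ n : ℝ) : ℂ) * d) := by
    intro n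
    have h2 := dk_mul (key (n + 1)) (dk_inv h (key n))
    have e1 : (1 : ℝ) * 1⁻¹ = 1 := by norm_num
    have e2 : ((1 : ℝ) : ℂ) * -((((t1 ^ n : ℝ) : ℂ) - 1) * d / ((1 : ℝ) : ℂ)) + (((t1 ^ (n + 1) : ℝ) : ℂ) - 1) * d =
        (((t1 ^ (n + 1) : ℝ) : ℂ) - ((t1 ^ n : ℝ) : ℂ)) * d := by
      rw [Complex.ofReal_one]
      ring
    rw [e1, e2] at h2
    exact h2
  obtain ⟨s, hs⟩ := h.Sc.nonempty
  obtain ⟨δ, hδ, hδ2⟩ := disc h hs
  have hlim : Tendsto (fun n : ℕ => (((t1 ^ (n + 1) : ℝ) : ℂ) - ((t1 ^ n : ℝ) : ℂ)) * d) atTop (𝓝 0) := by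
    have h2 : Tendsto (fun n : ℕ => t1 ^ n) atTop (𝓝 0) := tendsto_pow_atTop_nhds_zero_of_abs_lt_one h1
    have h3 := (tendsto_add_atTop_iff_nat 1).2 h2
    have h4 := ((Complex.continuous_ofReal.tendsto _).comp h3).sub ((Complex.continuous_ofReal.tendsto _).comp h2)
    have h5 := h4.mul_const d
    rw [sub_self, zero_mul] at h5
    exact h5
  obtain ⟨n, hn⟩ := (hlim.norm.eventually_lt_const (by rwa [norm_zero] : ‖(0 : ℂ)‖ < δ)).exists
  have hz : (((t1 ^ (n + 1) : ℝ) : ℂ) - ((t1 ^ n : ℝ) : ℂ)) * d = 0 := by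
    by_contra hne
    have h2 := hδ2 1 _ (key2 n) fun h3 => hne h3.2
    rw [Complex.ofReal_one, one_mul, add_sub_cancel_left] at h2
    linarith
  have hd0 : d = 0 := by
    refine (mul_eq_zero.1 hz).resolve_left ?_
    intro h2
    have h3 : t1 ^ (n + 1) = t1 ^ n := by exact_mod_cast sub_eq_zero.1 h2
    rw [pow_succ] at h3
    exact ht1 (mul_left_cancel₀ (pow_ne_zero n ht10) (h3.trans (mul_one _).symm))
  rw [hd0] at hdd
  linear_combination -hdd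

theorem dich {F : ℂ → ℂ} {S Φ : Set ℂ} {θ C : ℝ} (h : LF F S Φ θ C) {t1 : ℝ} {c1 : ℂ} (hd : Dk F S t1 c1) (h1 : |t1| ≠ 1) :
    ∃ s0 : ℂ, ∀ (t : ℝ) (c : ℂ), Dk F S t c → c = s0 - (t : ℂ) * s0 := by
  rcases lt_or_gt_of_ne h1 with h2 | h2
  · exact dich_aux h hd h2
  · refine dich_aux h (dk_inv h hd) ?_
    rw [abs_inv]
    exact inv_lt_one_of_one_lt₀ h2

theorem hol {F : ℂ → ℂ} {S Φ : Set ℂ} {θ C : ℝ} (h : LF F S Φ θ C) {ψ q : ℂ → ℂ} (hq : Lf F S θ ψ q) :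
    ∃ (t : ℝ) (c : ℂ), Dk F S t c ∧ ∀ ζ ∈ Qc θ, ζ + 2 * Real.pi * Complex.I ∈ Qc θ →
      q (ζ + 2 * Real.pi * Complex.I) = (t : ℂ) * q ζ + c := by
  have hlog : Real.log θ < 0 := Real.log_neg h.θ0 h.θ1
  have hpi := Real.pi_pos
  have hre : ∀ ζ : ℂ, (ζ + 2 * Real.pi * Complex.I).re = ζ.re := by
    intro ζ
    simp
  have him : ∀ ζ : ℂ, (ζ + 2 * Real.pi * Complex.I).im = ζ.im + 2 * Real.pi := by
    intro ζ
    simp
  have hexp : ∀ ζ : ℂ, Complex.exp (ζ + 2 * Real.pi * Complex.I) = Complex.exp ζ := by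
    intro ζ
    exact Complex.exp_periodic ζ
  have hζ0 : ((Real.log θ / 2 : ℝ) : ℂ) ∈ Qc θ := by
    refine ⟨?_, ?_, ?_⟩
    · rw [Complex.ofReal_re]
      linarith
    · rw [Complex.ofReal_re]
      linarith
    · rw [Complex.ofReal_im, abs_zero]
      linarith
  have hζ1 : ((Real.log θ / 2 : ℝ) : ℂ) + 2 * Real.pi * Complex.I ∈ Qc θ := by
    refine ⟨?_, ?_, ?_⟩
    · rw [hre, Complex.ofReal_re]
      linarith
    · rw [hre, Complex.ofReal_re]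
      linarith
    · rw [him, Complex.ofReal_im, zero_add, abs_of_pos (by linarith)]
      linarith
  obtain ⟨t, c, hd, htc⟩ := h.deck _ (hq.val _ hζ0).1 _ (hq.val _ hζ1).1 (by
    rw [(hq.val _ hζ0).2, (hq.val _ hζ1).2, hexp])
  refine ⟨t, c, hd, fun ζ hζ hζ' => ?_⟩
  have hQ : Convex ℝ (Qc θ) := by
    have e : Qc θ = {ζ : ℂ | Real.log θ < ζ.re} ∩ ({ζ : ℂ | ζ.re < 0} ∩
        ({ζ : ℂ | -(6 * Real.pi) < ζ.im} ∩ {ζ : ℂ | ζ.im < 6 * Real.pi})) := by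
      ext ζ
      simp only [Qc, Qr, mem_inter_iff, mem_ofPred_eq, abs_lt]
    rw [e]
    exact (convex_halfSpace_re_gt _).inter ((convex_halfSpace_re_lt _).inter
      ((convex_halfSpace_im_gt _).inter (convex_halfSpace_im_lt _)))
  have hV : Convex ℝ {ζ : ℂ | ζ ∈ Qc θ ∧ ζ + 2 * Real.pi * Complex.I ∈ Qc θ} := by
    have e : {ζ : ℂ | ζ ∈ Qc θ ∧ ζ + 2 * Real.pi * Complex.I ∈ Qc θ} =
        Qc θ ∩ (fun ζ => ζ + 2 * Real.pi * Complex.I) ⁻¹' (Qc θ) := rfl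
    rw [e]
    exact hQ.inter (hQ.translate_preimage_left _)
  refine lun h hV.isPreconnected (G := fun ζ => q (ζ + 2 * Real.pi * Complex.I)) (G' := fun ζ => (t : ℂ) * q ζ + c)
    ?_ ?_ ?_ (q := ((Real.log θ / 2 : ℝ) : ℂ)) ⟨hζ0, hζ1⟩ htc ζ ⟨hζ, hζ'⟩
  · exact hq.diff.continuousOn.comp (continuous_id.add continuous_const).continuousOn fun v hv => hv.2
  · exact (continuousOn_const.mul (hq.diff.continuousOn.mono fun v hv => hv.1)).add continuousOn_const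
  · rintro v ⟨hv1, hv2⟩
    obtain ⟨a1, a2⟩ := hq.val _ hv1
    obtain ⟨b1, b2⟩ := hq.val _ hv2
    obtain ⟨c1, c2⟩ := hd.2 _ a1
    refine ⟨b1, c1, ?_⟩
    rw [c2, a2, b2, hexp]

end Pool.Agent.H65.UB
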