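import Pool.Agent.H65.UB.Gdf
import Pool.Agent.H65.UB.Grp

/-!
# Limit frames: lifts of collars and Koebe

`ζ0 = log θ / 2` (real, `log θ < ζ0 < 0`).
`kb`: a lift `q` of a collar is injective on balls of radius `δ = min (-(log θ) / 4) 1` around the points of the segment from
`ζ0` to `ζ0 + 2 π i` (`F (q ζ) = ψ (exp ζ)`, `ψ` injective on the unit disc, `exp` injective on sets of diameter `< 2 π`; these
balls are in `Qc θ`). By `chain` (`N` steps, `2 π ≤ N δ / 2`) `‖deriv q ζ‖ ≤ KK ^ N ‖deriv q ζ0‖` on the segment (apply `chain` to the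
segment from `ζ` to `ζ0`), so `‖q (ζ0 + 2 π i) - q ζ0‖ ≤ 2 π KK ^ N ‖deriv q ζ0‖` (mean value on the segment), and
`univ_cover` gives `ball (q ζ0) (δ ‖deriv q ζ0‖ / 16) ⊆ q '' ball ζ0 δ ⊆ q '' Qc θ`. So `K = 32 π KK ^ N / δ`.
-/

set_option autoImplicit false

open Filter Topology Metric Set

namespace Pool.Agent.H65.UB

open Pool.Agent.H56.UD

/-- the base point of the collar -/
noncomputable def zt (θ : ℝ) : ℂ := ((Real.log θ / 2 : ℝ) : ℂ)

private theorem kb_re (z : ℂ) : (z + 2 * Real.pi * Complex.I).re = z.re := by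
  simp

private theorem kb_im (z : ℂ) : (z + 2 * Real.pi * Complex.I).im = z.im + 2 * Real.pi := by
  simp

theorem zt_mem {θ : ℝ} (hθ : 0 < θ) (hθ1 : θ < 1) : zt θ ∈ Qc θ ∧ zt θ + 2 * Real.pi * Complex.I ∈ Qc θ ∧
    Complex.exp (zt θ) = ((√θ : ℝ) : ℂ) := by
  have hL : Real.log θ < 0 := Real.log_neg hθ hθ1
  have hpi := Real.pi_pos
  have h1 : (zt θ).re = Real.log θ / 2 := Complex.ofReal_re _
  have h2 : (zt θ).im = 0 := Complex.ofReal_im _
  refine ⟨⟨?_, ?_, ?_⟩, ⟨?_, ?_, ?_⟩, ?_⟩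
  · rw [h1]
    linarith
  · rw [h1]
    linarith
  · rw [h2, abs_zero]
    linarith
  · rw [kb_re, h1]
    linarith
  · rw [kb_re, h1]
    linarith
  · rw [kb_im, h2, zero_add, abs_of_pos (by linarith)]
    linarith
  · unfold zt
    rw [← Complex.ofReal_exp, Real.exp_half, Real.exp_log hθ]

/-- the vertical segment -/
private def Sg (θ : ℝ) : Set ℂ := {ζ | ζ.re = Real.log θ / 2 ∧ 0 ≤ ζ.im ∧ ζ.im ≤ 2 * Real.pi}

private theorem kb_conv (θ : ℝ) : Convex ℝ (Sg θ) := by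
  rintro x ⟨hx1, hx2, hx3⟩ y ⟨hy1, hy2, hy3⟩ a b ha hb hab
  have hr : (a • x + b • y).re = a * x.re + b * y.re := by
    rw [Complex.add_re, Complex.real_smul, Complex.real_smul, Complex.re_ofReal_mul,
      Complex.re_ofReal_mul]
  have hi : (a • x + b • y).im = a * x.im + b * y.im := by
    rw [Complex.add_im, Complex.real_smul, Complex.real_smul, Complex.im_ofReal_mul,
      Complex.im_ofReal_mul]
  refine ⟨?_, ?_, ?_⟩
  · rw [hr, hx1, hy1, ← add_mul, hab, one_mul]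
  · rw [hi]
    positivity
  · rw [hi]
    have h1 : a * x.im ≤ a * (2 * Real.pi) := mul_le_mul_of_nonneg_left hx3 ha
    have h2 : b * y.im ≤ b * (2 * Real.pi) := mul_le_mul_of_nonneg_left hy3 hb
    calc a * x.im + b * y.im ≤ a * (2 * Real.pi) + b * (2 * Real.pi) := add_le_add h1 h2
      _ = 2 * Real.pi := by rw [← add_mul, hab, one_mul]

private theorem kb_sub {θ : ℝ} (hθ : 0 < θ) (hθ1 : θ < 1) {δ : ℝ} (h1 : δ ≤ -(Real.log θ) / 4)
    (h2 : δ ≤ 1) {ζ : ℂ} (hζ : ζ ∈ Sg θ) : ball ζ δ ⊆ Qc θ := by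
  intro u hu
  rw [mem_ball, dist_eq_norm] at hu
  obtain ⟨a1, a2, a3⟩ := hζ
  have hL : Real.log θ < 0 := Real.log_neg hθ hθ1
  have hpi := Real.pi_gt_three
  have h3 := (Complex.abs_re_le_norm (u - ζ)).trans_lt hu
  have h4 := (Complex.abs_im_le_norm (u - ζ)).trans_lt hu
  rw [Complex.sub_re, abs_lt] at h3
  rw [Complex.sub_im, abs_lt] at h4
  refine ⟨?_, ?_, ?_⟩
  · linarith [h3.1, h3.2]
  · linarith [h3.1, h3.2]
  · rw [abs_lt]
    constructor
    · linarith [h4.1, h4.2]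
    · linarith [h4.1, h4.2]

private theorem kb_inj {θ C r : ℝ} {Φ S : Set ℂ} {x : ℂ} {F ψ q : ℂ → ℂ} (h : GD θ C Φ x r ψ)
    (hq : Lf F S θ ψ q) {δ : ℝ} (h2 : δ ≤ 1) {ζ : ℂ} (hζ : ball ζ δ ⊆ Qc θ) :
    InjOn q (ball ζ δ) := by
  intro u hu v hv huv
  have h3 := (hq.val u (hζ hu)).2
  have h4 := (hq.val v (hζ hv)).2
  have hb : ∀ z ∈ Qc θ, Complex.exp z ∈ ball (0 : ℂ) 1 := by
    rintro z ⟨-, hz, -⟩
    rw [mem_ball, dist_zero_right, Complex.norm_exp]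
    exact Real.exp_lt_one_iff.2 hz
  have h5 : Complex.exp u = Complex.exp v := by
    apply h.inj (hb u (hζ hu)) (hb v (hζ hv))
    rw [← h3, ← h4, huv]
  obtain ⟨n, hn⟩ := Complex.exp_eq_exp_iff_exists_int.1 h5
  have h6 : dist u v < 2 := by
    have h7 := dist_triangle_right u v ζ
    rw [mem_ball] at hu hv
    linarith
  have h8 : n = 0 := by
    by_contra hne
    have h9 : (1 : ℝ) ≤ |(n : ℝ)| := by
      rw [← Int.cast_abs]
      exact_mod_cast Int.one_le_abs hne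
    have h10 : dist u v = |(n : ℝ)| * (2 * Real.pi) := by
      rw [dist_eq_norm, hn, add_sub_cancel_left, norm_mul, norm_mul, norm_mul, Complex.norm_I,
        mul_one, Complex.norm_intCast, Complex.norm_real, Complex.norm_ofNat, Real.norm_eq_abs,
        abs_of_pos Real.pi_pos]
    have hpi := Real.pi_gt_three
    rw [h10] at h6
    nlinarith
  rw [hn, h8, Int.cast_zero, zero_mul, add_zero]

theorem kb {θ : ℝ} (hθ : 0 < θ) (hθ1 : θ < 1) : ∃ K : ℝ, 0 < K ∧ ∀ (F : ℂ → ℂ) (S Φ : Set ℂ) (C : ℝ) (x : ℂ) (r : ℝ)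
    (ψ q : ℂ → ℂ), GD θ C Φ x r ψ → Lf F S θ ψ q →
      ball (q (zt θ)) (‖q (zt θ + 2 * Real.pi * Complex.I) - q (zt θ)‖ / K) ⊆ q '' Qc θ := by
  have hL : Real.log θ < 0 := Real.log_neg hθ hθ1
  have hpi := Real.pi_pos
  obtain ⟨δ, hδ⟩ : ∃ δ, δ = min (-(Real.log θ) / 4) 1 := ⟨_, rfl⟩
  have hδ0 : 0 < δ := by
    rw [hδ]
    exact lt_min (by linarith) one_pos
  have hδ1 : δ ≤ -(Real.log θ) / 4 := hδ ▸ min_le_left _ _
  have hδ2 : δ ≤ 1 := hδ ▸ min_le_right _ _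
  obtain ⟨N, hN⟩ := exists_nat_ge (4 * Real.pi / δ)
  have hN' : 2 * Real.pi ≤ N * (δ / 2) := by
    rw [div_le_iff₀ hδ0] at hN
    linarith
  have hKN : 0 < Pool.Agent.H80.AJ.KK ^ N := pow_pos Pool.Agent.H80.AJ.KK_pos N
  refine ⟨32 * Real.pi * Pool.Agent.H80.AJ.KK ^ N / δ, by positivity, ?_⟩
  intro F S Φ C x r ψ q hψ hq
  have hz0 : zt θ ∈ Sg θ := ⟨Complex.ofReal_re _, (Complex.ofReal_im _).ge, by
    rw [show (zt θ).im = 0 from Complex.ofReal_im _]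
    linarith⟩
  have hz1 : zt θ + 2 * Real.pi * Complex.I ∈ Sg θ := by
    refine ⟨?_, ?_, ?_⟩
    · rw [kb_re]
      exact hz0.1
    · rw [kb_im]
      linarith [hz0.2.1]
    · rw [kb_im, show (zt θ).im = 0 from Complex.ofReal_im _, zero_add]
  have hb : ∀ ζ ∈ Sg θ, DifferentiableOn ℂ q (ball ζ δ) ∧ InjOn q (ball ζ δ) := fun ζ hζ =>
    ⟨hq.diff.mono (kb_sub hθ hθ1 hδ1 hδ2 hζ),
      kb_inj hψ hq hδ2 (kb_sub hθ hθ1 hδ1 hδ2 hζ)⟩
  have hd : ∀ ζ ∈ Sg θ, ‖deriv q ζ‖ ≤ Pool.Agent.H80.AJ.KK ^ N * ‖deriv q (zt θ)‖ := by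
    intro ζ hζ
    refine chain hδ0 N ?_ fun v hv => hb v ((kb_conv θ).segment_subset hζ hz0 hv)
    refine le_trans ?_ hN'
    have h1 : ζ - zt θ = ((ζ.im : ℝ) : ℂ) * Complex.I := by
      apply Complex.ext
      · rw [Complex.sub_re, hζ.1, hz0.1]
        simp
      · rw [Complex.sub_im, show (zt θ).im = 0 from Complex.ofReal_im _]
        simp
    rw [h1, norm_mul, Complex.norm_I, mul_one, Complex.norm_real, Real.norm_eq_abs,
      abs_of_nonneg hζ.2.1]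
    exact hζ.2.2
  have hm : ‖q (zt θ + 2 * Real.pi * Complex.I) - q (zt θ)‖ ≤
      Pool.Agent.H80.AJ.KK ^ N * ‖deriv q (zt θ)‖ * (2 * Real.pi) := by
    have h1 := Convex.norm_image_sub_le_of_norm_deriv_le (𝕜 := ℂ) (f := q) (s := Sg θ)
      (fun u hu => (hb u hu).1.differentiableAt (isOpen_ball.mem_nhds (mem_ball_self hδ0))) hd
      (kb_conv θ) hz0 hz1
    have h2 : ‖zt θ + 2 * Real.pi * Complex.I - zt θ‖ = 2 * Real.pi := by
      rw [add_sub_cancel_left, norm_mul, norm_mul, Complex.norm_I, mul_one, Complex.norm_real,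
        Complex.norm_ofNat, Real.norm_eq_abs, abs_of_pos hpi]
    rw [h2] at h1
    exact h1
  have h3 := Pool.Agent.H80.AJ.univ_cover hδ0 (hb _ hz0).1 (hb _ hz0).2
  refine Subset.trans (ball_subset_ball ?_) (h3.trans (image_mono (kb_sub hθ hθ1 hδ1 hδ2 hz0)))
  rw [div_le_iff₀ (by positivity)]
  refine hm.trans (le_of_eq ?_)
  field_simp
  ring

end Pool.Agent.H65.UB
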