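import Pool.Agent.H65.UB.Defs

/-!
# Limit frames: lifts over convex sets

`F` on `S` is a covering of `Φᶜ` (full disc branches `LF.br`), so holomorphic maps of open convex sets into `Φᶜ` lift.

`ld`: `F` is injective near each `s ∈ S`, `deriv F s ≠ 0` (from `br` on a small disc: `F (g u) = u`, `g (F s) = s`, chain rule).
`lun`: UNIQUENESS: two continuous maps `G`, `G'` of a preconnected set `V` into `S` with `F (G u) = F (G' u)`, equal at one point,
are equal on `V`: the set of equality is relatively closed; it is relatively open: at `u0`, `s = G u0 = G' u0`, `F` is injective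
near `s` (a neighbourhood `W` of `s`), and `G u, G' u ∈ W` for `u` near `u0` in `V`. (`IsPreconnected.subset_of_closure_inter_subset`,
or work in the subtype with `isPreconnected_iff_preconnectedSpace` and `IsClopen`.)
`lft`: EXISTENCE. Suggested: the map `p : S → Φᶜ`, `p s = F s` (subtypes) is a covering map. Even covering at `w ∉ Φ`: let
`ball w (3 ρ)` be disjoint from `Φ`; for `s ∈ S` with `F s ∈ ball w ρ` let `g_s` be the branch on `ball (F s) (2 ρ) ∋ w`; the map
`s ↦ (F s, g_s w)` is a homeomorphism of `p⁻¹ (ball w ρ)` onto `ball w ρ × (fibre of w)` (fibre discrete), the inverse is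
`(u, e) ↦ g_e u`; by `lun` the sheets are well defined. Then `IsCoveringMap.existsUnique_continuousMap_lifts` (simply connected,
locally path connected: an open convex set; see `Pool.Agent.H76.SU.LFT.lft` for the use). OR directly, without coverings: path
lifting along the segments from `q` in finitely many steps (`H '' (compact segment)` has a positive distance `3 ρ` to `Φ`), and
local constancy of the result by `lun` on small convex pieces. OR: if `V` is bounded let `V t = q + t (V - q)`, `T` the supremum of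
the `t ≤ 1` such that a lift exists on `V t`, etc. Any proof is welcome.
The lift is holomorphic: near `u0` it equals `g ∘ H`, `g` the branch at `G u0` (by `lun` on a small ball around `u0`).
-/

set_option autoImplicit false

open Filter Topology Metric Set

namespace Pool.Agent.H65.UB

open Pool.Agent.H56.UD

/-- a disc around a value without points of `Φ` -/
private theorem lft_ball {F : ℂ → ℂ} {S Φ : Set ℂ} {θ C : ℝ} (h : LF F S Φ θ C) {w : ℂ} (hw : w ∉ Φ) :
    ∃ ρ : ℝ, 0 < ρ ∧ ∀ u ∈ ball w (3 * ρ), u ∉ Φ := by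
  obtain ⟨ε, hε, hb⟩ := Metric.isOpen_iff.1 h.Pc.isOpen_compl w hw
  refine ⟨ε / 3, by positivity, fun u hu => ?_⟩
  have h1 : 3 * (ε / 3) = ε := by ring
  rw [h1] at hu
  exact hb hu

theorem ld {F : ℂ → ℂ} {S Φ : Set ℂ} {θ C : ℝ} (h : LF F S Φ θ C) {s : ℂ} (hs : s ∈ S) :
    deriv F s ≠ 0 ∧ ∃ W ∈ 𝓝 s, InjOn F W := by
  obtain ⟨ρ, hρ, hb⟩ := lft_ball h (h.Fv s hs)
  obtain ⟨g, hg, hgs, hgu⟩ := h.br s hs (3 * ρ) (by positivity) hb
  have hmem : F s ∈ ball (F s) (3 * ρ) := mem_ball_self (by positivity)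
  have hF : DifferentiableAt ℂ F s := (h.Fd s hs).differentiableAt (h.So.mem_nhds hs)
  have hgd : DifferentiableAt ℂ g (F s) := (hg _ hmem).differentiableAt (isOpen_ball.mem_nhds hmem)
  have hFg : HasDerivAt F (deriv F s) (g (F s)) := by
    rw [hgs]
    exact hF.hasDerivAt
  have hcomp := hFg.comp (F s) hgd.hasDerivAt
  have hid : HasDerivAt (F ∘ g) 1 (F s) := by
    refine (hasDerivAt_id (F s)).congr_of_eventuallyEq ?_
    filter_upwards [isOpen_ball.mem_nhds hmem] with u hu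
    exact (hgu u hu).2
  have hd : deriv F s ≠ 0 := by
    intro h0
    have h1 := hcomp.unique hid
    rw [h0, zero_mul] at h1
    exact zero_ne_one h1
  refine ⟨hd, ?_⟩
  have h1 : AnalyticAt ℂ F s := h.Fd.analyticAt (h.So.mem_nhds hs)
  have h4 := h1.hasStrictDerivAt.hasStrictFDerivAt_equiv hd
  refine ⟨(h4.toOpenPartialHomeomorph F).source,
    (h4.toOpenPartialHomeomorph F).open_source.mem_nhds h4.mem_toOpenPartialHomeomorph_source, ?_⟩
  exact (h4.toOpenPartialHomeomorph F).injOn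

private theorem lft_inj {F : ℂ → ℂ} {S Φ : Set ℂ} {θ C : ℝ} (h : LF F S Φ θ C) :
    IsLocallyInjective (fun s : S => F s) := by
  rw [isLocallyInjective_iff_nhds]
  intro s
  obtain ⟨W, hW, hi⟩ := (ld h s.2).2
  refine ⟨Subtype.val ⁻¹' W, preimage_coe_mem_nhds_subtype.2 (mem_nhdsWithin_of_mem_nhds hW), ?_⟩
  intro a ha b hb hab
  exact Subtype.ext (hi ha hb hab)

theorem lun {F : ℂ → ℂ} {S Φ : Set ℂ} {θ C : ℝ} (h : LF F S Φ θ C) {V : Set ℂ} (hV : IsPreconnected V) {G G' : ℂ → ℂ}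
    (hG : ContinuousOn G V) (hG' : ContinuousOn G' V) (hS : ∀ u ∈ V, G u ∈ S ∧ G' u ∈ S ∧ F (G u) = F (G' u)) {q : ℂ}
    (hq : q ∈ V) (he : G q = G' q) : ∀ u ∈ V, G u = G' u := by
  have hpre : PreconnectedSpace V := isPreconnected_iff_preconnectedSpace.1 hV
  obtain ⟨g, hg⟩ : ∃ g : V → S, g = fun u => ⟨G u, (hS u u.2).1⟩ := ⟨_, rfl⟩
  obtain ⟨g', hg'⟩ : ∃ g' : V → S, g' = fun u => ⟨G' u, (hS u u.2).2.1⟩ := ⟨_, rfl⟩
  have hgc : Continuous g := by
    rw [hg]
    exact Continuous.subtype_mk (continuousOn_iff_continuous_domRestrict.1 hG) _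
  have hgc' : Continuous g' := by
    rw [hg']
    exact Continuous.subtype_mk (continuousOn_iff_continuous_domRestrict.1 hG') _
  have hsep : IsSeparatedMap (fun s : S => F s) := T2Space.isSeparatedMap _
  have h1 : g = g' := hsep.eq_of_comp_eq (lft_inj h) hgc hgc' (by
    funext u
    rw [hg, hg']
    exact (hS u u.2).2.2) ⟨q, hq⟩ (by
    rw [hg, hg']
    exact Subtype.ext he)
  intro u hu
  have h2 := congrFun h1 ⟨u, hu⟩
  rw [hg, hg'] at h2
  exact congrArg Subtype.val h2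

private theorem lft_cov {F : ℂ → ℂ} {S Φ : Set ℂ} {θ C : ℝ} (h : LF F S Φ θ C) :
    IsCoveringMapOn (fun s : S => F s) Φᶜ := by
  intro w hw
  obtain ⟨ρ, hρ, hb⟩ := lft_ball h hw
  have hcont : Continuous (fun s : S => F s) :=
    continuousOn_iff_continuous_domRestrict.1 h.Fd.continuousOn
  -- the branches at the points of the fibre
  have hbr : ∀ e : (fun s : S => F s) ⁻¹' {w}, ∃ g : ℂ → ℂ, ContinuousOn g (ball w ρ) ∧ g w = e.1 ∧
      ∀ u ∈ ball w ρ, g u ∈ S ∧ F (g u) = u := by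
    intro e
    have he : F e.1 = w := e.2
    obtain ⟨g, hg, hgs, hgu⟩ := h.br e.1 e.1.2 ρ hρ (by
      intro u hu
      rw [he] at hu
      exact hb u (ball_subset_ball (by linarith) hu))
    rw [he] at hg hgs hgu
    exact ⟨g, hg.continuousOn, hgs, hgu⟩
  choose g hgc hgw hgu using hbr
  have hpc : IsPreconnected (ball w ρ) := (convex_ball w ρ).isPreconnected
  have hwm : w ∈ ball w ρ := mem_ball_self hρ
  by_cases hne : IsEmpty ((fun s : S => F s) ⁻¹' {w})
  · exfalso
    obtain ⟨s, hs, hsw⟩ := h.onto w hw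
    exact hne.false ⟨⟨s, hs⟩, hsw⟩
  rw [not_isEmpty_iff] at hne
  obtain ⟨s₀, hs₀⟩ := h.Sc.nonempty
  have : Nonempty (ℂ → S) := ⟨fun _ => ⟨s₀, hs₀⟩⟩
  have hdis : DiscreteTopology ((fun s : S => F s) ⁻¹' {w}) := by
    refine (isDiscrete_iff_forall_mem_exists_isOpen.mpr fun e he => ?_).1
    obtain ⟨U, hU, heU, hi⟩ := lft_inj h e
    refine ⟨U, hU, subset_antisymm ?_ (singleton_subset_iff.2 ⟨heU, he⟩)⟩
    rintro e' ⟨h1, h2⟩
    exact hi h1 heU (Eq.trans h2 (Eq.symm he))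
  obtain ⟨U, hU⟩ : ∃ U : (fun s : S => F s) ⁻¹' {w} → Set S, ∀ e s, s ∈ U e ↔ (F s ∈ ball w ρ ∧ g e (F s) = s) :=
    ⟨fun e => {s | F s ∈ ball w ρ ∧ g e (F s) = s}, fun e s => Iff.rfl⟩
  have hUo : ∀ e, IsOpen (U e) := by
    intro e
    rw [isOpen_iff_mem_nhds]
    intro s hs
    rw [hU] at hs
    obtain ⟨O, hO, hsO, hi⟩ := lft_inj h s
    obtain ⟨O', hO', hOO'⟩ := isOpen_induced_iff.1 hO
    have h1 : ∀ᶠ s' : S in 𝓝 s, F s' ∈ ball w ρ := hcont.continuousAt.eventually_mem (isOpen_ball.mem_nhds hs.1)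
    have h2 : ∀ᶠ s' : S in 𝓝 s, s' ∈ O := hO.mem_nhds hsO
    have h3 : ContinuousAt (fun s' : S => g e (F s')) s :=
      ContinuousAt.comp (f := fun s' : S => F s') ((hgc e).continuousAt (isOpen_ball.mem_nhds hs.1)) hcont.continuousAt
    have h4 : ∀ᶠ s' : S in 𝓝 s, g e (F s') ∈ O' := h3.eventually_mem (by
      have h5 : (s : ℂ) ∈ O' := by
        rw [← hOO'] at hsO
        exact hsO
      show O' ∈ 𝓝 (g e (F s))
      rw [hs.2]
      exact hO'.mem_nhds h5)
    filter_upwards [h1, h2, h4] with s' h5 h6 h7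
    rw [hU]
    refine ⟨h5, ?_⟩
    obtain ⟨h8, h9⟩ := hgu e _ h5
    have h10 : (⟨g e (F s'), h8⟩ : S) ∈ O := by
      rw [← hOO']
      exact h7
    exact congrArg Subtype.val (hi h10 h6 h9)
  have hinj : ∀ e, (U e).InjOn (fun s : S => F s) := by
    intro e a ha b hb hab
    rw [hU] at ha hb
    have hab' : F a = F b := hab
    exact Subtype.ext (ha.2.symm.trans ((congrArg (g e) hab').trans hb.2))
  have hmk : ∀ e u (hu : u ∈ ball w ρ), (⟨g e u, (hgu e u hu).1⟩ : S) ∈ U e := by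
    intro e u hu
    rw [hU]
    obtain ⟨h1, h2⟩ := hgu e u hu
    refine ⟨?_, ?_⟩
    · show F (g e u) ∈ ball w ρ
      rw [h2]
      exact hu
    · show g e (F (g e u)) = g e u
      rw [h2]
  refine IsEvenlyCovered.of_trivialization (t := IsOpen.trivializationDiscrete (f := fun s : S => F s) U
    (ball w ρ) isOpen_ball ?_ hinj ?_ ?_ ?_) hwm
  · intro e W hW
    constructor
    · intro hWo
      exact (hWo.preimage hcont).inter (hUo e)
    · intro hWo
      obtain ⟨O', hO', hOO'⟩ := isOpen_induced_iff.1 hWo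
      have h1 : W = ball w ρ ∩ g e ⁻¹' O' := by
        ext u
        constructor
        · intro hu
          refine ⟨hW hu, ?_⟩
          have h2 : (⟨g e u, (hgu e u (hW hu)).1⟩ : S) ∈ (fun s : S => F s) ⁻¹' W ∩ U e := by
            refine ⟨?_, hmk e u (hW hu)⟩
            show F (g e u) ∈ W
            rw [(hgu e u (hW hu)).2]
            exact hu
          rw [← hOO'] at h2
          exact h2
        · rintro ⟨hu, hu'⟩
          have h2 : (⟨g e u, (hgu e u hu).1⟩ : S) ∈ Subtype.val ⁻¹' O' := hu'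
          rw [hOO'] at h2
          have h3 : F (g e u) ∈ W := h2.1
          rw [(hgu e u hu).2] at h3
          exact h3
      rw [h1]
      exact (hgc e).isOpen_inter_preimage isOpen_ball hO'
  · intro e u hu
    exact ⟨_, hmk e u hu, (hgu e u hu).2⟩
  · intro e e' hee'
    show Disjoint (U e) (U e')
    rw [Set.disjoint_left]
    intro s hs hs'
    rw [hU] at hs hs'
    apply hee'
    have h1 := lun h hpc (hgc e) (hgc e') (fun u hu => ⟨(hgu e u hu).1, (hgu e' u hu).1,
      (hgu e u hu).2.trans (hgu e' u hu).2.symm⟩) hs.1 (hs.2.trans hs'.2.symm) w hwm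
    rw [hgw, hgw] at h1
    exact Subtype.ext (Subtype.ext h1)
  · intro s hs
    have hs' : F s ∈ ball w ρ := hs
    have hsw : w ∈ ball (F s) (2 * ρ) := by
      rw [mem_ball'] at *
      linarith [mem_ball.1 hs, dist_comm w (F s)]
    obtain ⟨g₁, hg₁, hg₁s, hg₁u⟩ := h.br s s.2 (2 * ρ) (by positivity) (by
      intro u hu
      apply hb
      rw [mem_ball] at hu hs' ⊢
      have := dist_triangle u (F s) w
      linarith)
    obtain ⟨h1, h2⟩ := hg₁u w hsw
    obtain ⟨e, he⟩ : ∃ e : (fun s : S => F s) ⁻¹' {w}, (e.1 : ℂ) = g₁ w := ⟨⟨⟨g₁ w, h1⟩, h2⟩, rfl⟩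
    rw [mem_iUnion]
    refine ⟨e, ?_⟩
    rw [hU]
    refine ⟨hs', ?_⟩
    have hsub : ball w ρ ⊆ ball (F s) (2 * ρ) := by
      intro u hu
      rw [mem_ball] at hu hs' ⊢
      have := dist_triangle u w (F s)
      have := dist_comm w (F s)
      linarith
    have h3 := lun h hpc (hgc e) (hg₁.continuousOn.mono hsub) (fun u hu => ⟨(hgu e u hu).1,
      (hg₁u u (hsub hu)).1, (hgu e u hu).2.trans (hg₁u u (hsub hu)).2.symm⟩) hwm
      ((hgw e).trans he) (F s) hs'
    rw [h3, hg₁s]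

theorem lft {F : ℂ → ℂ} {S Φ : Set ℂ} {θ C : ℝ} (h : LF F S Φ θ C) {V : Set ℂ} (hV : IsOpen V) (hc : Convex ℝ V) {H : ℂ → ℂ}
    (hH : DifferentiableOn ℂ H V) (hn : ∀ u ∈ V, H u ∉ Φ) {q s : ℂ} (hq : q ∈ V) (hs : s ∈ S) (he : F s = H q) :
    ∃ G : ℂ → ℂ, DifferentiableOn ℂ G V ∧ G q = s ∧ ∀ u ∈ V, G u ∈ S ∧ F (G u) = H u := by
  have : ContractibleSpace V := hc.contractibleSpace ⟨q, hq⟩
  have : LocallyPathConnectedSpace V := hV.locallyPathConnectedSpace
  obtain ⟨ι, hι⟩ : ∃ ι : C(V, ℂ), ∀ w, ι w = H w :=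
    ⟨⟨fun w => H w, continuousOn_iff_continuous_domRestrict.1 hH.continuousOn⟩, fun w => rfl⟩
  obtain ⟨G0, ⟨hG1, hG2⟩, -⟩ := (lft_cov h).existsUnique_continuousMap_lifts ι
    (a₀ := ⟨q, hq⟩) (e₀ := ⟨s, hs⟩) (by rw [hι]; exact he) (fun a => by
      rw [hι]
      exact hn a a.2)
  classical
  obtain ⟨G, hG⟩ : ∃ G : ℂ → ℂ, ∀ w (hw : w ∈ V), G w = (G0 ⟨w, hw⟩ : ℂ) :=
    ⟨fun w => if hw : w ∈ V then (G0 ⟨w, hw⟩ : ℂ) else 0, fun w hw => dif_pos hw⟩
  have hmem : ∀ w ∈ V, G w ∈ S ∧ F (G w) = H w := by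
    intro w hw
    rw [hG w hw]
    refine ⟨(G0 ⟨w, hw⟩).2, ?_⟩
    have h1 := congrFun hG2 ⟨w, hw⟩
    rw [hι] at h1
    exact h1
  have hcont : ContinuousOn G V := by
    rw [continuousOn_iff_continuous_domRestrict]
    have h1 : V.domRestrict G = fun w => (G0 w : ℂ) := by
      funext w
      exact hG w.1 w.2
    rw [h1]
    exact continuous_subtype_val.comp G0.continuous
  refine ⟨G, ?_, ?_, hmem⟩
  · intro u hu
    have hn : V ∈ 𝓝 u := hV.mem_nhds hu
    obtain ⟨hGS, hFG⟩ := hmem u hu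
    obtain ⟨ρ, hρ, hb⟩ := lft_ball h (h.Fv _ hGS)
    obtain ⟨g, hg, hgs, hgu⟩ := h.br _ hGS (3 * ρ) (by positivity) hb
    obtain ⟨-, W, hW, hi⟩ := ld h hGS
    have hball : ball (F (G u)) (3 * ρ) ∈ 𝓝 (H u) := by
      rw [hFG]
      exact ball_mem_nhds _ (by positivity)
    have hHc : ContinuousAt H u := (hH.differentiableAt hn).continuousAt
    have hHu : H u ∈ ball (F (G u)) (3 * ρ) := mem_of_mem_nhds hball
    have hgd : DifferentiableAt ℂ g (H u) := (hg _ hHu).differentiableAt (isOpen_ball.mem_nhds hHu)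
    have hgH : DifferentiableAt ℂ (g ∘ H) u := hgd.comp u (hH.differentiableAt hn)
    have hgHu : (g ∘ H) u = G u := by
      show g (H u) = G u
      rw [← hFG, hgs]
    have h1 : ∀ᶠ u' in 𝓝 u, G u' = (g ∘ H) u' := by
      have hW1 : ∀ᶠ u' in 𝓝 u, G u' ∈ W := (hcont.continuousAt hn).eventually_mem hW
      have hW2 : ∀ᶠ u' in 𝓝 u, (g ∘ H) u' ∈ W := hgH.continuousAt.eventually_mem (by
        rw [hgHu]
        exact hW)
      filter_upwards [hW1, hW2, hn, hHc.eventually_mem hball] with u' h2 h3 h4 h5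
      refine hi h2 h3 ?_
      rw [(hmem u' h4).2]
      exact (hgu _ h5).2.symm
    exact (hgH.congr_of_eventuallyEq h1).differentiableWithinAt
  · rw [hG _ hq, hG1]

end Pool.Agent.H65.UB
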