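import Pool.Agent.H65.UB.Dex

/-!
# Limit frames: Liouville

`B`, `D` of `dd`, `Dh` of `dh`. `bd`: `B' = B / c`, `c` the constant of `gd_dist`. For a gap disc `ψ` at `(0, r)` and `‖u‖ = √θ`: `w = ψ u`, `ball w (c r) ⊆ ψ '' An θ`
is disjoint from `Φ`, so `c r ‖D w‖ ≤ B`, and `‖w‖ < r`: `‖w * Dh w‖ ≤ B / c` on the curve. For `w ≠ 0` take `ψ1` at `(0, ‖w‖)` and `ψ2` at `(0, 2 C ‖w‖)`,
`U = ψ2 '' ball 0 √θ \ ψ1 '' closedBall 0 √θ`: open, bounded, `w ∈ U` (`ψ1 '' ball 0 1 ⊆ ball 0 ‖w‖`; `w ∈ ball 0 (2 ‖w‖) ⊆ ψ2 '' ball 0 θ`), the closure is in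
`ψ2 '' closedBall 0 √θ` and disjoint from the open set `ψ1 '' ball 0 √θ ∋ 0` (`gd_mid`), the frontier is in the union of the two curves (`gd_fr`). The function
`v ↦ v * Dh v` is holomorphic near the closure of `U` (`0` is not in it): `Complex.norm_le_of_forall_mem_frontier_norm_le`.
`lv`: `u w = w * Dh w` is bounded on `ℂ \ {0}`, so it extends to an entire function (`Complex.differentiableOn_update_limUnder_of_bddAbove` with `s = univ`),
bounded, so constant `= κ` (Liouville, `Differentiable.apply_eq_apply_of_bounded`). `κ ≠ 0`: `D (F s) * deriv F s = 1`, `F s ≠ 0` (`0 ∈ Φ`). So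
`deriv F s = 1 / D (F s) = F s / κ`.
-/

set_option autoImplicit false

open Filter Topology Metric Set

namespace Pool.Agent.H65.UB

open Pool.Agent.H56.UD

private theorem sq_bds {θ : ℝ} (h0 : 0 < θ) (h1 : θ < 1) : θ < √θ ∧ √θ < 1 ∧ 0 < √θ := by
  have h2 : 0 < √θ := Real.sqrt_pos.2 h0
  have h3 : √θ < 1 := by rw [Real.sqrt_lt' one_pos]; linarith
  refine ⟨?_, h3, h2⟩
  have h4 : √θ * √θ = θ := Real.mul_self_sqrt h0.le
  nlinarith

theorem bd {F : ℂ → ℂ} {S Φ : Set ℂ} {θ C : ℝ} (h : LF F S Φ θ C) {B : ℝ} {D Dh : ℂ → ℂ}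
    (hB : ∀ (w : ℂ) (ρ : ℝ), 0 < ρ → (∀ u ∈ ball w ρ, u ∉ Φ) → ρ * ‖D w‖ ≤ B) (hDh : DifferentiableOn ℂ Dh {0}ᶜ)
    (he : ∀ w : ℂ, w ∉ Φ → Dh w = D w) : ∃ B' : ℝ, ∀ w : ℂ, w ≠ 0 → ‖w * Dh w‖ ≤ B' := by
  obtain ⟨c, hc, hdist⟩ := gd_dist h.θ0 h.θ1 h.C1
  obtain ⟨hs1, hs2, hs0⟩ := sq_bds h.θ0 h.θ1
  have hCp : 0 < C := lt_of_lt_of_le one_pos h.C1
  have hcurve : ∀ (r : ℝ) (ψ : ℂ → ℂ), 0 < r → GD θ C Φ 0 r ψ → ∀ u : ℂ, ‖u‖ = √θ →
      ‖ψ u * Dh (ψ u)‖ ≤ B / c := by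
    intro r ψ hr hψ u hu
    have h1 : ψ u ∉ Φ := hψ.col u (by rw [hu]; exact hs1) (by rw [hu]; exact hs2)
    have h2 := hB (ψ u) (c * r) (by positivity) (fun v hv => by
      obtain ⟨v', hv', rfl⟩ := hdist Φ 0 r ψ hr hψ u hu hv
      exact hψ.col v' hv'.1 hv'.2)
    have h3 := (gd_far hψ h.θ1 (by rw [hu]; exact hs1.le) (by rw [hu]; exact hs2)).2
    rw [sub_zero] at h3
    rw [norm_mul, he _ h1, le_div_iff₀ hc]
    calc ‖ψ u‖ * ‖D (ψ u)‖ * c ≤ r * ‖D (ψ u)‖ * c := by gcongr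
      _ = c * r * ‖D (ψ u)‖ := by ring
      _ ≤ B := h2
  refine ⟨B / c, fun w hw => ?_⟩
  have hwp : 0 < ‖w‖ := norm_pos_iff.2 hw
  have hr2 : 0 < 2 * C * ‖w‖ := by positivity
  obtain ⟨ψ1, hψ1⟩ := h.gp 0 h.P0 ‖w‖ hwp
  obtain ⟨ψ2, hψ2⟩ := h.gp 0 h.P0 (2 * C * ‖w‖) hr2
  obtain ⟨U, hU⟩ : ∃ U : Set ℂ, U = ψ2 '' ball 0 (√θ) \ ψ1 '' closedBall 0 (√θ) := ⟨_, rfl⟩
  have hk1 := gd_cl hψ1 hs2
  have hk2 := gd_cl hψ2 hs2
  have ho2 : IsOpen (ψ2 '' ball 0 (√θ)) := gd_open hψ2 isOpen_ball (ball_subset_ball hs2.le)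
  have ho1 : IsOpen (ψ1 '' ball 0 (√θ)) := gd_open hψ1 isOpen_ball (ball_subset_ball hs2.le)
  have hUo : IsOpen U := by rw [hU]; exact ho2.sdiff hk1.isClosed
  have hcl : closure U ⊆ ψ2 '' closedBall 0 (√θ) \ ψ1 '' ball 0 (√θ) := by
    have hcc : IsClosed (ψ2 '' closedBall 0 (√θ) \ ψ1 '' ball 0 (√θ)) := hk2.isClosed.sdiff ho1
    refine closure_minimal ?_ hcc
    rw [hU]
    rintro v ⟨hv1, hv2⟩
    exact ⟨image_mono ball_subset_closedBall hv1, fun hv => hv2 (image_mono ball_subset_closedBall hv)⟩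
  have h0 : ∀ v ∈ closure U, v ≠ 0 := by
    rintro v hv rfl
    refine (hcl hv).2 ?_
    obtain ⟨a, ha, ha0⟩ := gd_mid hψ1 h.C1 hwp
    exact ⟨a, by rw [mem_ball_zero_iff]; linarith, ha0⟩
  have hUb : Bornology.IsBounded U := by
    refine hk2.isBounded.subset ?_
    intro v hv
    exact (hcl (subset_closure hv)).1
  have hd : DiffContOnCl ℂ (fun v => v * Dh v) U := by
    refine DifferentiableOn.diffContOnCl ?_
    intro v hv
    have h1 : DifferentiableAt ℂ Dh v := hDh.differentiableAt (isOpen_compl_singleton.mem_nhds (h0 v hv))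
    exact (differentiableAt_id.mul h1).differentiableWithinAt
  have hfr : ∀ v ∈ frontier U, ‖v * Dh v‖ ≤ B / c := by
    intro v hv
    have hvc : v ∈ closure U := frontier_subset_closure hv
    have hvU : v ∉ U := by
      rw [hUo.frontier_eq] at hv
      exact hv.2
    obtain ⟨⟨u, hu, huv⟩, hv2⟩ := hcl hvc
    rw [mem_closedBall_zero_iff] at hu
    rcases hu.lt_or_eq with hlt | heq
    · have h3 : v ∈ ψ1 '' closedBall 0 (√θ) := by
        by_contra hcon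
        exact hvU (by rw [hU]; exact ⟨⟨u, by rwa [mem_ball_zero_iff], huv⟩, hcon⟩)
      obtain ⟨u', hu', huv'⟩ := h3
      rw [mem_closedBall_zero_iff] at hu'
      rcases hu'.lt_or_eq with hlt' | heq'
      · exact absurd ⟨u', by rwa [mem_ball_zero_iff], huv'⟩ hv2
      · rw [← huv']
        exact hcurve _ ψ1 hwp hψ1 u' heq'
    · rw [← huv]
      exact hcurve _ ψ2 hr2 hψ2 u heq
  refine Complex.norm_le_of_forall_mem_frontier_norm_le hUb hd hfr (subset_closure ?_)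
  rw [hU]
  refine ⟨?_, ?_⟩
  · have h1 : w ∈ ball (0 : ℂ) (2 * C * ‖w‖ / C) := by
      rw [mem_ball_zero_iff]
      have : 2 * C * ‖w‖ / C = 2 * ‖w‖ := by field_simp
      rw [this]; linarith
    exact image_mono (ball_subset_ball hs1.le) (hψ2.inn h1)
  · rintro ⟨u, hu, huw⟩
    have h1 : ψ1 u ∈ ball (0 : ℂ) ‖w‖ :=
      hψ1.out ⟨u, closedBall_subset_ball hs2 hu, rfl⟩
    rw [huw, mem_ball_zero_iff] at h1
    exact lt_irrefl _ h1

theorem lv {F : ℂ → ℂ} {S Φ : Set ℂ} {θ C : ℝ} (h : LF F S Φ θ C) :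
    ∃ κ : ℂ, κ ≠ 0 ∧ (∀ s ∈ S, deriv F s = F s / κ) ∧ ∀ t c, Dk F S t c → t = 1 := by
  obtain ⟨B, D, hDd, hD, ht, hB⟩ := dd h
  obtain ⟨Dh, hDh, he⟩ := dh h hDd hD
  obtain ⟨B', hB'⟩ := bd h hB hDh he
  obtain ⟨u, hu⟩ : ∃ u : ℂ → ℂ, u = fun w => w * Dh w := ⟨_, rfl⟩
  have hd : DifferentiableOn ℂ u (univ \ {0}) := by
    rw [hu]
    intro v hv
    have h1 : DifferentiableAt ℂ Dh v := hDh.differentiableAt (isOpen_compl_singleton.mem_nhds hv.2)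
    exact (differentiableAt_id.mul h1).differentiableWithinAt
  have hb : BddAbove (norm ∘ u '' (univ \ {0})) := by
    refine ⟨B', ?_⟩
    rintro _ ⟨v, hv, rfl⟩
    simp only [Function.comp_apply, hu]
    exact hB' v hv.2
  have h1 := Complex.differentiableOn_update_limUnder_of_bddAbove (c := 0) univ_mem hd hb
  rw [differentiableOn_univ] at h1
  obtain ⟨U, hU⟩ : ∃ U : ℂ → ℂ, U = Function.update u 0 (limUnder (𝓝[≠] 0) u) := ⟨_, rfl⟩
  rw [← hU] at h1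
  have hUe : ∀ w : ℂ, w ≠ 0 → U w = w * Dh w := by
    intro w hw
    rw [hU, Function.update_of_ne hw, hu]
  have hbd : Bornology.IsBounded (range U) := by
    rw [isBounded_iff_forall_norm_le]
    refine ⟨max B' ‖U 0‖, ?_⟩
    rintro _ ⟨w, rfl⟩
    by_cases hw : w = 0
    · rw [hw]; exact le_max_right _ _
    · rw [hUe w hw]; exact (hB' w hw).trans (le_max_left _ _)
  have hconst := h1.apply_eq_apply_of_bounded hbd
  have hκ : ∀ s ∈ S, F s * D (F s) = U 0 := by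
    intro s hs
    have h2 := h.Fv s hs
    have h3 : F s ≠ 0 := fun h4 => h2 (h4 ▸ h.P0)
    rw [← he _ h2, ← hUe _ h3]
    exact hconst _ _
  obtain ⟨s0, hs0⟩ := h.Sc.nonempty
  have hne : U 0 ≠ 0 := by
    rw [← hκ s0 hs0]
    refine mul_ne_zero (fun h4 => h.Fv s0 hs0 (h4 ▸ h.P0)) (left_ne_zero_of_mul_eq_one (hD s0 hs0))
  refine ⟨U 0, hne, fun s hs => ?_, ht⟩
  have h5 := hκ s hs
  have h6 := hD s hs
  rw [eq_div_iff hne, ← h5]
  calc deriv F s * (F s * D (F s)) = F s * (D (F s) * deriv F s) := by ring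
    _ = F s := by rw [h6, mul_one]

end Pool.Agent.H65.UB
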