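import Mathlib
import Pool.Agent.H80.AJ.Distort

/-!
# Winding numbers of holomorphic curves

`nn h ρ e` is `2 π i` times the winding number of the curve `h (‖u‖ = ρ)` around `e`.

`nn_loc`: `(h - e') / (h - e) = 1 + (e - e') / (h - e)` is in `ball 1 1`, so in the slit plane, on the circle and (by continuity)
near each point of the circle; `Complex.log` of it has derivative `deriv h / (h - e') - deriv h / (h - e)` at the points of the
circle; so the circle integral of the difference is `0` (`circleIntegral.integral_eq_zero_of_hasDerivWithinAt`); both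
integrands are circle integrable (continuous on the sphere).
`nn_far`: the same with `1 - h / e` (its logarithm has the derivative `deriv h / (h - e)`).
`nn_con`: the map `w ↦ nn h ρ (E w)` is locally constant on the preconnected set `A`: for `w0 ∈ A` the distance of `E w0` to the compact
set `h '' sphere 0 ρ` is positive, `E` is continuous at `w0` within `A`, `nn_loc`. (`IsPreconnected.constant_of_mapsTo` or the
subtype `A`: `IsLocallyConstant`, `PreconnectedSpace`.)
`nn_ann`: no value `e` in the closed annulus: `u ↦ deriv h u / (h u - e) * u` is differentiable there;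
`Complex.circleIntegral_sub_center_inv_smul_eq_of_differentiable_on_annulus_off_countable`.
`nn_res`: a zero at `a`, `ρ1 < ‖a‖ < ρ2`: `h u - h a = (u - a) k u`, `k = dslope h a` is holomorphic on the annulus `{θ < ‖u‖ < 1}` and has
no zeros there (`h` injective, so also `deriv h a ≠ 0`); `deriv h u / (h u - h a) = 1 / (u - a) + deriv k u / k u` on the circles;
the second term has equal integrals over both circles (as in `nn_ann`); the first one has the integral `2 π i` over the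
outer circle (`circleIntegral.integral_sub_inv_of_mem_ball`) and `0` over the inner one (holomorphic in the closed disc).
`nn_jump`: let `‖a‖ < ρ < ‖b‖`. Put `p = ρ` (a point of the circle), `ρ1`, `ρ2` with `‖a‖, θ < ρ1 < ρ < ρ2 < ‖b‖`. `nn_con` on the
annulus `{θ < ‖u‖ < ρ2}` (`E = h`): `nn h ρ2 (h a) = nn h ρ2 (h p)`; `nn_ann`: `nn h ρ (h a) = nn h ρ2 (h a)`; in the same way
`nn h ρ (h b) = nn h ρ1 (h b) = nn h ρ1 (h p)`; `nn_res` for `p`. (The annuli are preconnected: images of convex sets under `exp`.)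
`nn_one`: `h` holomorphic and injective in the unit disc: `deriv h u / (h u - h a) = 1 / (u - a) + deriv k u / k u`, `k` without
zeros in the unit disc: integral `2 π i + 0`.
`nn_lift`: fundamental theorem of calculus: `∮ = ∫_0^{2π} (deriv h / (h - e)) (ρ e^(i t)) i ρ e^(i t) dt` and the integrand is the derivative of
`t ↦ Q (log ρ + i t)`: differentiate `exp (Q ζ) = h (exp ζ) - e` near `ζ = log ρ + i t`.
-/

set_option autoImplicit false

open Filter Topology Metric Set

namespace Pool.Agent.H65.UB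

noncomputable def nn (h : ℂ → ℂ) (ρ : ℝ) (e : ℂ) : ℂ := ∮ u in C(0, ρ), deriv h u / (h u - e)

private theorem ig_cont {h : ℂ → ℂ} {ρ : ℝ} (hh : ∀ u ∈ sphere (0 : ℂ) ρ, AnalyticAt ℂ h u) {e : ℂ}
    (he : ∀ u ∈ sphere (0 : ℂ) ρ, h u ≠ e) :
    ContinuousOn (fun u => deriv h u / (h u - e)) (sphere (0 : ℂ) ρ) := by
  intro u hu
  refine ContinuousAt.continuousWithinAt ?_
  exact (hh u hu).deriv.continuousAt.div ((hh u hu).continuousAt.sub continuousAt_const)
    (sub_ne_zero.2 (he u hu))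

theorem nn_loc {h : ℂ → ℂ} {ρ : ℝ} (hρ : 0 < ρ) (hh : ∀ u ∈ sphere (0 : ℂ) ρ, AnalyticAt ℂ h u) {e e' : ℂ}
    (he : ∀ u ∈ sphere (0 : ℂ) ρ, ‖e - e'‖ < ‖h u - e‖) : nn h ρ e = nn h ρ e' := by
  have h1 : ∀ u ∈ sphere (0 : ℂ) ρ, h u ≠ e := by
    intro u hu h0
    have h2 := he u hu
    rw [h0, sub_self, norm_zero] at h2
    exact absurd h2 (not_lt.2 (norm_nonneg _))
  have h2 : ∀ u ∈ sphere (0 : ℂ) ρ, h u ≠ e' := by
    intro u hu h0
    have h2 := he u hu
    rw [h0, norm_sub_rev] at h2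
    exact absurd h2 (lt_irrefl _)
  have hi1 := (ig_cont hh h1).circleIntegrable hρ.le
  have hi2 := (ig_cont hh h2).circleIntegrable hρ.le
  have h3 : (∮ u in C(0, ρ), (deriv h u / (h u - e') - deriv h u / (h u - e))) = 0 := by
    refine circleIntegral.integral_eq_zero_of_hasDerivWithinAt hρ.le
      (f := fun u => Complex.log ((h u - e') / (h u - e))) fun u hu => ?_
    have hd : HasDerivAt h (deriv h u) u := (hh u hu).differentiableAt.hasDerivAt
    have hn1 : h u - e ≠ 0 := sub_ne_zero.2 (h1 u hu)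
    have hn2 : h u - e' ≠ 0 := sub_ne_zero.2 (h2 u hu)
    have hs : (h u - e') / (h u - e) ∈ Complex.slitPlane := by
      have h4 : (h u - e') / (h u - e) = 1 + (e - e') / (h u - e) := by
        field_simp
        ring
      rw [h4]
      refine Complex.mem_slitPlane_of_norm_lt_one ?_
      rw [norm_div, div_lt_one (norm_pos_iff.2 hn1)]
      exact he u hu
    have h5 := ((hd.sub_const e').div (hd.sub_const e) hn1).clog hs
    refine (h5.congr_deriv ?_).hasDerivWithinAt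
    rw [Pi.div_apply]
    field_simp
  rw [circleIntegral.integral_sub hi2 hi1, sub_eq_zero] at h3
  exact h3.symm

theorem nn_far {h : ℂ → ℂ} {ρ : ℝ} (hρ : 0 < ρ) (hh : ∀ u ∈ sphere (0 : ℂ) ρ, AnalyticAt ℂ h u) {e : ℂ}
    (he : ∀ u ∈ sphere (0 : ℂ) ρ, ‖h u‖ < ‖e‖) : nn h ρ e = 0 := by
  refine circleIntegral.integral_eq_zero_of_hasDerivWithinAt hρ.le
    (f := fun u => Complex.log (1 - h u / e)) fun u hu => ?_
  have hd : HasDerivAt h (deriv h u) u := (hh u hu).differentiableAt.hasDerivAt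
  have he1 := he u hu
  have he0 : e ≠ 0 := by
    rintro rfl
    rw [norm_zero] at he1
    exact absurd he1 (not_lt.2 (norm_nonneg _))
  have hn : h u - e ≠ 0 := by
    intro h0
    rw [sub_eq_zero.1 h0] at he1
    exact lt_irrefl _ he1
  have hs : 1 - h u / e ∈ Complex.slitPlane := by
    rw [sub_eq_add_neg]
    refine Complex.mem_slitPlane_of_norm_lt_one ?_
    rw [norm_neg, norm_div, div_lt_one (norm_pos_iff.2 he0)]
    exact he1
  have h5 := ((hd.div_const e).const_sub 1).clog hs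
  refine (h5.congr_deriv ?_).hasDerivWithinAt
  have h6 : 1 - h u / e = -(h u - e) / e := by
    field_simp
    ring
  rw [h6]
  field_simp

theorem nn_con {h : ℂ → ℂ} {ρ : ℝ} (hρ : 0 < ρ) (hh : ∀ u ∈ sphere (0 : ℂ) ρ, AnalyticAt ℂ h u) {A : Set ℂ}
    (hA : IsPreconnected A) {E : ℂ → ℂ} (hE : ContinuousOn E A) (hn : ∀ w ∈ A, ∀ u ∈ sphere (0 : ℂ) ρ, h u ≠ E w) {w w' : ℂ}
    (hw : w ∈ A) (hw' : w' ∈ A) : nn h ρ (E w) = nn h ρ (E w') := by
  refine hA.induction₂ (fun x y => nn h ρ (E x) = nn h ρ (E y)) ?_ (fun x y z _ _ _ h1 h2 => h1.trans h2)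
    (fun x y _ _ h1 => h1.symm) hw hw'
  intro x hx
  have hc : ContinuousOn (fun u => ‖h u - E x‖) (sphere (0 : ℂ) ρ) := fun u hu =>
    (((hh u hu).continuousAt.sub continuousAt_const).norm).continuousWithinAt
  obtain ⟨u0, hu0, hmin⟩ := (isCompact_sphere (0 : ℂ) ρ).exists_isMinOn
    (NormedSpace.sphere_nonempty.2 hρ.le) hc
  have hm : 0 < ‖h u0 - E x‖ := norm_pos_iff.2 (sub_ne_zero.2 (hn x hx u0 hu0))
  have h1 : ∀ᶠ y in 𝓝[A] x, ‖E y - E x‖ < ‖h u0 - E x‖ := by
    have h2 := (hE x hx).eventually (ball_mem_nhds (E x) hm)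
    filter_upwards [h2] with y hy
    exact mem_ball_iff_norm.1 hy
  filter_upwards [h1] with y hy
  refine nn_loc hρ hh fun u hu => ?_
  rw [norm_sub_rev]
  exact hy.trans_le (isMinOn_iff.1 hmin u hu)

private theorem ann_pre {r R : ℝ} (hr : 0 < r) (hR : 0 < R) : IsPreconnected {u : ℂ | r < ‖u‖ ∧ ‖u‖ < R} := by
  have h1 : {u : ℂ | r < ‖u‖ ∧ ‖u‖ < R} =
      Complex.exp '' ({ζ : ℂ | Real.log r < ζ.re} ∩ {ζ : ℂ | ζ.re < Real.log R}) := by
    ext u
    constructor
    · rintro ⟨h1, h2⟩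
      have h0 : u ≠ 0 := by
        rintro rfl
        rw [norm_zero] at h1
        linarith
      refine ⟨Complex.log u, ⟨?_, ?_⟩, Complex.exp_log h0⟩
      · change Real.log r < (Complex.log u).re
        rw [Complex.log_re]
        exact Real.log_lt_log hr h1
      · change (Complex.log u).re < Real.log R
        rw [Complex.log_re]
        exact Real.log_lt_log (hr.trans h1) h2
    · rintro ⟨ζ, ⟨h1, h2⟩, rfl⟩
      change r < ‖Complex.exp ζ‖ ∧ ‖Complex.exp ζ‖ < R
      rw [Complex.norm_exp]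
      exact ⟨(Real.log_lt_iff_lt_exp hr).1 h1, (Real.lt_log_iff_exp_lt hR).1 h2⟩
  rw [h1]
  exact (((convex_halfSpace_re_gt _).inter (convex_halfSpace_re_lt _)).isPreconnected).image _
    Complex.continuous_exp.continuousOn

private theorem ann_eq {f : ℂ → ℂ} {r R : ℝ} (hr : 0 < r) (hrR : r ≤ R) {s : Set ℂ} (hs : IsOpen s)
    (hsub : ∀ u : ℂ, r ≤ ‖u‖ → ‖u‖ ≤ R → u ∈ s) (hf : DifferentiableOn ℂ f s) :
    (∮ u in C(0, R), f u) = ∮ u in C(0, r), f u := by
  refine Complex.circleIntegral_eq_of_differentiable_on_annulus_off_countable hr hrR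
    Set.countable_empty ?_ ?_
  · rintro u ⟨h1, h2⟩
    rw [mem_closedBall_zero_iff] at h1
    rw [mem_ball_zero_iff, not_lt] at h2
    exact (hf.differentiableAt (hs.mem_nhds (hsub u h2 h1))).continuousAt.continuousWithinAt
  · rintro u ⟨⟨h1, h2⟩, -⟩
    rw [mem_ball_zero_iff] at h1
    rw [mem_closedBall_zero_iff, not_le] at h2
    exact hf.differentiableAt (hs.mem_nhds (hsub u h2.le h1.le))

/-- no value in the annulus -/
private theorem nn_ann {h : ℂ → ℂ} {A : Set ℂ} (hA : IsOpen A) (hd : DifferentiableOn ℂ h A) {r R : ℝ}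
    (hr : 0 < r) (hrR : r ≤ R) {e : ℂ} (hs : ∀ u : ℂ, r ≤ ‖u‖ → ‖u‖ ≤ R → u ∈ A ∧ h u ≠ e) :
    nn h R e = nn h r e := by
  have hO : IsOpen (A ∩ h ⁻¹' {e}ᶜ) := hd.continuousOn.isOpen_inter_preimage hA isOpen_compl_singleton
  refine ann_eq hr hrR hO (fun u h1 h2 => hs u h1 h2) ?_
  rintro u ⟨hu1, hu2⟩
  refine DifferentiableAt.differentiableWithinAt ?_
  exact ((hd.deriv hA).differentiableAt (hA.mem_nhds hu1)).div
    ((hd.differentiableAt (hA.mem_nhds hu1)).sub_const e) (sub_ne_zero.2 hu2)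

private theorem ds_ne {h : ℂ → ℂ} {A : Set ℂ} (hA : IsOpen A) (hd : DifferentiableOn ℂ h A) (hi : InjOn h A) {a : ℂ}
    (ha : a ∈ A) : ∀ u ∈ A, dslope h a u ≠ 0 := by
  intro u hu
  rcases eq_or_ne u a with rfl | hne
  · rw [dslope_same]
    obtain ⟨R, hR, hRA⟩ := Metric.isOpen_iff.1 hA u ha
    exact norm_pos_iff.1 (Pool.Agent.H80.AJ.deriv_ne hR (hd.mono hRA) (hi.mono hRA)
      (mem_closedBall_self (by positivity)))
  · rw [dslope_of_ne h hne, slope_def_module]
    refine smul_ne_zero (inv_ne_zero (sub_ne_zero.2 hne)) (sub_ne_zero.2 fun h0 => hne (hi hu ha h0))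

private theorem nn_dec {h : ℂ → ℂ} {A : Set ℂ} (hA : IsOpen A) (hd : DifferentiableOn ℂ h A) (hi : InjOn h A) {a : ℂ}
    (ha : a ∈ A) {ρ : ℝ} (hρ : 0 < ρ) (hs : ∀ u : ℂ, ‖u‖ = ρ → u ∈ A) (hne : ‖a‖ ≠ ρ) :
    nn h ρ (h a) = (∮ u in C(0, ρ), (u - a)⁻¹) + ∮ u in C(0, ρ), deriv (dslope h a) u / dslope h a u := by
  have hk : DifferentiableOn ℂ (dslope h a) A := (Complex.differentiableOn_dslope (hA.mem_nhds ha)).2 hd
  have hk0 := ds_ne hA hd hi ha
  have h1 : ∀ u ∈ sphere (0 : ℂ) ρ, deriv h u / (h u - h a) =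
      (u - a)⁻¹ + deriv (dslope h a) u / dslope h a u := by
    intro u hu
    rw [mem_sphere_zero_iff_norm] at hu
    have huA := hs u hu
    have hua : u - a ≠ 0 := by
      intro h0
      apply hne
      rw [← sub_eq_zero.1 h0]
      exact hu
    have h2 : ∀ z, h z = h a + (z - a) * dslope h a z := by
      intro z
      have h3 := sub_smul_dslope h a z
      rw [smul_eq_mul] at h3
      rw [h3]
      ring
    have h4 : HasDerivAt h (dslope h a u + (u - a) * deriv (dslope h a) u) u := by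
      have h5 := (hk.differentiableAt (hA.mem_nhds huA)).hasDerivAt
      have h6 := (((hasDerivAt_id u).sub_const a).mul h5).const_add (h a)
      have h7 : h = fun z => h a + (z - a) * dslope h a z := funext h2
      have h8 : HasDerivAt (fun z => h a + (z - a) * dslope h a z)
          (dslope h a u + (u - a) * deriv (dslope h a) u) u := by
        refine h6.congr_deriv ?_
        simp only [id_eq]
        ring
      rwa [← h7] at h8
    have h9 : h u - h a = (u - a) * dslope h a u := by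
      rw [h2 u]
      ring
    rw [h4.deriv, h9]
    have h10 := hk0 u huA
    field_simp
  unfold nn
  rw [circleIntegral.integral_congr hρ.le h1, circleIntegral.integral_add]
  · refine ContinuousOn.circleIntegrable hρ.le fun u hu => ?_
    rw [mem_sphere_zero_iff_norm] at hu
    refine ((continuousAt_id.sub continuousAt_const).inv₀ ?_).continuousWithinAt
    intro h0
    have h2 : u - a = 0 := h0
    apply hne
    rw [← sub_eq_zero.1 h2]
    exact hu
  · refine ContinuousOn.circleIntegrable hρ.le fun u hu => ?_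
    rw [mem_sphere_zero_iff_norm] at hu
    have huA := hA.mem_nhds (hs u hu)
    exact (((hk.deriv hA).differentiableAt huA).continuousAt.div (hk.differentiableAt huA).continuousAt
      (hk0 u (hs u hu))).continuousWithinAt

private theorem nn_res {h : ℂ → ℂ} {A : Set ℂ} (hA : IsOpen A) (hd : DifferentiableOn ℂ h A) (hi : InjOn h A) {a : ℂ}
    (ha : a ∈ A) {r R : ℝ} (hr : 0 < r) (hra : r < ‖a‖) (haR : ‖a‖ < R)
    (hs : ∀ u : ℂ, r ≤ ‖u‖ → ‖u‖ ≤ R → u ∈ A) : nn h R (h a) - nn h r (h a) = 2 * Real.pi * Complex.I := by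
  have hk : DifferentiableOn ℂ (dslope h a) A := (Complex.differentiableOn_dslope (hA.mem_nhds ha)).2 hd
  have hrR : r ≤ R := (hra.trans haR).le
  rw [nn_dec hA hd hi ha (hr.trans (hra.trans haR)) (fun u hu => hs u (by rw [hu]; exact hrR) hu.le) haR.ne,
    nn_dec hA hd hi ha hr (fun u hu => hs u hu.ge (by rw [hu]; exact hrR)) hra.ne']
  have h1 : (∮ u in C(0, R), (u - a)⁻¹) = 2 * Real.pi * Complex.I :=
    circleIntegral.integral_sub_inv_of_mem_ball (mem_ball_zero_iff.2 haR)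
  have h2 : (∮ u in C(0, r), (u - a)⁻¹) = 0 := by
    have hne : ∀ u : ℂ, ‖u‖ ≤ r → u - a ≠ 0 := by
      intro u hu h0
      rw [sub_eq_zero.1 h0] at hu
      linarith
    refine Complex.circleIntegral_eq_zero_of_differentiable_on_off_countable hr.le Set.countable_empty ?_ ?_
    · intro u hu
      rw [mem_closedBall_zero_iff] at hu
      exact ((continuousAt_id.sub continuousAt_const).inv₀ (hne u hu)).continuousWithinAt
    · rintro u ⟨hu, -⟩
      rw [mem_ball_zero_iff] at hu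
      exact (differentiableAt_id.sub_const a).inv (hne u hu.le)
  have h3 : (∮ u in C(0, R), deriv (dslope h a) u / dslope h a u) =
      ∮ u in C(0, r), deriv (dslope h a) u / dslope h a u :=
    ann_eq hr hrR hA hs ((hk.deriv hA).div hk (ds_ne hA hd hi ha))
  rw [h1, h2, h3]
  ring

private theorem ann_open (θ : ℝ) : IsOpen {u : ℂ | θ < ‖u‖ ∧ ‖u‖ < 1} :=
  (isOpen_lt continuous_const continuous_norm).inter (isOpen_lt continuous_norm continuous_const)

/-- the jump of the winding number across the curve -/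
theorem nn_jump {h : ℂ → ℂ} {θ : ℝ} (hθ : 0 < θ) (hd : DifferentiableOn ℂ h {u | θ < ‖u‖ ∧ ‖u‖ < 1})
    (hi : InjOn h {u | θ < ‖u‖ ∧ ‖u‖ < 1}) {ρ : ℝ} {a b : ℂ} (ha : θ < ‖a‖) (ha' : ‖a‖ < ρ) (hb : ρ < ‖b‖) (hb' : ‖b‖ < 1) :
    nn h ρ (h a) - nn h ρ (h b) = 2 * Real.pi * Complex.I := by
  have hA := ann_open θ
  have han : ∀ ρ' : ℝ, θ < ρ' → ρ' < 1 → ∀ u ∈ sphere (0 : ℂ) ρ', AnalyticAt ℂ h u := by
    intro ρ' h1 h2 u hu
    rw [mem_sphere_zero_iff_norm] at hu
    refine (hd.analyticAt (hA.mem_nhds ⟨?_, ?_⟩))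
    · rw [hu]
      exact h1
    · rw [hu]
      exact h2
  obtain ⟨r, hr1, hr2⟩ := exists_between ha'
  obtain ⟨R, hR1, hR2⟩ := exists_between hb
  have hρ0 : 0 < ρ := hθ.trans (ha.trans ha')
  obtain ⟨q, hq⟩ : ∃ q : ℂ, ‖q‖ = ρ := ⟨(ρ : ℂ), by
    rw [Complex.norm_real, Real.norm_eq_abs, abs_of_pos hρ0]⟩
  have hqA : q ∈ {u : ℂ | θ < ‖u‖ ∧ ‖u‖ < 1} := by
    refine ⟨?_, ?_⟩
    · rw [hq]
      linarith
    · rw [hq]
      linarith
  have haA : a ∈ {u : ℂ | θ < ‖u‖ ∧ ‖u‖ < 1} := ⟨ha, by linarith⟩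
  have hbA : b ∈ {u : ℂ | θ < ‖u‖ ∧ ‖u‖ < 1} := ⟨by linarith, hb'⟩
  -- inside
  have e1 : nn h R (h a) = nn h R (h q) := by
    refine nn_con (hρ0.trans hR1) (han R (by linarith) (by linarith)) (ann_pre hθ (hρ0.trans hR1) :
      IsPreconnected {u : ℂ | θ < ‖u‖ ∧ ‖u‖ < R}) (hd.continuousOn.mono ?_) ?_ ⟨ha, by linarith⟩
      ⟨by rw [hq]; linarith, by rw [hq]; exact hR1⟩
    · rintro u ⟨h1, h2⟩
      exact ⟨h1, by linarith⟩
    · rintro w ⟨h1, h2⟩ u hu h0
      rw [mem_sphere_zero_iff_norm] at hu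
      have h3 := hi (show u ∈ {u : ℂ | θ < ‖u‖ ∧ ‖u‖ < 1} from ⟨by rw [hu]; linarith, by rw [hu]; linarith⟩)
        (show w ∈ {u : ℂ | θ < ‖u‖ ∧ ‖u‖ < 1} from ⟨h1, by linarith⟩) h0
      rw [← h3, hu] at h2
      exact lt_irrefl _ h2
  have e2 : nn h R (h a) = nn h ρ (h a) := by
    refine nn_ann hA hd hρ0 hR1.le fun u h1 h2 => ?_
    have hu : u ∈ {u : ℂ | θ < ‖u‖ ∧ ‖u‖ < 1} := ⟨by linarith, by linarith⟩
    refine ⟨hu, fun h0 => ?_⟩
    rw [hi hu haA h0] at h1
    linarith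
  -- outside
  have e3 : nn h r (h b) = nn h r (h q) := by
    refine nn_con (by linarith [norm_nonneg a]) (han r (by linarith) (by linarith)) (ann_pre (by linarith) one_pos :
      IsPreconnected {u : ℂ | r < ‖u‖ ∧ ‖u‖ < 1}) (hd.continuousOn.mono ?_) ?_ ⟨by linarith, hb'⟩
      ⟨by rw [hq]; exact hr2, by rw [hq]; linarith⟩
    · rintro u ⟨h1, h2⟩
      exact ⟨by linarith, h2⟩
    · rintro w ⟨h1, h2⟩ u hu h0
      rw [mem_sphere_zero_iff_norm] at hu
      have h3 := hi (show u ∈ {u : ℂ | θ < ‖u‖ ∧ ‖u‖ < 1} from ⟨by rw [hu]; linarith, by rw [hu]; linarith⟩)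
        (show w ∈ {u : ℂ | θ < ‖u‖ ∧ ‖u‖ < 1} from ⟨by linarith, h2⟩) h0
      rw [← h3, hu] at h1
      exact lt_irrefl _ h1
  have e4 : nn h ρ (h b) = nn h r (h b) := by
    refine nn_ann hA hd (by linarith) hr2.le fun u h1 h2 => ?_
    have hu : u ∈ {u : ℂ | θ < ‖u‖ ∧ ‖u‖ < 1} := ⟨by linarith, by linarith⟩
    refine ⟨hu, fun h0 => ?_⟩
    rw [hi hu hbA h0] at h2
    linarith
  have e5 := nn_res hA hd hi hqA (r := r) (R := R) (by linarith) (by rw [hq]; exact hr2) (by rw [hq]; exact hR1)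
    fun u h1 h2 => ⟨by linarith, by linarith⟩
  rw [← e2, e1, e4, e3]
  exact e5

theorem nn_one {h : ℂ → ℂ} (hd : DifferentiableOn ℂ h (ball 0 1)) (hi : InjOn h (ball 0 1)) {ρ : ℝ} {a : ℂ} (ha : ‖a‖ < ρ)
    (hρ : ρ < 1) : nn h ρ (h a) = 2 * Real.pi * Complex.I := by
  have hρ0 : 0 < ρ := (norm_nonneg a).trans_lt ha
  have haA : a ∈ ball (0 : ℂ) 1 := mem_ball_zero_iff.2 (ha.trans hρ)
  have hk : DifferentiableOn ℂ (dslope h a) (ball 0 1) :=
    (Complex.differentiableOn_dslope (isOpen_ball.mem_nhds haA)).2 hd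
  rw [nn_dec isOpen_ball hd hi haA hρ0 (fun u hu => mem_ball_zero_iff.2 (by rw [hu]; exact hρ)) ha.ne,
    circleIntegral.integral_sub_inv_of_mem_ball (mem_ball_zero_iff.2 ha)]
  have h1 : DifferentiableOn ℂ (fun u => deriv (dslope h a) u / dslope h a u) (ball 0 1) :=
    (hk.deriv isOpen_ball).div hk (ds_ne isOpen_ball hd hi haA)
  have h2 : (∮ u in C(0, ρ), deriv (dslope h a) u / dslope h a u) = 0 := by
    refine Complex.circleIntegral_eq_zero_of_differentiable_on_off_countable hρ0.le Set.countable_empty ?_ ?_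
    · exact h1.continuousOn.mono (closedBall_subset_ball hρ)
    · rintro u ⟨hu, -⟩
      exact h1.differentiableAt (isOpen_ball.mem_nhds (ball_subset_ball hρ.le hu))
  rw [h2, add_zero]

theorem nn_lift {h Q : ℂ → ℂ} {ρ : ℝ} (hρ : 0 < ρ) (hh : ∀ u ∈ sphere (0 : ℂ) ρ, AnalyticAt ℂ h u) {e : ℂ} {V : Set ℂ}
    (hV : IsOpen V) (hseg : ∀ t ∈ Icc (0 : ℝ) (2 * Real.pi), (Real.log ρ : ℂ) + t * Complex.I ∈ V)
    (hQ : DifferentiableOn ℂ Q V) (hQe : ∀ ζ ∈ V, Complex.exp (Q ζ) = h (Complex.exp ζ) - e) :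
    nn h ρ e = Q ((Real.log ρ : ℂ) + 2 * Real.pi * Complex.I) - Q (Real.log ρ : ℂ) := by
  have hc : ∀ t : ℝ, Complex.exp ((Real.log ρ : ℂ) + t * Complex.I) = circleMap 0 ρ t := by
    intro t
    rw [Complex.exp_add, ← Complex.ofReal_exp, Real.exp_log hρ, circleMap_zero]
  have hcs : ∀ t : ℝ, circleMap 0 ρ t ∈ sphere (0 : ℂ) ρ := circleMap_mem_sphere _ hρ.le
  have hne : ∀ t ∈ Icc (0 : ℝ) (2 * Real.pi), h (circleMap 0 ρ t) ≠ e := by
    intro t ht h0
    have h1 := hQe _ (hseg t ht)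
    rw [hc, h0, sub_self] at h1
    exact Complex.exp_ne_zero _ h1
  have hne' : ∀ u ∈ sphere (0 : ℂ) ρ, h u ≠ e := by
    intro u hu
    have h1 : u ∈ circleMap 0 ρ '' Ioc 0 (2 * Real.pi) := by
      rw [image_circleMap_Ioc, abs_of_pos hρ]
      exact hu
    obtain ⟨t, ht, rfl⟩ := h1
    exact hne t (Ioc_subset_Icc_self ht)
  have hint := ((ig_cont hh hne').circleIntegrable hρ.le).out
  have hder : ∀ t ∈ uIcc (0 : ℝ) (2 * Real.pi), HasDerivAt (fun s : ℝ => Q ((Real.log ρ : ℂ) + s * Complex.I))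
      (deriv (circleMap 0 ρ) t • (deriv h (circleMap 0 ρ t) / (h (circleMap 0 ρ t) - e))) t := by
    intro t ht
    rw [uIcc_of_le Real.two_pi_pos.le] at ht
    have hζ := hseg t ht
    have hQd := (hQ.differentiableAt (hV.mem_nhds hζ)).hasDerivAt
    have h1 : HasDerivAt (fun ζ => Complex.exp (Q ζ)) (Complex.exp (Q ((Real.log ρ : ℂ) + t * Complex.I)) *
        deriv Q ((Real.log ρ : ℂ) + t * Complex.I)) ((Real.log ρ : ℂ) + t * Complex.I) := hQd.cexp
    have h2 : HasDerivAt (fun ζ => h (Complex.exp ζ) - e) (deriv h (circleMap 0 ρ t) * circleMap 0 ρ t)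
        ((Real.log ρ : ℂ) + t * Complex.I) := by
      have h3 : HasDerivAt h (deriv h (circleMap 0 ρ t)) (Complex.exp ((Real.log ρ : ℂ) + t * Complex.I)) := by
        rw [hc]
        exact (hh _ (hcs t)).differentiableAt.hasDerivAt
      have h4 := (h3.comp _ (Complex.hasDerivAt_exp ((Real.log ρ : ℂ) + t * Complex.I))).sub_const e
      rw [hc] at h4
      exact h4
    have h5 : (fun ζ => h (Complex.exp ζ) - e) =ᶠ[𝓝 ((Real.log ρ : ℂ) + t * Complex.I)]
        fun ζ => Complex.exp (Q ζ) := by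
      filter_upwards [hV.mem_nhds hζ] with ζ hζ'
      exact (hQe ζ hζ').symm
    have h6 := (h1.congr_of_eventuallyEq h5).unique h2
    rw [hQe _ hζ, hc] at h6
    have h7 : h (circleMap 0 ρ t) - e ≠ 0 := sub_ne_zero.2 (hne t ht)
    have h8 : deriv Q ((Real.log ρ : ℂ) + t * Complex.I) =
        circleMap 0 ρ t * (deriv h (circleMap 0 ρ t) / (h (circleMap 0 ρ t) - e)) := by
      field_simp
      rw [mul_comm]
      linear_combination h6
    have h9 : HasDerivAt (fun s : ℝ => (Real.log ρ : ℂ) + s * Complex.I) Complex.I t := by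
      have h10 := ((Complex.ofRealCLM.hasDerivAt (x := t)).mul_const Complex.I).const_add (Real.log ρ : ℂ)
      simpa using h10
    have h11 := hQd.comp t h9
    refine h11.congr_deriv ?_
    rw [h8, deriv_circleMap, smul_eq_mul]
    ring
  have h1 := intervalIntegral.integral_eq_sub_of_hasDerivAt hder hint
  unfold nn
  unfold circleIntegral
  rw [h1]
  push_cast
  rw [zero_mul, add_zero]

end Pool.Agent.H65.UB
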