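import Pool.Agent.H65.UB.Cnn
import Pool.Agent.H65.UB.Wnn

/-!
# Winding numbers of the curves `E ∘ ψ`, `E` univalent in the complement of `Φ`

`E` is holomorphic and injective on `Φᶜ` (open), `ψ` a gap disc, `θ < ρ < 1`. So `E ∘ ψ` is holomorphic and injective on the collar
`{θ < ‖u‖ < 1}` (`GD.col`), hence analytic at the points of the circle.
`wd_in`: `A = ψ '' ball 0 ρ \ Φ` is preconnected (`con`: `ψ '' ball 0 ρ` is open (`gd_open`) and preconnected, an image of a ball);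
`nn_con`: for `w ∈ A`, `‖u‖ = ρ`: `E (ψ u) ≠ E w`, as `ψ u ∉ Φ`, `w ∉ Φ`, `ψ u ≠ w` (`w = ψ v`, `‖v‖ < ρ`, `ψ` injective).
`wd_out`: `A = (ψ '' closedBall 0 ρ)ᶜ \ Φ`: `ext_con` and `con` (open as `gd_cl` is compact, so closed).
`wd_jump`: `nn_jump` for `h = E ∘ ψ`, with `a = (θ + ρ) / 2`, `b = (ρ + 1) / 2`, and `wd_in`, `wd_out` (`ψ a ∈ ψ '' ball 0 ρ \ Φ`,
`ψ b ∈ (ψ '' closedBall 0 ρ)ᶜ \ Φ` by injectivity).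
`wd_far`: `E ∘ ψ` is bounded on the circle (compact): `nn_far`. `wd_near`: if `e0` is not on the curve then its distance to the curve is
positive (compact): `nn_loc`.
-/

set_option autoImplicit false

open Filter Topology Metric Set

namespace Pool.Agent.H65.UB

open Pool.Agent.H56.UD

theorem wd_an {θ C r : ℝ} {Φ : Set ℂ} {x : ℂ} {ψ E : ℂ → ℂ} (hc : IsClosed Φ) (h : GD θ C Φ x r ψ)
    (hE : DifferentiableOn ℂ E Φᶜ) (hEi : InjOn E Φᶜ) :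
    DifferentiableOn ℂ (E ∘ ψ) {u | θ < ‖u‖ ∧ ‖u‖ < 1} ∧ InjOn (E ∘ ψ) {u | θ < ‖u‖ ∧ ‖u‖ < 1} ∧
      ∀ u : ℂ, θ < ‖u‖ → ‖u‖ < 1 → AnalyticAt ℂ (E ∘ ψ) u := by
  have hSo : IsOpen {u : ℂ | θ < ‖u‖ ∧ ‖u‖ < 1} :=
    (isOpen_lt continuous_const continuous_norm).inter (isOpen_lt continuous_norm continuous_const)
  have hS1 : {u : ℂ | θ < ‖u‖ ∧ ‖u‖ < 1} ⊆ ball 0 1 := fun u hu => mem_ball_zero_iff.2 hu.2
  have hm : MapsTo ψ {u : ℂ | θ < ‖u‖ ∧ ‖u‖ < 1} Φᶜ := fun u hu => h.col u hu.1 hu.2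
  have hd : DifferentiableOn ℂ (E ∘ ψ) {u | θ < ‖u‖ ∧ ‖u‖ < 1} := hE.comp (h.diff.mono hS1) hm
  exact ⟨hd, hEi.comp (h.inj.mono hS1) hm, fun u h1 h2 => hd.analyticAt (hSo.mem_nhds ⟨h1, h2⟩)⟩

theorem wd_in {θ C r : ℝ} {Φ : Set ℂ} {x : ℂ} {ψ E : ℂ → ℂ} (hθ : 0 < θ) (hθ1 : θ < 1) (hC : 1 ≤ C) (hΦ : GP θ C Φ)
    (hc : IsClosed Φ) (h : GD θ C Φ x r ψ) (hE : DifferentiableOn ℂ E Φᶜ) (hEi : InjOn E Φᶜ) {ρ : ℝ} (h1 : θ < ρ) (h2 : ρ < 1)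
    {w w' : ℂ} (hw : w ∈ ψ '' ball 0 ρ \ Φ) (hw' : w' ∈ ψ '' ball 0 ρ \ Φ) :
    nn (E ∘ ψ) ρ (E w) = nn (E ∘ ψ) ρ (E w') := by
  have hρ : 0 < ρ := hθ.trans h1
  have hb : ball (0 : ℂ) ρ ⊆ ball 0 1 := ball_subset_ball h2.le
  have hA : IsPreconnected (ψ '' ball 0 ρ \ Φ) :=
    con hθ hθ1 hC hΦ hc (gd_open h isOpen_ball hb)
      ((convex_ball (0 : ℂ) ρ).isPreconnected.image ψ (h.diff.continuousOn.mono hb))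
  refine nn_con hρ (fun u hu => (wd_an hc h hE hEi).2.2 u ?_ ?_) hA
    (hE.continuousOn.mono fun z hz => hz.2) (fun z hz u hu he => ?_) hw hw'
  · rw [mem_sphere_zero_iff_norm.1 hu]
    exact h1
  · rw [mem_sphere_zero_iff_norm.1 hu]
    exact h2
  · have hu' : ‖u‖ = ρ := mem_sphere_zero_iff_norm.1 hu
    have h3 : ψ u = z := hEi (h.col u (by rw [hu']; exact h1) (by rw [hu']; exact h2)) hz.2 he
    obtain ⟨v, hv, hvz⟩ := hz.1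
    have h4 : u = v := h.inj (mem_ball_zero_iff.2 (by rw [hu']; exact h2)) (hb hv) (h3.trans hvz.symm)
    rw [← h4, mem_ball_zero_iff, hu'] at hv
    exact lt_irrefl _ hv

theorem wd_out {θ C r : ℝ} {Φ : Set ℂ} {x : ℂ} {ψ E : ℂ → ℂ} (hθ : 0 < θ) (hθ1 : θ < 1) (hC : 1 ≤ C) (hΦ : GP θ C Φ)
    (hc : IsClosed Φ) (h : GD θ C Φ x r ψ) (hE : DifferentiableOn ℂ E Φᶜ) (hEi : InjOn E Φᶜ) {ρ : ℝ} (h1 : θ < ρ) (h2 : ρ < 1)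
    {w w' : ℂ} (hw : w ∉ ψ '' closedBall 0 ρ ∧ w ∉ Φ) (hw' : w' ∉ ψ '' closedBall 0 ρ ∧ w' ∉ Φ) :
    nn (E ∘ ψ) ρ (E w) = nn (E ∘ ψ) ρ (E w') := by
  have hρ : 0 < ρ := hθ.trans h1
  have hA : IsPreconnected ((ψ '' closedBall 0 ρ)ᶜ \ Φ) :=
    con hθ hθ1 hC hΦ hc (gd_cl h h2).isClosed.isOpen_compl (ext_con hθ h h1 h2)
  refine nn_con hρ (fun u hu => (wd_an hc h hE hEi).2.2 u ?_ ?_) hA
    (hE.continuousOn.mono fun z hz => hz.2) (fun z hz u hu he => ?_) hw hw'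
  · rw [mem_sphere_zero_iff_norm.1 hu]
    exact h1
  · rw [mem_sphere_zero_iff_norm.1 hu]
    exact h2
  · have hu' : ‖u‖ = ρ := mem_sphere_zero_iff_norm.1 hu
    have h3 : ψ u = z := hEi (h.col u (by rw [hu']; exact h1) (by rw [hu']; exact h2)) hz.2 he
    exact hz.1 ⟨u, sphere_subset_closedBall hu, h3⟩

theorem wd_jump {θ C r : ℝ} {Φ : Set ℂ} {x : ℂ} {ψ E : ℂ → ℂ} (hθ : 0 < θ) (hθ1 : θ < 1) (hC : 1 ≤ C) (hΦ : GP θ C Φ)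
    (hc : IsClosed Φ) (h : GD θ C Φ x r ψ) (hE : DifferentiableOn ℂ E Φᶜ) (hEi : InjOn E Φᶜ) {ρ : ℝ} (h1 : θ < ρ) (h2 : ρ < 1)
    {w w' : ℂ} (hw : w ∈ ψ '' ball 0 ρ \ Φ) (hw' : w' ∉ ψ '' closedBall 0 ρ ∧ w' ∉ Φ) :
    nn (E ∘ ψ) ρ (E w) - nn (E ∘ ψ) ρ (E w') = 2 * Real.pi * Complex.I := by
  have hρ : 0 < ρ := hθ.trans h1
  have hna : ‖(((θ + ρ) / 2 : ℝ) : ℂ)‖ = (θ + ρ) / 2 := by
    rw [Complex.norm_real, Real.norm_eq_abs, abs_of_pos (by linarith)]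
  have hnb : ‖(((ρ + 1) / 2 : ℝ) : ℂ)‖ = (ρ + 1) / 2 := by
    rw [Complex.norm_real, Real.norm_eq_abs, abs_of_pos (by linarith)]
  have hj := nn_jump hθ (wd_an hc h hE hEi).1 (wd_an hc h hE hEi).2.1 (ρ := ρ)
    (a := (((θ + ρ) / 2 : ℝ) : ℂ)) (b := (((ρ + 1) / 2 : ℝ) : ℂ)) (by rw [hna]; linarith)
    (by rw [hna]; linarith) (by rw [hnb]; linarith) (by rw [hnb]; linarith)
  rw [wd_in hθ hθ1 hC hΦ hc h hE hEi h1 h2 hw (w' := ψ (((θ + ρ) / 2 : ℝ) : ℂ))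
    ⟨⟨_, mem_ball_zero_iff.2 (by rw [hna]; linarith), rfl⟩,
      h.col _ (by rw [hna]; linarith) (by rw [hna]; linarith)⟩,
    wd_out hθ hθ1 hC hΦ hc h hE hEi h1 h2 hw' (w' := ψ (((ρ + 1) / 2 : ℝ) : ℂ)) ⟨?_,
      h.col _ (by rw [hnb]; linarith) (by rw [hnb]; linarith)⟩]
  · exact hj
  · rintro ⟨v, hv, hve⟩
    have hv' : ‖v‖ ≤ ρ := mem_closedBall_zero_iff.1 hv
    have h4 : v = (((ρ + 1) / 2 : ℝ) : ℂ) := h.inj (mem_ball_zero_iff.2 (by linarith))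
      (mem_ball_zero_iff.2 (by rw [hnb]; linarith)) hve
    rw [h4, hnb] at hv'
    linarith

theorem wd_far {θ C r : ℝ} {Φ : Set ℂ} {x : ℂ} {ψ E : ℂ → ℂ} (hθ : 0 < θ) (hc : IsClosed Φ) (h : GD θ C Φ x r ψ)
    (hE : DifferentiableOn ℂ E Φᶜ) (hEi : InjOn E Φᶜ) {ρ : ℝ} (h1 : θ < ρ) (h2 : ρ < 1) :
    ∃ B : ℝ, ∀ e : ℂ, B < ‖e‖ → nn (E ∘ ψ) ρ e = 0 := by
  have hρ : 0 < ρ := hθ.trans h1
  have hh : ∀ u ∈ sphere (0 : ℂ) ρ, AnalyticAt ℂ (E ∘ ψ) u := fun u hu =>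
    (wd_an hc h hE hEi).2.2 u (by rw [mem_sphere_zero_iff_norm.1 hu]; exact h1)
      (by rw [mem_sphere_zero_iff_norm.1 hu]; exact h2)
  obtain ⟨B, hB⟩ := (isCompact_sphere (0 : ℂ) ρ).exists_bound_of_continuousOn (f := E ∘ ψ)
    fun u hu => (hh u hu).continuousAt.continuousWithinAt
  exact ⟨B, fun e he => nn_far hρ hh fun u hu => (hB u hu).trans_lt he⟩

theorem wd_near {θ C r : ℝ} {Φ : Set ℂ} {x : ℂ} {ψ E : ℂ → ℂ} (hθ : 0 < θ) (hc : IsClosed Φ) (h : GD θ C Φ x r ψ)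
    (hE : DifferentiableOn ℂ E Φᶜ) (hEi : InjOn E Φᶜ) {ρ : ℝ} (h1 : θ < ρ) (h2 : ρ < 1) {e0 : ℂ}
    (he : ∀ u : ℂ, ‖u‖ = ρ → E (ψ u) ≠ e0) :
    ∃ ε : ℝ, 0 < ε ∧ ∀ e : ℂ, ‖e - e0‖ < ε → nn (E ∘ ψ) ρ e = nn (E ∘ ψ) ρ e0 := by
  have hρ : 0 < ρ := hθ.trans h1
  have hh : ∀ u ∈ sphere (0 : ℂ) ρ, AnalyticAt ℂ (E ∘ ψ) u := fun u hu =>
    (wd_an hc h hE hEi).2.2 u (by rw [mem_sphere_zero_iff_norm.1 hu]; exact h1)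
      (by rw [mem_sphere_zero_iff_norm.1 hu]; exact h2)
  have hcont : ContinuousOn (fun u => ‖(E ∘ ψ) u - e0‖) (sphere (0 : ℂ) ρ) := fun u hu =>
    ((hh u hu).continuousAt.continuousWithinAt.sub continuousWithinAt_const).norm
  obtain ⟨u0, hu0, hmin⟩ := (isCompact_sphere (0 : ℂ) ρ).exists_isMinOn
    (NormedSpace.sphere_nonempty.2 hρ.le) hcont
  have hm : 0 < ‖(E ∘ ψ) u0 - e0‖ :=
    norm_pos_iff.2 (sub_ne_zero.2 (he u0 (mem_sphere_zero_iff_norm.1 hu0)))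
  refine ⟨‖(E ∘ ψ) u0 - e0‖ / 2, by positivity, fun e hee => nn_loc hρ hh fun u hu => ?_⟩
  have h3 : ‖(E ∘ ψ) u0 - e0‖ ≤ ‖(E ∘ ψ) u - e0‖ := hmin hu
  have h4 : ‖(E ∘ ψ) u - e0‖ ≤ ‖(E ∘ ψ) u - e‖ + ‖e - e0‖ := by
    have e1 : (E ∘ ψ) u - e0 = ((E ∘ ψ) u - e) + (e - e0) := by ring
    rw [e1]
    exact norm_add_le _ _
  linarith

end Pool.Agent.H65.UB
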