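import Pool.Agent.H65.UB.Eex
import Pool.Agent.H65.UB.Wdd

/-!
# Limit frames: no reflections, and the two ends

`c0`, `s m` as in `trans`. `ψ` = a gap disc of `Φ` at `(0, 1)` (`LF.gp`), `ρ = (θ + 1) / 2`.
`side`: for `m` with `(2 C) ^ m < 1 / C` the point `F (s m)` is in `ball 0 (1 / C) ⊆ ψ '' ball 0 θ ⊆ ψ '' ball 0 ρ` (minus `Φ`, `Fv`); for `m` with
`(2 C) ^ m / C ≥ 1` it is outside `ball 0 1 ⊇ ψ '' closedBall 0 ρ`. So: there is `N` such that `F (s m)` is inside for `m < -N`, outside for `m > N`.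
`noref`: suppose `Dk F S (-1) p`; `E` of `eR`; `wd_far` with the bound `B'`; as `{m | |Im (s m / c0)| ≤ B''}` is finite there are `m < -N` and `m' > N` with
`‖E (F (s m))‖ > B'`, `‖E (F (s m'))‖ > B'`: both winding numbers are `0`: contradiction to `wd_jump`.
`ends`: `E` of `eN` (`no reflections`): `‖E (F (s m))‖ = exp (- 2 π Im (s m / c0))`; for given `B`, `ε` and all `m` outside of a finite set it is `> B` or
`< ε`. `E` has no zeros on the curve (values are exponentials: every `w ∉ Φ` is `F s`). With `n0 = nn (E ∘ ψ) ρ 0`: for all `m < -N'`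
`nn (E ∘ ψ) ρ (E (F (s m))) = nin` (constant, `wd_in`), and is `0` (`wd_far`) or `n0` (`wd_near` at `e0 = 0`); for `m > N'` it is `nout`, `0` or `n0`;
`nin - nout = 2 π i ≠ 0` (`wd_jump`). So `n0 ≠ 0` and either `nin = n0`, `nout = 0`: then for `m < -N'` the value is small and for `m > N'` it is large;
or `nin = 0`, `nout = n0`: for `m < -N'` it is large, for `m > N'` it is small. RESULT: in both cases, for all `B`, `ε > 0`, `ρ1 > 0` and `R1` there are `m`, `m'` with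
`‖E (F (s m))‖ > B`, `‖E (F (s m'))‖ < ε` and each of the two points `w = F (s m)`, `w' = F (s m')` satisfies `‖w‖ < ρ1` or `‖w‖ > R1`.
(The proof for given `B`, `ε`: use `max B B1` and `min ε ε1`, where `B1`, `ε1` are the constants of `wd_far`, `wd_near`.)
-/

set_option autoImplicit false

open Filter Topology Metric Set

namespace Pool.Agent.H65.UB

open Pool.Agent.H56.UD

private theorem zp {C : ℝ} (hC : 1 ≤ C) {K : ℝ} (hK : 0 < K) :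
    ∃ n : ℤ, (∀ m : ℤ, n ≤ m → K < (2 * C) ^ m) ∧ ∀ m : ℤ, m ≤ -n → (2 * C) ^ m < K⁻¹ := by
  have h2 : 1 < 2 * C := by linarith
  obtain ⟨n, hn⟩ := pow_unbounded_of_one_lt K h2
  refine ⟨n, fun m hm => ?_, fun m hm => ?_⟩
  · refine hn.trans_le ?_
    rw [← zpow_natCast]
    exact zpow_le_zpow_right₀ h2.le hm
  · have h3 : (2 * C) ^ m ≤ (2 * C) ^ (-(n : ℤ)) := zpow_le_zpow_right₀ h2.le hm
    refine h3.trans_lt ?_
    rw [zpow_neg, zpow_natCast]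
    exact inv_strictAnti₀ hK hn

private theorem pick {F : ℂ → ℂ} {s : ℤ → ℂ} {C : ℝ} (hC : 1 ≤ C)
    (hs : ∀ m, (2 * C) ^ m / C ≤ ‖F (s m)‖ ∧ ‖F (s m)‖ < (2 * C) ^ m) {T : Set ℤ} (hT : T.Finite)
    {K : ℝ} (hK : 0 < K) :
    ∃ m m' : ℤ, m ∉ T ∧ m' ∉ T ∧ ‖F (s m)‖ < K⁻¹ ∧ K / C < ‖F (s m')‖ := by
  obtain ⟨n, h1, h2⟩ := zp hC hK
  have hC0 : 0 < C := by linarith
  obtain ⟨m, hm, hmT⟩ := ((Set.Iic_infinite (-n)).sdiff hT).nonempty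
  obtain ⟨m', hm', hmT'⟩ := ((Set.Ici_infinite n).sdiff hT).nonempty
  refine ⟨m, m', hmT, hmT', (hs m).2.trans (h2 m hm), ?_⟩
  exact (div_lt_div_of_pos_right (h1 m' hm') hC0).trans_le (hs m').1

private theorem s_in {Φ : Set ℂ} {θ C ρ : ℝ} {ψ : ℂ → ℂ} (hψ : GD θ C Φ 0 1 ψ) (h1 : θ < ρ)
    {w : ℂ} (hw : w ∉ Φ) (hn : ‖w‖ < C⁻¹) : w ∈ ψ '' ball 0 ρ \ Φ := by
  refine ⟨?_, hw⟩
  refine Set.image_mono (ball_subset_ball h1.le) (hψ.inn ?_)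
  rw [mem_ball_zero_iff, one_div]
  exact hn

private theorem s_out {Φ : Set ℂ} {θ C ρ : ℝ} {ψ : ℂ → ℂ} (hψ : GD θ C Φ 0 1 ψ) (h2 : ρ < 1)
    {w : ℂ} (hw : w ∉ Φ) (hn : 1 < ‖w‖) : w ∉ ψ '' closedBall 0 ρ ∧ w ∉ Φ := by
  refine ⟨fun h => ?_, hw⟩
  have h3 : w ∈ ball (0 : ℂ) 1 := hψ.out (Set.image_mono (closedBall_subset_ball h2) h)
  rw [mem_ball_zero_iff] at h3
  linarith

theorem noref {F : ℂ → ℂ} {S Φ : Set ℂ} {θ C : ℝ} (h : LF F S Φ θ C) (p : ℂ) : ¬ Dk F S (-1) p := by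
  intro hp
  obtain ⟨c0, s, h0, hd, hall, hsS, hsF, hfin⟩ := trans h
  obtain ⟨E, B, hE, hEi, hg⟩ := eR h h0 hd hall hp
  obtain ⟨ψ, hψ⟩ := h.gp 0 h.P0 1 one_pos
  have hC0 : 0 < C := lt_of_lt_of_le one_pos h.C1
  have hρ1 : θ < (θ + 1) / 2 := by have := h.θ1; linarith
  have hρ2 : (θ + 1) / 2 < 1 := by have := h.θ1; linarith
  obtain ⟨B', hB'⟩ := wd_far h.θ0 h.Pc hψ hE hEi hρ1 hρ2
  have hpi := Real.pi_pos
  obtain ⟨m, m', hm, hm', h1, h2⟩ := pick h.C1 hsF (hfin ((B' + B) / (2 * Real.pi))) hC0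
  rw [div_self hC0.ne'] at h2
  have hz : ∀ k : ℤ, k ∉ {m : ℤ | |(s m / c0).im| ≤ (B' + B) / (2 * Real.pi)} →
      nn (E ∘ ψ) ((θ + 1) / 2) (E (F (s k))) = 0 := by
    intro k hk
    refine hB' _ ?_
    have h3 : (B' + B) / (2 * Real.pi) < |(s k / c0).im| := not_le.1 hk
    rw [div_lt_iff₀ (by positivity)] at h3
    have h4 := hg (s k) (hsS k)
    linarith
  have hj := wd_jump h.θ0 h.θ1 h.C1 h.gp h.Pc hψ hE hEi hρ1 hρ2
    (s_in hψ hρ1 (h.Fv _ (hsS m)) h1) (s_out hψ hρ2 (h.Fv _ (hsS m')) h2)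
  rw [hz m hm, hz m' hm', sub_zero] at hj
  exact Complex.two_pi_I_ne_zero hj.symm

/-- all deck transformations are translations by multiples of `c0`; the function `E = exp (2 π i s / c0)` is large at one end and
small at the other end -/
theorem ends {F : ℂ → ℂ} {S Φ : Set ℂ} {θ C : ℝ} (h : LF F S Φ θ C) :
    ∃ (c0 : ℂ) (E : ℂ → ℂ), c0 ≠ 0 ∧ Dk F S 1 c0 ∧ (∀ t c, Dk F S t c → t = 1 ∧ ∃ n : ℤ, c = n * c0) ∧
      DifferentiableOn ℂ E Φᶜ ∧ InjOn E Φᶜ ∧ (∀ s ∈ S, E (F s) = Complex.exp (2 * Real.pi * Complex.I * s / c0)) ∧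
      ∀ B ε ρ1 R1 : ℝ, 0 < ε → 0 < ρ1 → ∃ w w' : ℂ, w ∉ Φ ∧ w' ∉ Φ ∧ (‖w‖ < ρ1 ∨ R1 < ‖w‖) ∧ (‖w'‖ < ρ1 ∨ R1 < ‖w'‖) ∧
        B < ‖E w‖ ∧ ‖E w'‖ < ε := by
  obtain ⟨c0, s, h0, hd, hall, hsS, hsF, hfin⟩ := trans h
  obtain ⟨E, hE, hEi, hEF⟩ := eN h h0 hd hall (noref h)
  refine ⟨c0, E, h0, hd, ?_, hE, hEi, hEF, ?_⟩
  · intro t c hc
    have h1 : t = 1 := by
      rcases (abs_eq zero_le_one).1 (noscale h hc) with h2 | h2
      · exact h2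
      · exact absurd (h2 ▸ hc) (noref h c)
    exact ⟨h1, hall c (h1 ▸ hc)⟩
  intro B ε ρ1 R1 hε hρ1'
  obtain ⟨ψ, hψ⟩ := h.gp 0 h.P0 1 one_pos
  have hC0 : 0 < C := lt_of_lt_of_le one_pos h.C1
  have hρ1 : θ < (θ + 1) / 2 := by have := h.θ1; linarith
  have hρ2 : (θ + 1) / 2 < 1 := by have := h.θ1; linarith
  have hpi := Real.pi_pos
  obtain ⟨B1, hB1⟩ := wd_far h.θ0 h.Pc hψ hE hEi hρ1 hρ2
  obtain ⟨ε1, hε1, hn1⟩ := wd_near h.θ0 h.Pc hψ hE hEi hρ1 hρ2 (e0 := 0) (fun u hu => by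
    have h1 : ψ u ∉ Φ := hψ.col u (by rw [hu]; exact hρ1) (by rw [hu]; exact hρ2)
    obtain ⟨t, ht, hFt⟩ := h.onto _ h1
    rw [← hFt, hEF t ht]
    exact Complex.exp_ne_zero _)
  have hnorm : ∀ k, ‖E (F (s k))‖ = Real.exp (-(2 * Real.pi * (s k / c0).im)) := by
    intro k
    rw [hEF _ (hsS k), Complex.norm_exp]
    congr 1
    have e1 : 2 * (Real.pi : ℂ) * Complex.I * s k / c0 = ((2 * Real.pi : ℝ) : ℂ) * (Complex.I * (s k / c0)) := by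
      push_cast
      ring
    rw [e1, Complex.re_ofReal_mul, Complex.I_mul_re]
    ring
  obtain ⟨B2, hB2⟩ : ∃ B2 : ℝ, B2 = max (max B B1) 1 := ⟨_, rfl⟩
  obtain ⟨ε2, hε2⟩ : ∃ ε2 : ℝ, ε2 = min ε ε1 := ⟨_, rfl⟩
  have hB20 : 0 < B2 := by
    rw [hB2]
    exact lt_of_lt_of_le one_pos (le_max_right _ _)
  have hε20 : 0 < ε2 := by
    rw [hε2]
    exact lt_min hε hε1
  have hBB2 : B ≤ B2 := by
    rw [hB2]
    exact (le_max_left _ _).trans (le_max_left _ _)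
  have hB1B2 : B1 ≤ B2 := by
    rw [hB2]
    exact (le_max_right _ _).trans (le_max_left _ _)
  have hεε2 : ε2 ≤ ε := by
    rw [hε2]
    exact min_le_left _ _
  have hε1ε2 : ε2 ≤ ε1 := by
    rw [hε2]
    exact min_le_right _ _
  obtain ⟨L, hL⟩ : ∃ L : ℝ, L = (|Real.log B2| + |Real.log ε2|) / (2 * Real.pi) := ⟨_, rfl⟩
  have hdich : ∀ k : ℤ, k ∉ {m : ℤ | |(s m / c0).im| ≤ L} →
      B2 < ‖E (F (s k))‖ ∨ ‖E (F (s k))‖ < ε2 := by
    intro k hk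
    by_contra hcon
    push Not at hcon
    apply hk
    obtain ⟨c1, c2⟩ := hcon
    rw [hnorm] at c1 c2
    have c3 := Real.log_le_log (Real.exp_pos _) c1
    have c4 := Real.log_le_log hε20 c2
    rw [Real.log_exp] at c3 c4
    show |(s k / c0).im| ≤ L
    rw [hL, le_div_iff₀ (by positivity)]
    have c5 := le_abs_self (Real.log B2)
    have c6 := neg_abs_le (Real.log ε2)
    have c7 := abs_nonneg (Real.log B2)
    have c8 := abs_nonneg (Real.log ε2)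
    rcases abs_cases (s k / c0).im with ⟨c9, -⟩ | ⟨c9, -⟩
    · rw [c9]
      linarith
    · rw [c9]
      linarith
  obtain ⟨K, hK⟩ : ∃ K : ℝ, K = max C (max (ρ1⁻¹) (C * (|R1| + 1))) := ⟨_, rfl⟩
  have hKC : C ≤ K := by
    rw [hK]
    exact le_max_left _ _
  have hKρ : ρ1⁻¹ ≤ K := by
    rw [hK]
    exact (le_max_left _ _).trans (le_max_right _ _)
  have hKR : C * (|R1| + 1) ≤ K := by
    rw [hK]
    exact (le_max_right _ _).trans (le_max_right _ _)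
  have hK0 : 0 < K := lt_of_lt_of_le hC0 hKC
  obtain ⟨m, m', hm, hm', h1, h2⟩ := pick h.C1 hsF (hfin L) hK0
  have h3 : ‖F (s m)‖ < C⁻¹ := h1.trans_le (inv_anti₀ hC0 hKC)
  have h4 : ‖F (s m)‖ < ρ1 := by
    refine h1.trans_le ?_
    have := inv_anti₀ (inv_pos.2 hρ1') hKρ
    rwa [inv_inv] at this
  have h5 : 1 < ‖F (s m')‖ := by
    refine lt_of_le_of_lt ?_ h2
    rw [le_div_iff₀ hC0, one_mul]
    exact hKC
  have h6 : R1 < ‖F (s m')‖ := by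
    refine lt_of_le_of_lt ?_ h2
    rw [le_div_iff₀ hC0]
    have := le_abs_self R1
    nlinarith
  have hj := wd_jump h.θ0 h.θ1 h.C1 h.gp h.Pc hψ hE hEi hρ1 hρ2
    (s_in hψ hρ1 (h.Fv _ (hsS m)) h3) (s_out hψ hρ2 (h.Fv _ (hsS m')) h5)
  have hbig : ∀ k : ℤ, B2 < ‖E (F (s k))‖ → nn (E ∘ ψ) ((θ + 1) / 2) (E (F (s k))) = 0 :=
    fun k hk => hB1 _ (hB1B2.trans_lt hk)
  have hsmall : ∀ k : ℤ, ‖E (F (s k))‖ < ε2 →
      nn (E ∘ ψ) ((θ + 1) / 2) (E (F (s k))) = nn (E ∘ ψ) ((θ + 1) / 2) 0 :=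
    fun k hk => hn1 _ (by rw [sub_zero]; exact hk.trans_le hε1ε2)
  rcases hdich m hm with a1 | a1 <;> rcases hdich m' hm' with a2 | a2
  · exfalso
    rw [hbig m a1, hbig m' a2, sub_zero] at hj
    exact Complex.two_pi_I_ne_zero hj.symm
  · exact ⟨F (s m), F (s m'), h.Fv _ (hsS m), h.Fv _ (hsS m'), Or.inl h4, Or.inr h6,
      hBB2.trans_lt a1, a2.trans_le hεε2⟩
  · exact ⟨F (s m'), F (s m), h.Fv _ (hsS m'), h.Fv _ (hsS m), Or.inr h6, Or.inl h4,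
      hBB2.trans_lt a2, a1.trans_le hεε2⟩
  · exfalso
    rw [hsmall m a1, hsmall m' a2, sub_self] at hj
    exact Complex.two_pi_I_ne_zero hj.symm

end Pool.Agent.H65.UB
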