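import Pool.Agent.H65.UB.Pck

/-!
# Limit frames: no scaling deck transformations

(`Sq`, `seqs`, `sepn`: see `Pck.lean`.)

`noscale`: NO `(t1, c1)` with `|t1| ≠ 1`: by `dich` all elements fix `s0`. Then `|t m| ≠ 1`: otherwise (`c = s0 - t s0`) the square is the
identity. There is `δ > 0` with `|t - 1| ≥ δ` for all `Dk F S t c`, `t ≠ 1` (`disc` at one point `s ∈ S`: `t s + c - s = (t - 1) (s - s0)`,
and `s ≠ s0` by `free`). So `‖t m s m + c m - s m‖ ≥ δ ‖s m - s0‖`, `s m ≠ s0` (`free`). Let `λ = |t1|^(±1) > 1`, `(t1, c1)` or its inverse; for every `m` choose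
`n : ℤ` with `1 ≤ ‖t1^n (s m - s0)‖ ≤ λ` (powers `dk_zpow`), `v m = s0 + t1^n (s m - s0)`. `v : ℤ → ℂ` is a map into a compact set;
two different `m`, `m'` have `‖v m - v m'‖ < δ / K` (pigeonhole: an infinite set of indices, a compact set: e.g.
`tendsto_subseq` for `m : ℕ`, or `Metric` finite covers). Apply the element which takes `v m` back to `s m` (`dk_inv`, factor `|t1|^(-n)`): `‖T s m' - s m‖ < |t1|^(-n) δ / K ≤
‖s m - s0‖ δ / K`, as `‖s m - s0‖ = |t1|^(-n) ‖v m - s0‖ ≥ |t1|^(-n)`: contradiction to `sepn`.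
-/

set_option autoImplicit false

open Filter Topology Metric Set

namespace Pool.Agent.H65.UB

open Pool.Agent.H56.UD

private theorem pigeon {v : ℕ → ℂ} {x : ℂ} {R ε : ℝ} (hv : ∀ m, v m ∈ closedBall x R)
    (hε : 0 < ε) : ∃ m m' : ℕ, m ≠ m' ∧ ‖v m' - v m‖ < ε := by
  obtain ⟨a, -, φ, hφ, ha⟩ := (isCompact_closedBall x R).tendsto_subseq hv
  obtain ⟨N, hN⟩ := Metric.tendsto_atTop.1 ha (ε / 2) (by positivity)
  refine ⟨φ N, φ (N + 1), fun h => absurd (hφ.injective h) (by omega), ?_⟩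
  have h1 := hN N le_rfl
  have h2 := hN (N + 1) (by omega)
  simp only [Function.comp] at h1 h2
  rw [← dist_eq_norm]
  calc dist (v (φ (N + 1))) (v (φ N)) ≤ dist (v (φ (N + 1))) a + dist (v (φ N)) a :=
        dist_triangle_right _ _ _
    _ < ε := by linarith

theorem noscale {F : ℂ → ℂ} {S Φ : Set ℂ} {θ C : ℝ} (h : LF F S Φ θ C) {t' : ℝ} {c' : ℂ} (hd : Dk F S t' c') : |t'| = 1 := by
  by_contra h1
  obtain ⟨s0, hs0⟩ := dich h hd h1
  obtain ⟨K, s, t, c, hs⟩ := seqs h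
  have hK := hs.K0
  have hfix : ∀ m, s m ≠ s0 := by
    intro m hm
    have h2 := hs0 _ _ hd
    have h3 := free h hd (hs.sS m) (by rw [hm, h2]; ring)
    exact h1 (by rw [h3.1]; exact abs_one)
  have htm : ∀ m, t m ≠ 1 := by
    intro m hm
    have h2 := hs0 _ _ (hs.dk m)
    refine hs.sq m ⟨by rw [hm]; norm_num, ?_⟩
    rw [h2, hm]
    push_cast
    ring
  obtain ⟨δ, hδ, hdisc⟩ := disc h (hs.sS 0)
  have hD : 0 < ‖s 0 - s0‖ := norm_pos_iff.2 (sub_ne_zero.2 (hfix 0))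
  have hlow : ∀ m, δ / ‖s 0 - s0‖ * ‖s m - s0‖ ≤ ‖(t m : ℂ) * s m + c m - s m‖ := by
    intro m
    have h2 := hs0 _ _ (hs.dk m)
    have h3 := hdisc _ _ (hs.dk m) (fun h => htm m h.1)
    have e : ∀ u : ℂ, (t m : ℂ) * u + c m - u = ((t m : ℂ) - 1) * (u - s0) := by
      intro u
      rw [h2]
      ring
    rw [e, norm_mul] at h3
    rw [e, norm_mul]
    have h4 : δ / ‖s 0 - s0‖ ≤ ‖(t m : ℂ) - 1‖ := by rwa [div_le_iff₀ hD]
    gcongr
  obtain ⟨τ, hτ, hτd⟩ : ∃ τ : ℝ, 1 < |τ| ∧ Dk F S τ (s0 - τ * s0) := by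
    have h2 := hs0 _ _ hd
    have h0 : t' ≠ 0 := hd.1
    rcases lt_or_gt_of_ne h1 with h3 | h3
    · refine ⟨t'⁻¹, ?_, ?_⟩
      · rw [abs_inv]
        exact (one_lt_inv₀ (abs_pos.2 h0)).2 h3
      · have h4 := dk_inv h hd
        rwa [hs0 _ _ h4] at h4
    · refine ⟨t', h3, ?_⟩
      rwa [h2] at hd
  have hτ0 : τ ≠ 0 := hτd.1
  have hτp : 0 < |τ| := abs_pos.2 hτ0
  have hex : ∀ m : ℕ, ∃ n : ℤ, |τ| ^ n ≤ ‖s m - s0‖ ∧ ‖s m - s0‖ < |τ| ^ (n + 1) := by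
    intro m
    obtain ⟨n, hn⟩ := exists_mem_Ico_zpow (norm_pos_iff.2 (sub_ne_zero.2 (hfix m))) hτ
    exact ⟨n, hn.1, hn.2⟩
  choose n hn1 hn2 using hex
  obtain ⟨v, hv⟩ : ∃ v : ℕ → ℂ, v = fun m : ℕ => s0 + (τ : ℂ) ^ (-n m) * (s m - s0) := ⟨_, rfl⟩
  have hτc : (τ : ℂ) ≠ 0 := by exact_mod_cast hτ0
  have hvb : ∀ m, v m ∈ closedBall s0 |τ| := by
    intro m
    rw [mem_closedBall, dist_eq_norm, hv]
    simp only [add_sub_cancel_left]
    rw [norm_mul, norm_zpow, Complex.norm_real, Real.norm_eq_abs]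
    calc |τ| ^ (-n m) * ‖s m - s0‖ ≤ |τ| ^ (-n m) * |τ| ^ (n m + 1) := by
          have := (hn2 m).le
          gcongr
      _ = |τ| := by
          rw [← zpow_add₀ hτp.ne']
          simp
  obtain ⟨m, m', hne, hlt⟩ := pigeon hvb (ε := δ / ‖s 0 - s0‖ / K) (by positivity)
  have hT := dk_zpow h hτd (n m - n m')
  have hsep := sepn h hs (m := m) (m' := m') (by exact_mod_cast hne) hT
  have e : (((τ ^ (n m - n m') : ℝ) : ℂ)) * s m' + (s0 - ((τ ^ (n m - n m') : ℝ) : ℂ) * s0) - s m =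
      (τ : ℂ) ^ (n m) * (v m' - v m) := by
    rw [hv]
    simp only
    push_cast
    rw [zpow_sub₀ hτc, zpow_neg, zpow_neg]
    have := zpow_ne_zero (n m) hτc
    field_simp
    ring
  rw [e, norm_mul, norm_zpow, Complex.norm_real, Real.norm_eq_abs] at hsep
  have k1 : |τ| ^ (n m) * ‖v m' - v m‖ < |τ| ^ (n m) * (δ / ‖s 0 - s0‖ / K) :=
    mul_lt_mul_of_pos_left hlt (zpow_pos hτp _)
  have k2 : |τ| ^ (n m) * (δ / ‖s 0 - s0‖ / K) ≤ ‖s m - s0‖ * (δ / ‖s 0 - s0‖ / K) :=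
    mul_le_mul_of_nonneg_right (hn1 m) (by positivity)
  have k3 : ‖s m - s0‖ * (δ / ‖s 0 - s0‖ / K) ≤ ‖(t m : ℂ) * s m + c m - s m‖ / K := by
    rw [mul_div_assoc', mul_comm]
    exact div_le_div_of_nonneg_right (hlow m) hK.le
  linarith

end Pool.Agent.H65.UB
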