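import Pool.Agent.H65.UB.Kbf

/-!
# Limit frames: packing

`seqs`: for `m : ℤ` let `ψ m`, `q m` be as in `ord` at the scale `r = (2 C) ^ m`, `s m = q m (zt θ)`, `(t m, c m)` the holonomy of
`q m` (`hol`). FACTS (`seqs`): `s m ∈ S`; `F (s m) = ψ m (√θ)`, so `(2 C)^m / C ≤ ‖F (s m)‖ < (2 C)^m` (`gd_far` with `x = 0`);
`Dk F S (t m) (c m)`; the square of the holonomy is not the identity: otherwise, `q (ζ + 4 π i) = T (q (ζ + 2 π i)) = T (T (q ζ)) = q ζ` for all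
`ζ ∈ Qc θ` with `ζ + 4 π i ∈ Qc θ` (then also `ζ + 2 π i ∈ Qc θ`, convex), that is `Cls θ 2 (q m)`; in formulas `¬ (t^2 = 1 ∧ t c + c = 0)`;
`ball (s m) (‖t m * s m + c m - s m‖ / K) ⊆ q m '' Qc θ` (`kb`), and all its points `v` satisfy
`v ∈ S`, `(2 C)^m / C ≤ ‖F v‖ < (2 C)^m` (`gd_far` again; `exp ζ ∈ An θ` for `ζ ∈ Qc θ`): this is the last field.

`sepn`: consequently for `m ≠ m'` and every deck transformation `(t, c)`:
`‖t * s m' + c - s m‖ ≥ ‖t m * s m + c m - s m‖ / K`: otherwise `t * s m' + c` is in this ball, `F` of it is `F (s m')`, and the two ranges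
`[(2C)^m / C, (2C)^m)` are disjoint for different `m` (`2 C ≥ 2`, `(2C)^(m-1) ≤ (2C)^m / C`).
-/

set_option autoImplicit false

open Filter Topology Metric Set

namespace Pool.Agent.H65.UB

open Pool.Agent.H56.UD

/-- the data of the nested collars -/
structure Sq (F : ℂ → ℂ) (S Φ : Set ℂ) (θ C K : ℝ) (s : ℤ → ℂ) (t : ℤ → ℝ) (c : ℤ → ℂ) : Prop where
  K0 : 0 < K
  sS : ∀ m, s m ∈ S
  dk : ∀ m, Dk F S (t m) (c m)
  sq : ∀ m, ¬ (t m * t m = 1 ∧ (t m : ℂ) * c m + c m = 0)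
  bl : ∀ m, ∀ v ∈ insert (s m) (ball (s m) (‖(t m : ℂ) * s m + c m - s m‖ / K)),
    (2 * C) ^ m / C ≤ ‖F v‖ ∧ ‖F v‖ < (2 * C) ^ m

private theorem pck_exp {θ : ℝ} (hθ : 0 < θ) {ζ : ℂ} (hζ : ζ ∈ Qc θ) :
    θ ≤ ‖Complex.exp ζ‖ ∧ ‖Complex.exp ζ‖ < 1 := by
  obtain ⟨h1, h2, -⟩ := hζ
  rw [Complex.norm_exp]
  constructor
  · rw [← Real.log_le_iff_le_exp hθ]
    exact h1.le
  · rw [← Real.exp_zero]
    exact Real.exp_lt_exp.2 h2

private theorem pck_mid {θ : ℝ} {ζ : ℂ} (hζ : ζ ∈ Qc θ) (hζ2 : ζ + (2 : ℕ) * (2 * Real.pi * Complex.I) ∈ Qc θ) :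
    ζ + 2 * Real.pi * Complex.I ∈ Qc θ := by
  obtain ⟨h1, h2, h3⟩ := hζ
  obtain ⟨h4, h5, h6⟩ := hζ2
  have e1 : (ζ + 2 * Real.pi * Complex.I).re = ζ.re := by simp
  have e2 : (ζ + 2 * Real.pi * Complex.I).im = ζ.im + 2 * Real.pi := by simp
  have e3 : (ζ + (2 : ℕ) * (2 * Real.pi * Complex.I)).im = ζ.im + 2 * (2 * Real.pi) := by simp
  rw [e3] at h6
  rw [abs_lt] at h3 h6
  refine ⟨by rw [e1]; exact h1, by rw [e1]; exact h2, ?_⟩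
  rw [e2, abs_lt]
  constructor <;> linarith [h3.1, h3.2, h6.1, h6.2, Real.pi_pos]

theorem seqs {F : ℂ → ℂ} {S Φ : Set ℂ} {θ C : ℝ} (h : LF F S Φ θ C) :
    ∃ (K : ℝ) (s : ℤ → ℂ) (t : ℤ → ℝ) (c : ℤ → ℂ), Sq F S Φ θ C K s t c := by
  have hC := h.C1
  have hpos : ∀ m : ℤ, 0 < (2 * C) ^ m := fun m => zpow_pos (by linarith) m
  obtain ⟨K, hK, hkb⟩ := kb h.θ0 h.θ1
  choose ψ q hgd hlf hcl using fun m : ℤ => h.ord _ (hpos m)
  choose t c hdk hhol using fun m : ℤ => hol h (hlf m)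
  obtain ⟨hz1, hz2, -⟩ := zt_mem h.θ0 h.θ1
  refine ⟨K, fun m => q m (zt θ), t, c, hK, fun m => ((hlf m).val _ hz1).1, hdk, ?_, ?_⟩
  · rintro m ⟨h1, h2⟩
    apply hcl m
    intro ζ hζ hζ2
    have h3 := pck_mid hζ hζ2
    have h4 := hhol m ζ hζ h3
    have e : ζ + (2 : ℕ) * (2 * Real.pi * Complex.I) = (ζ + 2 * Real.pi * Complex.I) + 2 * Real.pi * Complex.I := by
      push_cast; ring
    rw [e] at hζ2 ⊢
    rw [hhol m _ h3 hζ2, h4]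
    have h5 : (t m : ℂ) * (t m : ℂ) = 1 := by exact_mod_cast h1
    linear_combination (q m ζ) * h5 + h2
  · intro m v hv
    have hv' : v ∈ q m '' Qc θ := by
      rcases hv with hv | hv
      · exact ⟨zt θ, hz1, hv.symm⟩
      · apply hkb F S Φ C 0 _ (ψ m) (q m) (hgd m) (hlf m)
        rw [hhol m _ hz1 hz2]
        exact hv
    obtain ⟨ζ, hζ, rfl⟩ := hv'
    obtain ⟨h1, h2⟩ := pck_exp h.θ0 hζ
    have h3 := gd_far (hgd m) h.θ1 h1 h2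
    rw [sub_zero] at h3
    rw [((hlf m).val ζ hζ).2]
    exact h3

private theorem pck_disj {C : ℝ} (hC : 1 ≤ C) {m m' : ℤ} (hm : m < m') {x : ℝ} (h1 : x < (2 * C) ^ m)
    (h2 : (2 * C) ^ m' / C ≤ x) : False := by
  have h2C : (1 : ℝ) ≤ 2 * C := by linarith
  have hC0 : 0 < C := by linarith
  have hp : 0 < (2 * C) ^ m := zpow_pos (by linarith) m
  have h3 : (2 * C) ^ (m + 1) ≤ (2 * C) ^ m' := zpow_le_zpow_right₀ h2C (by omega)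
  have h4 : (2 * C) ^ (m + 1) = (2 * C) ^ m * (2 * C) := zpow_add_one₀ (by linarith) m
  rw [div_le_iff₀ hC0] at h2
  rw [h4] at h3
  have h5 : x * C < (2 * C) ^ m * C := mul_lt_mul_of_pos_right h1 hC0
  nlinarith [mul_pos hp hC0]

theorem sepn {F : ℂ → ℂ} {S Φ : Set ℂ} {θ C : ℝ} (h : LF F S Φ θ C) {K : ℝ} {s : ℤ → ℂ} {t : ℤ → ℝ} {c : ℤ → ℂ}
    (hs : Sq F S Φ θ C K s t c) {m m' : ℤ} (hm : m ≠ m') {t' : ℝ} {c' : ℂ} (hd : Dk F S t' c') :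
    ‖(t m : ℂ) * s m + c m - s m‖ / K ≤ ‖(t' : ℂ) * s m' + c' - s m‖ := by
  by_contra hlt
  push Not at hlt
  have h1 : (t' : ℂ) * s m' + c' ∈ insert (s m) (ball (s m) (‖(t m : ℂ) * s m + c m - s m‖ / K)) := by
    refine Or.inr ?_
    rw [mem_ball, dist_eq_norm]
    exact hlt
  have h2 := hs.bl m _ h1
  rw [(hd.2 _ (hs.sS m')).2] at h2
  have h3 := hs.bl m' (s m') (mem_insert _ _)
  rcases lt_or_gt_of_ne hm with h4 | h4
  · exact pck_disj h.C1 h4 h2.2 h3.1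
  · exact pck_disj h.C1 h4 h3.2 h2.1

end Pool.Agent.H65.UB
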