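import Pool.Agent.H65.UB.Nrf

/-!
# Limit frames: gap discs away from `0` have trivial holonomy

`c0`, `E` as in `ends`. `ψ` a gap disc at `(x, r)`, `0 < r ≤ ‖x‖ / 2`, `ρ = √θ`. `E` has no zeros in `Φᶜ`. Let `B1`, `ε1` be the constants of `wd_far` and
`wd_near` (at `e0 = 0`). `ends` with `B1`, `ε1`, `ρ1 = ‖x‖ / 2`, `R1 = 2 ‖x‖`: `w`, `w'` with norm `< ‖x‖ / 2` or `> 2 ‖x‖`, so they are not in
`ball x r ⊇ ψ '' closedBall 0 ρ`; so (`wd_out`) `0 = nn (E ∘ ψ) ρ (E w) = nn (E ∘ ψ) ρ (E w') = nn (E ∘ ψ) ρ 0`.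
A lift `q` (`Lf F S θ ψ q`): `E (ψ (exp ζ)) = E (F (q ζ)) = exp (2 π i q ζ / c0)` on `Qc θ`; `nn_lift` with `Q ζ = 2 π i q ζ / c0`, `e = 0`, `V = Qc θ`
(open, contains `log ρ + i t`, `0 ≤ t ≤ 2 π`; `log √θ = log θ / 2`): `0 = nn (E ∘ ψ) ρ 0 = 2 π i (q (log ρ + 2 π i) - q (log ρ)) / c0`. `hol`: `q (ζ + 2 π i) = t q ζ + c`,
`t = 1` (`ends`), so `c = 0`, and `Cls θ 1 q`.
-/

set_option autoImplicit false

open Filter Topology Metric Set

namespace Pool.Agent.H65.UB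

open Pool.Agent.H56.UD

theorem tri {F : ℂ → ℂ} {S Φ : Set ℂ} {θ C : ℝ} (h : LF F S Φ θ C) {x : ℂ} (hx : x ≠ 0) {r : ℝ} (hr : 0 < r) (hr' : r ≤ ‖x‖ / 2)
    {ψ q : ℂ → ℂ} (hψ : GD θ C Φ x r ψ) (hq : Lf F S θ ψ q) : Cls θ 1 q := by
  obtain ⟨c0, E, hc0, -, hall, hE, hEi, hEe, hends⟩ := ends h
  obtain ⟨t, c, hdk, hhol⟩ := hol h hq
  obtain ⟨ht1, -, -⟩ := hall t c hdk
  have hE0 : ∀ w, w ∉ Φ → E w ≠ 0 := by
    intro w hw
    obtain ⟨s, hs, rfl⟩ := h.onto w hw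
    rw [hEe s hs]
    exact Complex.exp_ne_zero _
  have hθ0 := h.θ0
  have hθ1 := h.θ1
  obtain ⟨ρ, hρ⟩ : ∃ ρ : ℝ, ρ = √θ := ⟨_, rfl⟩
  have hρ0 : 0 < ρ := by
    rw [hρ]
    exact Real.sqrt_pos.2 hθ0
  have hρ2 : ρ * ρ = θ := by
    rw [hρ]
    exact Real.mul_self_sqrt hθ0.le
  have h2 : ρ < 1 := by
    by_contra hc
    push Not at hc
    nlinarith
  have h1 : θ < ρ := by nlinarith
  have hlogρ : Real.log ρ = Real.log θ / 2 := by
    rw [hρ]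
    exact Real.log_sqrt hθ0.le
  have hlog : Real.log θ < 0 := Real.log_neg hθ0 hθ1
  have hpi := Real.pi_pos
  obtain ⟨B1, hB1⟩ := wd_far hθ0 h.Pc hψ hE hEi h1 h2
  obtain ⟨ε1, hε1, hnear⟩ := wd_near (e0 := 0) hθ0 h.Pc hψ hE hEi h1 h2
    (fun u hu => hE0 _ (hψ.col u (by linarith) (by linarith)))
  have hx0 : 0 < ‖x‖ := norm_pos_iff.2 hx
  obtain ⟨w, w', hw, hw', hwx, hwx', hwB, hwε⟩ := hends B1 ε1 (‖x‖ / 2) (2 * ‖x‖) hε1 (by positivity)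
  have hout : ∀ v : ℂ, (‖v‖ < ‖x‖ / 2 ∨ 2 * ‖x‖ < ‖v‖) → v ∉ ψ '' closedBall 0 ρ := by
    rintro v hv ⟨u, hu, rfl⟩
    have h3 : ψ u ∈ ball x r := hψ.out ⟨u, closedBall_subset_ball h2 hu, rfl⟩
    rw [mem_ball, dist_eq_norm] at h3
    rcases hv with hv | hv
    · have h4 := norm_sub_norm_le x (ψ u)
      rw [norm_sub_rev] at h4
      linarith
    · have h4 := norm_sub_norm_le (ψ u) x
      linarith
  have e1 : nn (E ∘ ψ) ρ (E w) = nn (E ∘ ψ) ρ (E w') :=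
    wd_out hθ0 hθ1 h.C1 h.gp h.Pc hψ hE hEi h1 h2 ⟨hout w hwx, hw⟩ ⟨hout w' hwx', hw'⟩
  rw [hB1 _ hwB, hnear (E w') (by rwa [sub_zero])] at e1
  have hre : ∀ s : ℝ, (((Real.log ρ : ℝ) : ℂ) + s * Complex.I).re = Real.log ρ := by
    intro s
    simp
  have him : ∀ s : ℝ, (((Real.log ρ : ℝ) : ℂ) + s * Complex.I).im = s := by
    intro s
    simp
  have hseg : ∀ s ∈ Icc (0 : ℝ) (2 * Real.pi), (Real.log ρ : ℂ) + s * Complex.I ∈ Qc θ := by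
    intro s hs
    refine ⟨?_, ?_, ?_⟩
    · rw [hre, hlogρ]
      linarith
    · rw [hre, hlogρ]
      linarith
    · rw [him, abs_of_nonneg hs.1]
      linarith [hs.2]
  have hm0 : (Real.log ρ : ℂ) ∈ Qc θ := by
    have h3 := hseg 0 ⟨le_rfl, by positivity⟩
    rwa [Complex.ofReal_zero, zero_mul, add_zero] at h3
  have hm1 : (Real.log ρ : ℂ) + 2 * Real.pi * Complex.I ∈ Qc θ := by
    have h3 := hseg (2 * Real.pi) ⟨by positivity, le_rfl⟩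
    push_cast at h3
    exact h3
  have hQo : IsOpen (Qc θ) :=
    (isOpen_lt continuous_const Complex.continuous_re).inter
      ((isOpen_lt Complex.continuous_re continuous_const).inter
        (isOpen_lt (continuous_abs.comp Complex.continuous_im) continuous_const))
  have hnl := nn_lift (h := E ∘ ψ) (Q := fun ζ => 2 * Real.pi * Complex.I * q ζ / c0) hρ0
    (fun u hu => (wd_an h.Pc hψ hE hEi).2.2 u (by rw [mem_sphere_zero_iff_norm.1 hu]; exact h1)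
      (by rw [mem_sphere_zero_iff_norm.1 hu]; exact h2)) (e := 0) hQo hseg
    ((hq.diff.const_mul _).div_const _) (fun ζ hζ => by
      obtain ⟨a1, a2⟩ := hq.val ζ hζ
      rw [sub_zero, Function.comp_apply, ← a2, hEe _ a1])
  rw [← e1] at hnl
  have hh := hhol _ hm0 hm1
  rw [hh, ht1] at hnl
  have hc : c = 0 := by
    have h3 : (2 : ℂ) * Real.pi * Complex.I ≠ 0 := Complex.two_pi_I_ne_zero
    have h4 : 2 * (Real.pi : ℂ) * Complex.I * c / c0 = 0 := by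
      rw [Complex.ofReal_one] at hnl
      linear_combination -hnl
    rw [div_eq_zero_iff] at h4
    exact (mul_eq_zero.1 (h4.resolve_right hc0)).resolve_left h3
  intro ζ hζ hζ'
  have e : ζ + ((1 : ℕ) : ℂ) * (2 * Real.pi * Complex.I) = ζ + 2 * Real.pi * Complex.I := by
    push_cast
    ring
  rw [e] at hζ' ⊢
  rw [hhol ζ hζ hζ', ht1, hc, Complex.ofReal_one, one_mul, add_zero]

end Pool.Agent.H65.UB
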