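import Pool.Agent.H65.UB.Nsc

/-!
# Limit frames: the translations have rank one

(`Sq`, `seqs`, `sepn`: see `Pck.lean`; `noscale`: `Nsc.lean`.)

`trans`: so all `|t| = 1`. `t m = 1` (if `t m = -1`, the square is the identity), `c m ≠ 0`, and `‖c m‖ ≥ δ > 0` (`disc`, `t s + c - s = c`). The set
`Λ = {c | Dk F S 1 c}` is a discrete subgroup (`dk_mul`, `dk_inv`, `disc`): let `c0 ∈ Λ` be of minimal norm, `c0 ≠ 0` (it exists: bounded
sets contain finitely many elements of `Λ`, as two different ones have distance `≥ δ`). RANK ONE: if `c ∈ Λ` is not an integer multiple of `c0`: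
if `c = x c0`, `x` real, then `(x - round x) c0 ∈ Λ` is shorter: contradiction; so `c0`, `c` are linearly independent over the reals, and each
`s m` can be moved by `Λ` into the bounded set `{x c0 + y c | x, y ∈ [0, 1]}`; pigeonhole: two different `m`, `m'` with
`‖T s m' - s m‖ < δ / K` (`T` a translation): contradiction to `sepn`. In the same way `{m | |Im (s m / c0)| ≤ B}` is finite for every `B`: these
`s m` can be moved by multiples of `c0` into a bounded set (`0 ≤ Re (s / c0) ≤ 1`).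
-/

set_option autoImplicit false

open Filter Topology Metric Set

namespace Pool.Agent.H65.UB

open Pool.Agent.H56.UD

private theorem pigeon {v : ℕ → ℂ} {x : ℂ} {R ε : ℝ} (hv : ∀ m, v m ∈ closedBall x R)
    (hε : 0 < ε) : ∃ m m' : ℕ, m ≠ m' ∧ ‖v m' - v m‖ < ε := by
  obtain ⟨a, -, φ, hφ, ha⟩ := (isCompact_closedBall x R).tendsto_subseq hv
  obtain ⟨N, hN⟩ := Metric.tendsto_atTop.1 ha (ε / 2) (by positivity)
  refine ⟨φ N, φ (N + 1), fun h => absurd (hφ.injective h) (by omega), ?_⟩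
  have h1 := hN N le_rfl
  have h2 := hN (N + 1) (by omega)
  simp only [Function.comp] at h1 h2
  rw [← dist_eq_norm]
  calc dist (v (φ (N + 1))) (v (φ N)) ≤ dist (v (φ (N + 1))) a + dist (v (φ N)) a :=
        dist_triangle_right _ _ _
    _ < ε := by linarith

private theorem tr_add {F : ℂ → ℂ} {S : Set ℂ} {c c' : ℂ} (h : Dk F S 1 c) (h' : Dk F S 1 c') :
    Dk F S 1 (c + c') := by
  have h1 := dk_mul h h'
  rw [one_mul, Complex.ofReal_one, one_mul, add_comm] at h1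
  exact h1

private theorem tr_sub {F : ℂ → ℂ} {S Φ : Set ℂ} {θ C : ℝ} (h : LF F S Φ θ C) {c c' : ℂ}
    (hc : Dk F S 1 c) (hc' : Dk F S 1 c') (n : ℤ) : Dk F S 1 (c - n * c') := by
  have h1 := tr_add hc (dk_zmul h hc' (-n))
  have e : c + ((-n : ℤ) : ℂ) * c' = c - n * c' := by
    push_cast
    ring
  rwa [e] at h1

private theorem nobd {F : ℂ → ℂ} {S Φ : Set ℂ} {θ C : ℝ} (h : LF F S Φ θ C) {K : ℝ} {s : ℤ → ℂ}
    {t : ℤ → ℝ} {c : ℤ → ℂ} (hs : Sq F S Φ θ C K s t c) {δ : ℝ} (hδ : 0 < δ)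
    (hc : ∀ m, δ ≤ ‖(t m : ℂ) * s m + c m - s m‖) {e : ℕ → ℤ} (he : Function.Injective e)
    {l : ℕ → ℂ} (hl : ∀ j, Dk F S 1 (l j)) {R : ℝ} (hb : ∀ j, ‖s (e j) + l j‖ ≤ R) : False := by
  obtain ⟨m, m', hne, hlt⟩ := pigeon (v := fun j => s (e j) + l j) (x := 0) (R := R)
    (fun j => by rw [mem_closedBall, dist_zero_right]; exact hb j) (ε := δ / K)
    (div_pos hδ hs.K0)
  have hT : Dk F S 1 (l m' - l m) := by
    have h1 := tr_sub h (hl m') (hl m) 1
    rwa [Int.cast_one, one_mul] at h1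
  have hsep := sepn h hs (m := e m) (m' := e m') (fun h => hne (he h)) hT
  have e1 : ((1 : ℝ) : ℂ) * s (e m') + (l m' - l m) - s (e m) =
      (s (e m') + l m') - (s (e m) + l m) := by
    push_cast
    ring
  rw [e1] at hsep
  have h2 : δ / K ≤ ‖(t (e m) : ℂ) * s (e m) + c (e m) - s (e m)‖ / K :=
    div_le_div_of_nonneg_right (hc _) hs.K0.le
  linarith

private theorem move {c0 : ℂ} (h0 : c0 ≠ 0) {z : ℂ} {B : ℝ} (hz : |(z / c0).im| ≤ B) :
    ‖z - (⌊(z / c0).re⌋ : ℂ) * c0‖ ≤ ‖c0‖ * (1 + B) := by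
  obtain ⟨w, hw⟩ : ∃ w : ℂ, w = z / c0 := ⟨_, rfl⟩
  rw [← hw] at hz ⊢
  have e : z - (⌊w.re⌋ : ℂ) * c0 = c0 * (w - (⌊w.re⌋ : ℂ)) := by
    rw [hw]
    field_simp
  rw [e, norm_mul]
  refine mul_le_mul_of_nonneg_left ?_ (norm_nonneg _)
  refine (Complex.norm_le_abs_re_add_abs_im _).trans ?_
  have h1 : (w - (⌊w.re⌋ : ℂ)).re = w.re - ⌊w.re⌋ := by simp
  have h2 : (w - (⌊w.re⌋ : ℂ)).im = w.im := by simp
  rw [h1, h2]
  have h3 := Int.floor_le w.re
  have h4 := Int.lt_floor_add_one w.re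
  have h5 : |w.re - ⌊w.re⌋| ≤ 1 := by
    rw [abs_le]
    constructor <;> linarith
  linarith

theorem trans {F : ℂ → ℂ} {S Φ : Set ℂ} {θ C : ℝ} (h : LF F S Φ θ C) :
    ∃ (c0 : ℂ) (s : ℤ → ℂ), c0 ≠ 0 ∧ Dk F S 1 c0 ∧ (∀ c, Dk F S 1 c → ∃ n : ℤ, c = n * c0) ∧ (∀ m, s m ∈ S) ∧
      (∀ m, (2 * C) ^ m / C ≤ ‖F (s m)‖ ∧ ‖F (s m)‖ < (2 * C) ^ m) ∧ ∀ B : ℝ, {m : ℤ | |(s m / c0).im| ≤ B}.Finite := by
  obtain ⟨K, s, t, c, hs⟩ := seqs h
  have ht : ∀ m, t m = 1 := by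
    intro m
    have h1 := noscale h (hs.dk m)
    rcases (abs_eq zero_le_one).1 h1 with h2 | h2
    · exact h2
    · exfalso
      refine hs.sq m ⟨by rw [h2]; norm_num, ?_⟩
      rw [h2]
      push_cast
      ring
  have hc : ∀ m, c m ≠ 0 := by
    intro m hm
    exact hs.sq m ⟨by rw [ht]; norm_num, by rw [hm]; ring⟩
  obtain ⟨δ, hδ, hdisc⟩ := disc h (hs.sS 0)
  have hδc : ∀ x : ℂ, Dk F S 1 x → x ≠ 0 → δ ≤ ‖x‖ := by
    intro x hx hx0
    have h1 := hdisc 1 x hx (fun h => hx0 h.2)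
    have e : ((1 : ℝ) : ℂ) * s 0 + x - s 0 = x := by
      push_cast
      ring
    rwa [e] at h1
  have hdk : ∀ m, Dk F S 1 (c m) := by
    intro m
    have h1 := hs.dk m
    rwa [ht] at h1
  have hδm : ∀ m, δ ≤ ‖(t m : ℂ) * s m + c m - s m‖ := by
    intro m
    have e : (t m : ℂ) * s m + c m - s m = c m := by
      rw [ht]
      push_cast
      ring
    rw [e]
    exact hδc _ (hdk m) (hc m)
  obtain ⟨c0, hc00, hc0d, hmin⟩ : ∃ c0 : ℂ, c0 ≠ 0 ∧ Dk F S 1 c0 ∧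
      ∀ x : ℂ, Dk F S 1 x → x ≠ 0 → ‖c0‖ ≤ ‖x‖ := by
    have hfin : {x : ℂ | Dk F S 1 x ∧ x ≠ 0 ∧ ‖x‖ ≤ ‖c 0‖}.Finite := by
      by_contra hinf
      have hinf' : {x : ℂ | Dk F S 1 x ∧ x ≠ 0 ∧ ‖x‖ ≤ ‖c 0‖}.Infinite := hinf
      obtain ⟨m, m', hne, hlt⟩ := pigeon (v := fun j => (hinf'.natEmbedding _ j : ℂ)) (x := 0)
        (R := ‖c 0‖) (fun j => by
          rw [mem_closedBall, dist_zero_right]
          exact (hinf'.natEmbedding _ j).2.2.2) hδ
      have h1 := tr_sub h (hinf'.natEmbedding _ m').2.1 (hinf'.natEmbedding _ m).2.1 1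
      rw [Int.cast_one, one_mul] at h1
      have h2 := hδc _ h1 (fun h0 => hne ((hinf'.natEmbedding _).injective
        (Subtype.ext (sub_eq_zero.1 h0).symm)))
      linarith
    obtain ⟨c0, hc0, hm⟩ := Set.exists_min_image _ (fun x : ℂ => ‖x‖) hfin ⟨c 0, hdk 0, hc 0, le_rfl⟩
    refine ⟨c0, hc0.2.1, hc0.1, fun x hx hx0 => ?_⟩
    rcases le_or_gt ‖x‖ ‖c 0‖ with h1 | h1
    · exact hm x ⟨hx, hx0, h1⟩
    · exact hc0.2.2.trans h1.le
  refine ⟨c0, s, hc00, hc0d, ?_, hs.sS, fun m => hs.bl m (s m) (Set.mem_insert _ _), ?_⟩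
  · intro x hx
    by_cases him : (x / c0).im = 0
    · obtain ⟨r, hr⟩ : ∃ r : ℝ, r = (x / c0).re := ⟨_, rfl⟩
      have hxr : x / c0 = (r : ℂ) := Complex.ext (by simp [hr]) (by simp [him])
      have hxr' : x = r * c0 := by
        rw [← hxr]
        field_simp
      refine ⟨round r, ?_⟩
      by_contra hne
      have h1 := hmin _ (tr_sub h hx hc0d (round r)) (sub_ne_zero.2 hne)
      have e : x - (round r : ℂ) * c0 = ((r - round r : ℝ) : ℂ) * c0 := by
        rw [hxr']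
        push_cast
        ring
      rw [e, norm_mul, Complex.norm_real, Real.norm_eq_abs] at h1
      have h2 := abs_sub_round r
      have h3 : 0 < ‖c0‖ := norm_pos_iff.2 hc00
      nlinarith
    · exfalso
      obtain ⟨b, hb⟩ : ∃ b : ℝ, b = (x / c0).im := ⟨_, rfl⟩
      have hb0 : b ≠ 0 := by rw [hb]; exact him
      obtain ⟨k, hk⟩ : ∃ k : ℕ → ℤ, k = fun j : ℕ => ⌊(s j / c0).im / b⌋ := ⟨_, rfl⟩
      obtain ⟨y, hy⟩ : ∃ y : ℕ → ℂ, y = fun j : ℕ => s j - (k j : ℂ) * x := ⟨_, rfl⟩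
      have hyb : ∀ j, |(y j / c0).im| ≤ |b| := by
        intro j
        have e : y j / c0 = s j / c0 - (k j : ℂ) * (x / c0) := by
          rw [hy]
          ring
        have e2 : (y j / c0).im = (s j / c0).im - k j * b := by
          rw [e, Complex.sub_im, Complex.mul_im, hb]
          simp
        have h3 := Int.floor_le ((s j / c0).im / b)
        have h4 := Int.lt_floor_add_one ((s j / c0).im / b)
        have e3 : (s j / c0).im - k j * b = ((s j / c0).im / b - ⌊(s j / c0).im / b⌋) * b := by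
          rw [hk]
          field_simp
        rw [e2, e3, abs_mul]
        have h5 : |(s j / c0).im / b - ⌊(s j / c0).im / b⌋| ≤ 1 := by
          rw [abs_le]
          constructor <;> linarith
        have h6 := abs_nonneg b
        nlinarith
      refine nobd h hs hδ hδm (e := fun j : ℕ => (j : ℤ)) Nat.cast_injective
        (l := fun j : ℕ => 0 - (k j : ℂ) * x - (⌊(y j / c0).re⌋ : ℂ) * c0)
        (fun j => tr_sub h (tr_sub h (dk_one F S) hx (k j)) hc0d _)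
        (R := ‖c0‖ * (1 + |b|)) (fun j => ?_)
      have h1 := move hc00 (hyb j)
      have e : s (j : ℤ) + (0 - (k j : ℂ) * x - (⌊(y j / c0).re⌋ : ℂ) * c0) =
          y j - (⌊(y j / c0).re⌋ : ℂ) * c0 := by
        rw [hy]
        ring
      rw [e]
      exact h1
  · intro B
    by_contra hinf
    have hinf' : {m : ℤ | |(s m / c0).im| ≤ B}.Infinite := hinf
    refine nobd h hs hδ hδm (e := fun j : ℕ => (hinf'.natEmbedding _ j : ℤ))
      (fun i j hij => (hinf'.natEmbedding _).injective (Subtype.ext hij))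
      (l := fun j : ℕ => 0 - (⌊(s (hinf'.natEmbedding _ j : ℤ) / c0).re⌋ : ℂ) * c0)
      (fun j => tr_sub h (dk_one F S) hc0d _) (R := ‖c0‖ * (1 + B)) (fun j => ?_)
    have h1 := move hc00 (hinf'.natEmbedding _ j).2
    rw [← add_sub_assoc, add_zero]
    exact h1

end Pool.Agent.H65.UB
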